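import Pool.Agent.Helper6.ZA.Primes

/-!
An ℓ-group with a finite series of ideals with abelian factors is normal-valued.
-/

set_option autoImplicit false
set_option linter.unusedSectionVars false

namespace Pool.Agent.Helper6.ZA

universe u

variable {G : Type u} [Group G] [Lattice G] [MulLeftMono G] [MulRightMono G]

theorem one_le_mul_of {a b : G} (ha : 1 ≤ a) (hb : 1 ≤ b) : 1 ≤ a * b := by
  calc (1:G) = 1 * 1 := (one_mul 1).symm
    _ ≤ a * b := mul_le_mul' ha hb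

/-- The convex sub-ℓ-group of elements bounded by `y ^ k * m`, general form. -/
theorem bounded_gen {M : Subgroup G} (hM : IsCvx M) {y : G} (hy : 1 ≤ y)
    (hcomm : ∀ m ∈ M, 1 ≤ m → ∀ l : ℕ, ∃ k' : ℕ, ∃ m' ∈ M, 1 ≤ m' ∧ m * y ^ l ≤ y ^ k' * m') :
    ∃ S : Subgroup G, IsCvx S ∧ M ≤ S ∧ y ∈ S ∧
      ∀ z ∈ S, ∃ k : ℕ, ∃ m ∈ M, z ≤ y ^ k * m := by
  let T : Set G := {z | ∃ k : ℕ, ∃ m ∈ M, 1 ≤ m ∧ z ⊔ 1 ≤ y ^ k * m ∧ z⁻¹ ⊔ 1 ≤ y ^ k * m}
  have hone : ∀ (k : ℕ) (m : G), 1 ≤ m → 1 ≤ y ^ k * m :=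
    fun k m hm => one_le_mul_of (one_le_pow' hy k) hm
  have hmul : ∀ (k l : ℕ) (m n z w: G), m ∈ M → n ∈ M → 1 ≤ m → 1 ≤ n →
      z ≤ y ^ k * m → w ≤ y ^ l * n →
      ∃ k' : ℕ, ∃ m' ∈ M, 1 ≤ m' ∧ (z * w) ⊔ 1 ≤ y ^ k' * m' := by
    intro k l m n z w hmM hnM hm hn hz hw
    obtain ⟨k', m', hm', hm1', h⟩ := hcomm m hmM hm l
    refine ⟨k + k', m' * n, M.mul_mem hm' hnM, one_le_mul_of hm1' hn, ?_⟩
    apply sup_le _ (hone _ _ (one_le_mul_of hm1' hn))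
    calc z * w ≤ (y ^ k * m) * (y ^ l * n) := mul_le_mul' hz hw
      _ = y ^ k * (m * y ^ l) * n := by group
      _ ≤ y ^ k * (y ^ k' * m') * n := mul_le_mul' (mul_le_mul' le_rfl h) le_rfl
      _ = y ^ (k + k') * (m' * n) := by rw [pow_add]; group
  have hcommon : ∀ (k l : ℕ) (m n : G), 1 ≤ m → 1 ≤ n →
      y ^ k * m ≤ y ^ (k + l) * (m * n) ∧ y ^ l * n ≤ y ^ (k + l) * (m * n) := by
    intro k l m n hm hn
    constructor
    · refine mul_le_mul' ?_ (le_mul_of_one_le_right' hn)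
      rw [pow_add]
      exact le_mul_of_one_le_right' (one_le_pow' hy l)
    · refine mul_le_mul' ?_ (le_mul_of_one_le_left' hm)
      rw [pow_add]
      exact le_mul_of_one_le_left' (one_le_pow' hy k)
  let S : Subgroup G :=
    { carrier := T
      mul_mem' := by
        rintro z w ⟨k, m, hm, hm1, hz, hz'⟩ ⟨l, n, hn, hn1, hw, hw'⟩
        obtain ⟨k1, m1, a1, a2, a3⟩ := hmul k l m n z w hm hn hm1 hn1
          (le_sup_left.trans hz) (le_sup_left.trans hw)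
        obtain ⟨k2, m2, b1, b2, b3⟩ := hmul l k n m w⁻¹ z⁻¹ hn hm hn1 hm1
          (le_sup_left.trans hw') (le_sup_left.trans hz')
        refine ⟨k1 + k2, m1 * m2, M.mul_mem a1 b1, one_le_mul_of a2 b2, ?_, ?_⟩
        · exact a3.trans (hcommon k1 k2 m1 m2 a2 b2).1
        · rw [mul_inv_rev]
          exact b3.trans (hcommon k1 k2 m1 m2 a2 b2).2
      one_mem' := ⟨0, 1, M.one_mem, le_rfl, by simp, by simp⟩
      inv_mem' := by
        rintro z ⟨k, m, hm, hm1, hz, hz'⟩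
        exact ⟨k, m, hm, hm1, hz', by rw [inv_inv]; exact hz⟩ }
  refine ⟨S, ⟨?_, ?_⟩, ?_, ?_, ?_⟩
  · rintro z ⟨k, m, hm, hm1, hz, hz'⟩
    refine ⟨k, m, hm, hm1, by simpa using hz, ?_⟩
    apply sup_le _ (hone _ _ hm1)
    rw [inv_sup, inv_one]
    exact inf_le_right.trans (hone _ _ hm1)
  · rintro z ⟨k, m, hm, hm1, hz, hz'⟩ w hw hwz
    refine ⟨k, m, hm, hm1, ?_, ?_⟩
    · exact (sup_le_sup_right hwz 1).trans hz
    · apply sup_le _ (hone _ _ hm1)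
      exact (inv_le_one'.mpr hw).trans (hone _ _ hm1)
  · intro z hz
    refine ⟨0, (z ⊔ 1) * (z⁻¹ ⊔ 1), M.mul_mem (hM.sup_one _ hz) (hM.neg_mem hz),
      one_le_mul_of le_sup_right le_sup_right, ?_, ?_⟩
    · rw [pow_zero, one_mul]
      exact le_mul_of_one_le_right' le_sup_right
    · rw [pow_zero, one_mul]
      exact le_mul_of_one_le_left' le_sup_right
  · refine ⟨1, 1, M.one_mem, le_rfl, ?_, ?_⟩
    · simp [hy]
    · rw [pow_one, mul_one]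
      apply sup_le _ hy
      exact (inv_le_one'.mpr hy).trans hy
  · rintro z ⟨k, m, hm, hm1, hz, hz'⟩
    exact ⟨k, m, hm, le_sup_left.trans hz⟩



end Pool.Agent.Helper6.ZA
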