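import Mathlib

/-!
Integral approximations of finitely generated groups of reals.
-/

set_option autoImplicit false

namespace Pool.Agent.Helper6.ZA

/-- Every finite set of reals has an integral approximation which is additive on the group it
generates and strictly increasing on the set. -/
theorem exists_chi (S : Finset ℝ) : ∃ χ : ℝ → ℤ,
    (∀ a ∈ Submodule.span ℤ (S : Set ℝ), ∀ b ∈ Submodule.span ℤ (S : Set ℝ),
      χ (a + b) = χ a + χ b) ∧
    (∀ a ∈ S, ∀ b ∈ S, a < b → χ a < χ b) := by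
  classical
  let M := Submodule.span ℤ (S : Set ℝ)
  have : Module.Finite ℤ M := Module.Finite.span_finset ℤ S
  have : Module.IsTorsionFree ℤ M := inferInstance
  let b := Module.finBasis ℤ M
  let L : ℕ → (M →ₗ[ℤ] ℤ) := fun N => b.constr ℤ (fun i => ⌊(N : ℝ) * ((b i : M) : ℝ)⌋)
  have hL : ∀ (N : ℕ) (h : M), ((N : ℝ) * (h : ℝ)) - ∑ i, |((b.repr h i : ℤ) : ℝ)| ≤
      ((L N h : ℤ) : ℝ) := by
    intro N h
    have h1 : (h : ℝ) = ∑ i, ((b.repr h i : ℤ) : ℝ) * ((b i : M) : ℝ) := by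
      have := congrArg (fun x : M => (x : ℝ)) (b.sum_repr h)
      simp only [Submodule.coe_sum, Submodule.coe_smul, zsmul_eq_mul] at this
      exact this.symm
    have h2 : ((L N h : ℤ) : ℝ) = ∑ i, ((b.repr h i : ℤ) : ℝ) * (⌊(N : ℝ) * ((b i : M) : ℝ)⌋ : ℝ) := by
      simp only [L, Module.Basis.constr_apply_fintype]
      push_cast
      simp [Module.Basis.equivFun_apply]
    rw [h2, h1, Finset.mul_sum, ← Finset.sum_sub_distrib]
    apply Finset.sum_le_sum
    intro i _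
    set c : ℝ := ((b.repr h i : ℤ) : ℝ)
    set y : ℝ := (N : ℝ) * ((b i : M) : ℝ)
    have h3 := Int.floor_le y
    have h4 := Int.lt_floor_add_one y
    have h5 : (N : ℝ) * (c * ((b i : M) : ℝ)) = c * y := by simp only [y]; ring
    rw [h5]
    have h6 : c * (y - ⌊y⌋) ≤ |c| := by
      calc c * (y - ⌊y⌋) ≤ |c| * (y - ⌊y⌋) :=
            mul_le_mul_of_nonneg_right (le_abs_self c) (by linarith)
        _ ≤ |c| * 1 := mul_le_mul_of_nonneg_left (by linarith) (abs_nonneg c)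
        _ = |c| := mul_one _
    linarith
  -- eventually positive
  have hpos : ∀ h : M, 0 < (h : ℝ) → ∃ N0 : ℕ, ∀ N ≥ N0, 0 < L N h := by
    intro h hh
    obtain ⟨N0, hN0⟩ := exists_nat_gt ((∑ i, |((b.repr h i : ℤ) : ℝ)|) / (h : ℝ))
    refine ⟨N0, fun N hN => ?_⟩
    have h1 := hL N h
    have h2 : (∑ i, |((b.repr h i : ℤ) : ℝ)|) < (N : ℝ) * (h : ℝ) := by
      rw [div_lt_iff₀ hh] at hN0
      refine lt_of_lt_of_le hN0 ?_
      have : (N0 : ℝ) ≤ N := by exact_mod_cast hN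
      nlinarith
    have h3 : (0 : ℝ) < ((L N h : ℤ) : ℝ) := by linarith
    exact_mod_cast h3
  have hS : ∀ a ∈ S, a ∈ M := fun a ha => Submodule.subset_span ha
  have hpair : ∀ p : ℝ × ℝ, ∃ N0 : ℕ, ∀ N ≥ N0, ∀ (h1 : p.1 ∈ S) (h2 : p.2 ∈ S), p.1 < p.2 →
      L N ⟨p.1, hS _ h1⟩ < L N ⟨p.2, hS _ h2⟩ := by
    rintro ⟨x, y⟩
    by_cases h : x ∈ S ∧ y ∈ S ∧ x < y
    · obtain ⟨hx, hy, hxy⟩ := h
      obtain ⟨N0, hN0⟩ := hpos (⟨y, hS _ hy⟩ - ⟨x, hS _ hx⟩) (by
        change 0 < y - x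
        linarith)
      refine ⟨N0, fun N hN _ _ _ => ?_⟩
      have := hN0 N hN
      rw [map_sub] at this
      linarith
    · exact ⟨0, fun N _ h1 h2 h3 => absurd ⟨h1, h2, h3⟩ h⟩
  choose N0 hN0 using hpair
  let N := (S ×ˢ S).sup N0
  refine ⟨fun r => if h : r ∈ M then L N ⟨r, h⟩ else 0, ?_, ?_⟩
  · intro x hx y hy
    have hxy : x + y ∈ M := M.add_mem hx hy
    dsimp only
    rw [dif_pos hxy, dif_pos (show x ∈ M from hx), dif_pos (show y ∈ M from hy), ← map_add]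
    rfl
  · intro x hx y hy hxy
    dsimp only
    rw [dif_pos (hS _ hx), dif_pos (hS _ hy)]
    refine hN0 (x, y) N ?_ hx hy hxy
    exact Finset.le_sup (f := N0) (Finset.mk_mem_product hx hy)

end Pool.Agent.Helper6.ZA
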