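import Pool.Agent.Helper6.ZA.Primes

/-!
Conjugates of convex sub-ℓ-groups.
-/

set_option autoImplicit false
set_option linter.unusedSectionVars false

namespace Pool.Agent.Helper6.ZA

universe u

variable {G : Type u} [Group G]

/-- the conjugate `g P g⁻¹` -/
def cj (g : G) (P : Subgroup G) : Subgroup G where
  carrier := {x | g⁻¹ * x * g ∈ P}
  mul_mem' := by
    intro a b ha hb
    have e : g⁻¹ * (a * b) * g = (g⁻¹ * a * g) * (g⁻¹ * b * g) := by group
    change g⁻¹ * (a * b) * g ∈ P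
    rw [e]; exact P.mul_mem ha hb
  one_mem' := by
    change g⁻¹ * 1 * g ∈ P
    have e : g⁻¹ * 1 * g = 1 := by group
    rw [e]; exact P.one_mem
  inv_mem' := by
    intro a ha
    have e : g⁻¹ * a⁻¹ * g = (g⁻¹ * a * g)⁻¹ := by group
    change g⁻¹ * a⁻¹ * g ∈ P
    rw [e]; exact P.inv_mem ha

theorem mem_cj {g x : G} {P : Subgroup G} : x ∈ cj g P ↔ g⁻¹ * x * g ∈ P := Iff.rfl

theorem conj_mem_cj {g x : G} {P : Subgroup G} : g * x * g⁻¹ ∈ cj g P ↔ x ∈ P := by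
  rw [mem_cj]
  have e : g⁻¹ * (g * x * g⁻¹) * g = x := by group
  rw [e]

variable [Lattice G] [MulLeftMono G] [MulRightMono G]

theorem conj_sup (g a b : G) : g⁻¹ * (a ⊔ b) * g = (g⁻¹ * a * g) ⊔ (g⁻¹ * b * g) := by
  rw [mul_sup, sup_mul]

theorem cj_cvx {g : G} {P : Subgroup G} (hP : IsCvx P) : IsCvx (cj g P) := by
  constructor
  · intro a ha
    rw [mem_cj] at ha ⊢
    rw [conj_sup]
    have e : g⁻¹ * 1 * g = 1 := by group
    rw [e]; exact hP.sup_one _ ha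
  · intro a ha b hb hba
    rw [mem_cj] at ha ⊢
    refine hP.conv _ ha _ ?_ ?_
    · have : g⁻¹ * 1 * g ≤ g⁻¹ * b * g := by gcongr
      have e : g⁻¹ * 1 * g = 1 := by group
      rwa [e] at this
    · gcongr

theorem cj_prm {g : G} {P : Subgroup G} (hP : IsPrm P) : IsPrm (cj g P) :=
  { cj_cvx hP.toIsCvx with
    prime := by
      intro a
      have e1 : g⁻¹ * (a ⊔ 1) * g = (g⁻¹ * a * g) ⊔ 1 := by
        rw [conj_sup]; congr 1; group
      have e2 : g⁻¹ * (a⁻¹ ⊔ 1) * g = (g⁻¹ * a * g)⁻¹ ⊔ 1 := by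
        rw [conj_sup]; congr 1 <;> group
      rw [mem_cj, mem_cj, e1, e2]
      exact hP.prime _ }

theorem leQ_cj {g a b : G} {P : Subgroup G} :
    leQ (cj g P) a b ↔ leQ P (g⁻¹ * a * g) (g⁻¹ * b * g) := by
  unfold leQ
  rw [mem_cj, conj_sup]
  have e1 : g⁻¹ * (b⁻¹ * a) * g = (g⁻¹ * b * g)⁻¹ * (g⁻¹ * a * g) := by group
  have e2 : g⁻¹ * 1 * g = 1 := by group
  rw [e1, e2]

theorem prm_of_le {Q P : Subgroup G} (hQ : IsPrm Q) (hP : IsCvx P) (h : Q ≤ P) : IsPrm P :=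
  { hP with prime := fun a => (hQ.prime a).imp (fun h' => h h') (fun h' => h h') }

theorem leQ_refl {P : Subgroup G} (hP : IsCvx P) (a : G) : leQ P a a :=
  leQ_of_le hP le_rfl

theorem mem_of_leQ {P : Subgroup G} (hP : IsCvx P) {a : G} (h1 : leQ P a 1) (h2 : leQ P 1 a) :
    a ∈ P := by
  have := leQ_antisymm hP h2 h1
  rwa [inv_one, one_mul] at this

theorem leQ_one_pow {P : Subgroup G} (hP : IsCvx P) {x : G} (h : leQ P 1 x) (k : ℕ) :
    leQ P 1 (x ^ k) := by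
  induction k with
  | zero => rw [pow_zero]; exact leQ_refl hP 1
  | succ k ih =>
    rw [pow_succ]
    refine leQ_trans hP ih ?_
    have := (leQ_mul_left (Q := P) (x ^ k) 1 x).mpr h
    rwa [mul_one] at this

/-- primes are isolated -/
theorem mem_of_pow_mem {P : Subgroup G} (hP : IsPrm P) {x : G} {n : ℕ} (hn : n ≠ 0)
    (h : x ^ n ∈ P) : x ∈ P := by
  have key : ∀ x : G, leQ P 1 x → x ^ n ∈ P → x ∈ P := by
    intro x h1 h
    obtain ⟨k, rfl⟩ := Nat.exists_eq_succ_of_ne_zero hn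
    apply mem_of_leQ hP.toIsCvx _ h1
    have h2 : leQ P x (x ^ (k + 1)) := by
      rw [pow_succ']
      have := (leQ_mul_left (Q := P) x 1 (x ^ k)).mpr (leQ_one_pow hP.toIsCvx h1 k)
      rwa [mul_one] at this
    refine leQ_trans hP.toIsCvx h2 ?_
    apply leQ_of_mem' hP.toIsCvx
    rw [inv_one, one_mul]; exact h
  rcases leQ_total hP 1 x with h1 | h1
  · exact key x h1 h
  · have h2 : leQ P 1 x⁻¹ := by
      have := (leQ_mul_left (Q := P) x⁻¹ x 1).mpr h1
      rwa [inv_mul_cancel, mul_one] at this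
    have h3 := key x⁻¹ h2 (by rw [inv_pow]; exact P.inv_mem h)
    rw [← inv_inv x]; exact P.inv_mem h3

theorem mem_of_zpow_mem {P : Subgroup G} (hP : IsPrm P) {x : G} {n : ℤ} (hn : n ≠ 0)
    (h : x ^ n ∈ P) : x ∈ P := by
  rcases Int.eq_nat_or_neg n with ⟨m, rfl | rfl⟩
  · rw [zpow_natCast] at h
    exact mem_of_pow_mem hP (by omega) h
  · rw [zpow_neg, zpow_natCast] at h
    have h2 := P.inv_mem h
    rw [inv_inv] at h2
    exact mem_of_pow_mem hP (by omega) h2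

end Pool.Agent.Helper6.ZA
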