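import Mathlib

/-!
Terms of lattice-ordered groups, varieties, amalgamation over the integers.
-/

set_option autoImplicit false
set_option linter.unusedSectionVars false

namespace Pool.Agent.Helper6.ZA

/-- Terms in the signature of `ℓ`-groups (multiplication, unit, inverse, join, meet), with
variables indexed by `ℕ`. -/
inductive LTerm : Type
  | var : ℕ → LTerm
  | one : LTerm
  | mul : LTerm → LTerm → LTerm
  | inv : LTerm → LTerm
  | sup : LTerm → LTerm → LTerm
  | inf : LTerm → LTerm → LTerm

/-- The value of a term. -/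
def LTerm.eval {G : Type} [Group G] [Lattice G] (v : ℕ → G) : LTerm → G
  | .var n => v n
  | .one => 1
  | .mul s t => s.eval v * t.eval v
  | .inv s => (s.eval v)⁻¹
  | .sup s t => s.eval v ⊔ t.eval v
  | .inf s t => s.eval v ⊓ t.eval v

/-- The lattice order of the group is compatible with multiplication on both sides, i.e. the
structure is an `ℓ`-group. -/
structure IsLGroup (G : Type) [Group G] [Lattice G] : Prop where
  left : ∀ a b c : G, a ≤ b → c * a ≤ c * b
  right : ∀ a b c : G, a ≤ b → a * c ≤ b * c

/-- `G` is a member of the variety of `ℓ`-groups defined by the set `E` of identities. -/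
structure InVar (E : Set (LTerm × LTerm)) (G : Type) [Group G] [Lattice G] : Prop where
  lgroup : IsLGroup G
  ids : ∀ e ∈ E, ∀ v : ℕ → G, e.1.eval v = e.2.eval v

/-- `ℓ`-embeddings: injective maps preserving the group and the lattice operations. -/
structure IsLEmb {A B : Type} [Group A] [Lattice A] [Group B] [Lattice B] (f : A → B) : Prop where
  mul : ∀ x y, f (x * y) = f x * f y
  sup : ∀ x y, f (x ⊔ y) = f x ⊔ f y
  inf : ∀ x y, f (x ⊓ y) = f x ⊓ f y
  inj : Function.Injective f

/-- The `ℓ`-group `A` is an amalgamation base of the variety defined by `E`. -/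
def IsAmalgBase (E : Set (LTerm × LTerm)) (A : Type) [Group A] [Lattice A] : Prop :=
  InVar E A ∧
  ∀ (B C : Type) [Group B] [Lattice B] [Group C] [Lattice C], InVar E B → InVar E C →
    ∀ (f : A → B) (g : A → C), IsLEmb f → IsLEmb g →
      ∃ (D : Type) (_ : Group D) (_ : Lattice D), InVar E D ∧
        ∃ (h : B → D) (k : C → D), IsLEmb h ∧ IsLEmb k ∧ ∀ a : A, h (f a) = k (g a)

/-- Representable `ℓ`-groups (subdirect products of totally ordered groups): conjugates of
disjoint elements are disjoint. -/
def IsRepresentable (G : Type) [Group G] [Lattice G] : Prop :=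
  ∀ x y z : G, x ⊓ y = 1 → x ⊓ (z⁻¹ * y * z) = 1

/-- Normal-valued `ℓ`-groups, by Wolfenstein's law. -/
def IsNormalValued (G : Type) [Group G] [Lattice G] : Prop :=
  ∀ a b : G, 1 ≤ a → 1 ≤ b → a * b ≤ b ^ 2 * a ^ 2

section basic

variable {E : Set (LTerm × LTerm)}

theorem IsLGroup.mulLeftMono {G : Type} [Group G] [Lattice G] (h : IsLGroup G) :
    MulLeftMono G := ⟨fun c _ _ hab => h.left _ _ c hab⟩

theorem IsLGroup.mulRightMono {G : Type} [Group G] [Lattice G] (h : IsLGroup G) :
    MulRightMono G := ⟨fun c _ _ hab => h.right _ _ c hab⟩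

theorem isLGroup_of {G : Type} [Group G] [Lattice G] [MulLeftMono G] [MulRightMono G] :
    IsLGroup G := ⟨fun _ _ c h => mul_le_mul_right h c, fun _ _ c h => mul_le_mul_left h c⟩

/-- A class defined by identities is closed under relational images of products. -/
theorem relHSP {ι : Type} (A : ι → Type) [∀ i, Group (A i)] [∀ i, Lattice (A i)]
    (hA : ∀ i, InVar E (A i)) (B : Type) [Group B] [Lattice B] (hB : IsLGroup B)
    (R : (∀ i, A i) → B → Prop)
    (hone : R 1 1)
    (hmul : ∀ p q a b, R p a → R q b → R (p * q) (a * b))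
    (hinv : ∀ p a, R p a → R p⁻¹ a⁻¹)
    (hsup : ∀ p q a b, R p a → R q b → R (p ⊔ q) (a ⊔ b))
    (hinf : ∀ p q a b, R p a → R q b → R (p ⊓ q) (a ⊓ b))
    (htot : ∀ b, ∃ p, R p b)
    (hfun : ∀ p a b, R p a → R p b → a = b) : InVar E B := by
  refine ⟨hB, ?_⟩
  intro e he w
  choose p hp using fun n => htot (w n)
  have key : ∀ t : LTerm, R (fun i => t.eval (fun n => p n i)) (t.eval w) := by
    intro t
    induction t with
    | var n => exact hp n
    | one => exact hone
    | mul s t hs ht => exact hmul _ _ _ _ hs ht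
    | inv s hs => exact hinv _ _ hs
    | sup s t hs ht => exact hsup _ _ _ _ hs ht
    | inf s t hs ht => exact hinf _ _ _ _ hs ht
  apply hfun _ _ _ (key e.1)
  have h2 := key e.2
  have : (fun i => e.1.eval (fun n => p n i)) = (fun i => e.2.eval (fun n => p n i)) :=
    funext fun i => (hA i).ids e he _
  rw [this]; exact h2

end basic

end Pool.Agent.Helper6.ZA
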