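import Pool.Agent.Helper6.ZA.Mimic
import Pool.Agent.Helper6.ZA.Terms

/-!
A variety containing all the wreath powers `W n` contains all normal-valued ℓ-groups.
-/

set_option autoImplicit false
set_option linter.unusedSectionVars false

namespace Pool.Agent.Helper6.ZA

section main

variable (G : Type) [Group G] [Lattice G] [MulLeftMono G] [MulRightMono G]

/-- The index set of the product. -/
def Ix : Type := Σ n : ℕ, (G → Lex (Fin n → ℝ)) × (G → W n)

variable {G}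

/-- Good indices for a prime and a finite set. -/
def Good (Q : Subgroup G) (D : Finset G) (i : Ix G) : Prop :=
  (∀ a ∈ D, ∀ b ∈ D, (i.2.1 a ≤ i.2.1 b ↔ leQ Q a b)) ∧
    ∀ g : G, ∀ a ∈ D, i.2.2 g (i.2.1 a) = i.2.1 (g * a)

theorem Good.mono {Q : Subgroup G} {D D' : Finset G} {i : Ix G} (h : Good Q D' i)
    (hD : D ⊆ D') : Good Q D i :=
  ⟨fun a ha b hb => h.1 a (hD ha) b (hD hb), fun g a ha => h.2 g a (hD ha)⟩

theorem exists_good (law : NV G) {Q : Subgroup G} (hQ : IsPrm Q) (D : Finset G) :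
    ∃ i : Ix G, Good Q D i := by
  obtain ⟨n, x, v, h1, h2⟩ := mimic law hQ D
  exact ⟨⟨n, x, v⟩, h1, h2⟩

/-- `w` mimics `g` at every point, for large finite sets. -/
def Mim (Q : Subgroup G) (w : ∀ i : Ix G, W i.1) (g : G) : Prop :=
  ∀ a : G, ∃ D : Finset G, ∀ i : Ix G, Good Q D i → w i (i.2.1 a) = i.2.1 (g * a)

theorem Mim.congr {Q : Subgroup G} {w w' : ∀ i : Ix G, W i.1} {g g' : G} (h : Mim Q w g)
    (hw : ∀ i, w i = w' i) (hg : g = g') : Mim Q w' g' := by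
  have : w = w' := funext hw
  subst this; subst hg; exact h

theorem Mim.mul {Q : Subgroup G} {w w' : ∀ i : Ix G, W i.1} {g g' : G} (h : Mim Q w g)
    (h' : Mim Q w' g') : Mim Q (fun i => w i * w' i) (g * g') := by
  classical
  intro a
  obtain ⟨D, hD⟩ := h (g' * a)
  obtain ⟨D', hD'⟩ := h' a
  refine ⟨D ∪ D', fun i hi => ?_⟩
  rw [CG.mul_apply, hD' i (hi.mono Finset.subset_union_right),
    hD i (hi.mono Finset.subset_union_left), mul_assoc]

theorem Mim.one {Q : Subgroup G} : Mim Q (fun _ => 1) (1 : G) := by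
  intro a
  exact ⟨∅, fun i _ => by rw [CG.one_apply, one_mul]⟩

theorem Mim.sup {Q : Subgroup G} (hQ : IsPrm Q) {w w' : ∀ i : Ix G, W i.1} {g g' : G}
    (h : Mim Q w g) (h' : Mim Q w' g') : Mim Q (fun i => w i ⊔ w' i) (g ⊔ g') := by
  classical
  intro a
  obtain ⟨D, hD⟩ := h a
  obtain ⟨D', hD'⟩ := h' a
  refine ⟨D ∪ D' ∪ {g * a, g' * a, (g ⊔ g') * a}, fun i hi => ?_⟩
  have hm := hi.1
  rw [CG.sup_apply, hD i (hi.mono (by intro x hx; simp [hx])),
    hD' i (hi.mono (by intro x hx; simp [hx]))]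
  have e : (g ⊔ g') * a = g * a ⊔ g' * a := sup_mul _ _ _
  rcases leQ_total hQ (g * a) (g' * a) with h1 | h1
  · have h2 := (hm (g * a) (by simp) (g' * a) (by simp)).mpr h1
    rw [max_eq_right h2]
    have h3 : (g' * a)⁻¹ * ((g ⊔ g') * a) ∈ Q := by rw [e]; exact sup_mem_of_leQ h1
    apply le_antisymm
    · exact (hm _ (by simp) _ (by simp)).mpr (leQ_of_mem hQ.toIsCvx h3)
    · exact (hm _ (by simp) _ (by simp)).mpr (leQ_of_mem' hQ.toIsCvx h3)
  · have h2 := (hm (g' * a) (by simp) (g * a) (by simp)).mpr h1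
    rw [max_eq_left h2]
    have h3 : (g * a)⁻¹ * ((g ⊔ g') * a) ∈ Q := by
      rw [e, sup_comm]; exact sup_mem_of_leQ h1
    apply le_antisymm
    · exact (hm _ (by simp) _ (by simp)).mpr (leQ_of_mem hQ.toIsCvx h3)
    · exact (hm _ (by simp) _ (by simp)).mpr (leQ_of_mem' hQ.toIsCvx h3)

theorem Mim.inf {Q : Subgroup G} (hQ : IsPrm Q) {w w' : ∀ i : Ix G, W i.1} {g g' : G}
    (h : Mim Q w g) (h' : Mim Q w' g') : Mim Q (fun i => w i ⊓ w' i) (g ⊓ g') := by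
  classical
  intro a
  obtain ⟨D, hD⟩ := h a
  obtain ⟨D', hD'⟩ := h' a
  refine ⟨D ∪ D' ∪ {g * a, g' * a, (g ⊓ g') * a}, fun i hi => ?_⟩
  have hm := hi.1
  rw [CG.inf_apply, hD i (hi.mono (by intro x hx; simp [hx])),
    hD' i (hi.mono (by intro x hx; simp [hx]))]
  have e : (g ⊓ g') * a = g * a ⊓ g' * a := inf_mul _ _ _
  rcases leQ_total hQ (g * a) (g' * a) with h1 | h1
  · have h2 := (hm (g * a) (by simp) (g' * a) (by simp)).mpr h1
    rw [min_eq_left h2]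
    have h3 : (g * a)⁻¹ * ((g ⊓ g') * a) ∈ Q := by rw [e]; exact inf_mem_of_leQ h1
    apply le_antisymm
    · exact (hm _ (by simp) _ (by simp)).mpr (leQ_of_mem hQ.toIsCvx h3)
    · exact (hm _ (by simp) _ (by simp)).mpr (leQ_of_mem' hQ.toIsCvx h3)
  · have h2 := (hm (g' * a) (by simp) (g * a) (by simp)).mpr h1
    rw [min_eq_right h2]
    have h3 : (g' * a)⁻¹ * ((g ⊓ g') * a) ∈ Q := by
      rw [e, inf_comm]; exact inf_mem_of_leQ h1
    apply le_antisymm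
    · exact (hm _ (by simp) _ (by simp)).mpr (leQ_of_mem hQ.toIsCvx h3)
    · exact (hm _ (by simp) _ (by simp)).mpr (leQ_of_mem' hQ.toIsCvx h3)

theorem Mim.gen {Q : Subgroup G} (g : G) : Mim Q (fun i => i.2.2 g) g := by
  intro a
  exact ⟨{a}, fun i hi => hi.2 g a (by simp)⟩

theorem Mim.gen_inv {Q : Subgroup G} (g : G) : Mim Q (fun i => (i.2.2 g)⁻¹) g⁻¹ := by
  classical
  intro a
  refine ⟨{g⁻¹ * a}, fun i hi => ?_⟩
  have h1 := hi.2 g (g⁻¹ * a) (by simp)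
  rw [mul_inv_cancel_left] at h1
  rw [← h1, CG.inv_apply_self]

theorem Mim.unique (law : NV G) {Q : Subgroup G} (hQ : IsPrm Q) {w : ∀ i : Ix G, W i.1} {g g' : G}
    (h : Mim Q w g) (h' : Mim Q w g') : g⁻¹ * g' ∈ Q := by
  classical
  obtain ⟨D, hD⟩ := h 1
  obtain ⟨D', hD'⟩ := h' 1
  obtain ⟨i, hi⟩ := exists_good law hQ (D ∪ D' ∪ {g, g'})
  have h1 := hD i (hi.mono (by intro x hx; simp [hx]))
  have h2 := hD' i (hi.mono (by intro x hx; simp [hx]))
  rw [mul_one] at h1 h2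
  have h3 : i.2.1 g = i.2.1 g' := h1.symm.trans h2
  apply leQ_antisymm hQ.toIsCvx
  · exact (hi.1 g (by simp) g' (by simp)).mp h3.le
  · exact (hi.1 g' (by simp) g (by simp)).mp h3.ge


/-- **The mimic theorem**: a variety containing all the wreath powers `W n` contains all
normal-valued ℓ-groups. -/
theorem nv_mem_of_W {E : Set (LTerm × LTerm)} (hW : ∀ n, InVar E (W n)) (law : NV G) :
    InVar E G := by
  refine relHSP (ι := Ix G) (fun i => W i.1) (fun i => hW i.1) G isLGroup_of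
    (fun p g => ∀ Q : Subgroup G, IsPrm Q →
      Mim Q p g ∧ Mim Q (fun i => (p i)⁻¹) g⁻¹) ?_ ?_ ?_ ?_ ?_ ?_ ?_
  · intro Q hQ
    refine ⟨Mim.one, ?_⟩
    exact (Mim.one (Q := Q)).congr (fun i => inv_one.symm) inv_one.symm
  · intro p q a b h1 h2 Q hQ
    obtain ⟨p1, p2⟩ := h1 Q hQ
    obtain ⟨q1, q2⟩ := h2 Q hQ
    exact ⟨p1.mul q1, (q2.mul p2).congr (fun i => (mul_inv_rev _ _).symm) (mul_inv_rev _ _).symm⟩
  · intro p a h1 Q hQ
    obtain ⟨p1, p2⟩ := h1 Q hQ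
    exact ⟨p2, p1.congr (fun i => (inv_inv _).symm) (inv_inv _).symm⟩
  · intro p q a b h1 h2 Q hQ
    obtain ⟨p1, p2⟩ := h1 Q hQ
    obtain ⟨q1, q2⟩ := h2 Q hQ
    exact ⟨p1.sup hQ q1, (p2.inf hQ q2).congr (fun i => (inv_sup _ _).symm) (inv_sup _ _).symm⟩
  · intro p q a b h1 h2 Q hQ
    obtain ⟨p1, p2⟩ := h1 Q hQ
    obtain ⟨q1, q2⟩ := h2 Q hQ
    exact ⟨p1.inf hQ q1, (p2.sup hQ q2).congr (fun i => (inv_inf _ _).symm) (inv_inf _ _).symm⟩
  · intro g
    exact ⟨fun i => i.2.2 g, fun Q hQ => ⟨Mim.gen g, Mim.gen_inv g⟩⟩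
  · intro p a b h1 h2
    by_contra hne
    obtain ⟨Q, hQ, hn⟩ := exists_prime_ne hne
    exact hn (Mim.unique law hQ (h1 Q hQ).1 (h2 Q hQ).1)

end main

end Pool.Agent.Helper6.ZA
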