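import Pool.Agent.Helper6.ZA.Conj
import Pool.Agent.Helper6.ZA.Backward

/-!
ℓ-groups that are not normal-valued: existence of a prime with locally transitive action.
-/

set_option autoImplicit false
set_option linter.unusedSectionVars false

namespace Pool.Agent.Helper6.ZA

universe u

variable {G : Type u} [Group G] [Lattice G] [MulLeftMono G] [MulRightMono G]

/-- Hölder map on the cover of a value which is normal in its cover. -/
theorem exists_holder' {Q : Subgroup G} (hQ : IsPrm Q) {c : G} (hc : c ∉ Q)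
    (hnorm : ∀ x ∈ cv Q c, ∀ m ∈ vl Q c, x * m * x⁻¹ ∈ vl Q c) :
    ∃ φ : G → ℝ, (∀ x ∈ cv Q c, ∀ y ∈ cv Q c, φ (x * y) = φ x + φ y) ∧
      ∀ x ∈ cv Q c, (0 ≤ φ x ↔ x⁻¹ ⊔ 1 ∈ vl Q c) := by
  classical
  have hM : IsPrm (vl Q c) := vl_prm hQ hc
  have hMN : vl Q c ≤ cv Q c := vl_le_cv hQ hc
  have harch : ∀ y ∈ cv Q c, 1 ≤ y → y ∉ vl Q c → ∀ b ∈ cv Q c,
      ∃ k : ℕ, ∃ m ∈ vl Q c, b ≤ y ^ k * m := by
    intro y hyN hy hyM b hb
    obtain ⟨S, h1, h2, h3, h4⟩ := bounded_gen hM.toIsCvx hy (by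
      intro m hm hm1 l
      refine ⟨l, (y ^ l)⁻¹ * m * y ^ l, ?_, ?_, ?_⟩
      · have := hnorm _ ((cv Q c).inv_mem ((cv Q c).pow_mem hyN l)) m hm
        rwa [inv_inv] at this
      · have : (y ^ l)⁻¹ * 1 * y ^ l ≤ (y ^ l)⁻¹ * m * y ^ l := by gcongr
        simpa using this
      · apply le_of_eq; group)
    apply h4
    have hcS : c ∈ S := by
      by_contra hcon
      exact hyM (le_vl_of hQ hc h1 ((le_vl hQ hc).trans h2) hcon h3)
    exact cv_le_of h1 ((le_vl hQ hc).trans h2) hcS hb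
  let C : Set (cv Q c) := {x | (x : G)⁻¹ ⊔ 1 ∈ vl Q c}
  have hC : ∀ x : cv Q c, x ∈ C ↔ leQ (vl Q c) 1 (x : G) := by
    intro x
    simp [C, leQ]
  obtain ⟨φ, h1, h2⟩ := holder_cone C (by
      intro x hx y hy
      rw [hC] at hx hy ⊢
      have : leQ (vl Q c) ((x:G) * 1) ((x:G) * y) := (leQ_mul_left _ _ _).mpr hy
      rw [mul_one] at this
      exact leQ_trans hM.toIsCvx hx this) (by
      intro x
      rcases hM.prime (x : G) with h | h
      · right
        simpa [C] using h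
      · left; exact h) (by
      intro x hx g
      rw [hC] at hx ⊢
      obtain ⟨q, hq, h⟩ := (leQ_iff hM.toIsCvx).mp hx
      refine (leQ_iff hM.toIsCvx).mpr ⟨(g:G) * q * (g:G)⁻¹, hnorm _ g.2 _ hq, ?_⟩
      have : (g:G) * 1 * (g:G)⁻¹ ≤ (g:G) * ((x:G) * q) * (g:G)⁻¹ := by gcongr
      have e : (g:G) * ((x:G) * q) * (g:G)⁻¹ =
        ((g * x * g⁻¹ : cv Q c) : G) * ((g:G) * q * (g:G)⁻¹) := by
          push_cast
          group
      rw [e, mul_one, mul_inv_cancel] at this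
      exact this) (by
      intro x hx hx' y
      have hx1 : (x : G) ⊔ 1 ∉ vl Q c := by
        intro h
        apply hx'
        simpa [C] using h
      have hxM : (x:G)⁻¹ ⊔ 1 ∈ vl Q c := hx
      obtain ⟨k, m, hm, h⟩ := harch ((x:G) ⊔ 1) (cv_cvx.sup_one _ x.2) le_sup_right hx1 y y.2
      refine ⟨k, ?_⟩
      rw [hC]
      have hpow : ∀ k : ℕ, ((x:G) ^ k)⁻¹ * ((x:G) ⊔ 1) ^ k ∈ vl Q c := by
        intro k
        induction k with
        | zero => simp
        | succ k ih =>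
          have e1 : (x:G) ⊔ 1 = (x:G) * ((x:G)⁻¹ ⊔ 1) := by
            rw [mul_sup, mul_inv_cancel, mul_one, sup_comm]
          have e : ((x:G) ^ (k+1))⁻¹ * ((x:G) ⊔ 1) ^ (k+1) =
            (x:G)⁻¹ * ((((x:G) ^ k)⁻¹ * ((x:G) ⊔ 1) ^ k)) * ((x:G)⁻¹)⁻¹ * ((x:G)⁻¹ * ((x:G) ⊔ 1)) := by
              rw [pow_succ, pow_succ]
              group
          rw [e]
          refine (vl Q c).mul_mem (hnorm _ ((cv Q c).inv_mem x.2) _ ih) ?_
          rw [e1, inv_mul_cancel_left]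
          exact hxM
      have h1 : leQ (vl Q c) (y:G) (((x:G) ⊔ 1) ^ k) := (leQ_iff hM.toIsCvx).mpr ⟨m, hm, h⟩
      have h2 : leQ (vl Q c) (((x:G) ⊔ 1) ^ k) ((x:G) ^ k) := leQ_of_mem' hM.toIsCvx (hpow k)
      have h3 := leQ_trans hM.toIsCvx h1 h2
      obtain ⟨q, hq, h4⟩ := (leQ_iff hM.toIsCvx).mp h3
      refine (leQ_iff hM.toIsCvx).mpr ⟨(y:G) * q * (y:G)⁻¹, hnorm _ y.2 _ hq, ?_⟩
      have : (y:G) * (y:G)⁻¹ ≤ ((x:G) ^ k * q) * (y:G)⁻¹ := by gcongr
      rw [mul_inv_cancel] at this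
      push_cast
      calc (1:G) ≤ ((x:G) ^ k * q) * (y:G)⁻¹ := this
        _ = _ := by group)
  refine ⟨fun x => if h : x ∈ cv Q c then φ ⟨x, h⟩ else 0, ?_, ?_⟩
  · intro x hx y hy
    have hxy : x * y ∈ cv Q c := (cv Q c).mul_mem hx hy
    simp only [hx, hy, hxy, dif_pos]
    exact h1 ⟨x, hx⟩ ⟨y, hy⟩
  · intro x hx
    simp only [hx, dif_pos]
    exact h2 ⟨x, hx⟩

/-- If the law of normal-valued groups fails, some value is not normal in its cover. -/
theorem exists_nonnormal (h : ¬ NV G) : ∃ (Q : Subgroup G) (c : G), IsPrm Q ∧ c ∉ Q ∧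
    ¬ ∀ x ∈ cv Q c, ∀ m ∈ vl Q c, x * m * x⁻¹ ∈ vl Q c := by
  unfold NV at h
  push Not at h
  obtain ⟨a, b, ha, hb, hcon⟩ := h
  obtain ⟨Q, hQ, hnle⟩ := exists_prime_not_leQ hcon
  have hc1 : 1 ≤ a * b := one_le_mul_of ha hb
  have hac : a ≤ a * b := le_mul_of_one_le_right' hb
  have hbc : b ≤ a * b := le_mul_of_one_le_left' ha
  have hcQ : a * b ∉ Q := by
    intro h
    have h1 : a ∈ Q := hQ.conv _ h _ ha hac
    have h2 : b ∈ Q := hQ.conv _ h _ hb hbc
    apply hnle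
    apply leQ_of_mem hQ.toIsCvx
    exact Q.mul_mem (Q.inv_mem h) (Q.mul_mem (Q.mul_mem h2 h2) (Q.mul_mem h1 h1))
  refine ⟨Q, a * b, hQ, hcQ, ?_⟩
  intro hnorm
  obtain ⟨φ, hφ, hφpos⟩ := exists_holder' hQ hcQ hnorm
  have hle : leQ Q (b * b * (a * a)) (a * b) := (leQ_total hQ _ _).resolve_left hnle
  have habN : a * b ∈ cv Q (a * b) := self_mem_cv
  have haN : a ∈ cv Q (a * b) := cv_cvx.conv _ habN _ ha hac
  have hbN : b ∈ cv Q (a * b) := cv_cvx.conv _ habN _ hb hbc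
  have hφ1 : φ 1 = 0 := by
    have := hφ 1 (cv Q (a * b)).one_mem 1 (cv Q (a * b)).one_mem
    rw [one_mul] at this
    linarith
  have hφinv : ∀ x ∈ cv Q (a * b), φ x⁻¹ = - φ x := by
    intro x hx
    have := hφ x hx x⁻¹ ((cv Q (a * b)).inv_mem hx)
    rw [mul_inv_cancel, hφ1] at this
    linarith
  have hbbN := (cv Q (a * b)).mul_mem hbN hbN
  have haaN := (cv Q (a * b)).mul_mem haN haN
  have k1 : 0 ≤ φ ((b * b * (a * a))⁻¹ * (a * b)) := by
    rw [hφpos _ ((cv Q (a * b)).mul_mem ((cv Q (a * b)).inv_mem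
      ((cv Q (a * b)).mul_mem hbbN haaN)) habN)]
    apply le_vl hQ hcQ
    have e : ((b * b * (a * a))⁻¹ * (a * b))⁻¹ = (a * b)⁻¹ * (b * b * (a * a)) := by
      rw [mul_inv_rev, inv_inv]
    rw [e]; exact hle
  rw [hφ _ ((cv Q (a * b)).inv_mem ((cv Q (a * b)).mul_mem hbbN haaN)) _ habN,
    hφinv _ ((cv Q (a * b)).mul_mem hbbN haaN), hφ _ hbbN _ haaN, hφ _ hbN _ hbN,
    hφ _ haN _ haN, hφ _ haN _ hbN] at k1
  have k3 : 0 ≤ φ (a * b) := by
    rw [hφpos _ habN]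
    have : (a * b)⁻¹ ⊔ 1 = 1 := sup_eq_right.mpr (inv_le_one'.mpr hc1)
    rw [this]; exact (vl Q (a * b)).one_mem
  have k4 : φ (a * b) ≠ 0 := by
    intro h0
    have h1 := (hφpos (a * b)⁻¹ ((cv Q (a * b)).inv_mem habN)).mp (by
      rw [hφinv _ habN, h0]; simp)
    rw [inv_inv, sup_eq_left.mpr hc1] at h1
    exact not_mem_vl hQ hcQ h1
  have k5 : 0 < φ (a * b) := lt_of_le_of_ne k3 (Ne.symm k4)
  rw [hφ _ haN _ hbN] at k5
  linarith

/-- strict order of left cosets -/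
def ltQ (M : Subgroup G) (a b : G) : Prop := ¬ leQ M b a

section ltQ

variable {M : Subgroup G} (hM : IsPrm M)

include hM

theorem ltQ.le {a b : G} (h : ltQ M a b) : leQ M a b := (leQ_total hM a b).resolve_right h

theorem ltQ.trans_le {a b c : G} (h : ltQ M a b) (h' : leQ M b c) : ltQ M a c :=
  fun h2 => h (leQ_trans hM.toIsCvx h' h2)

theorem leQ.trans_lt {a b c : G} (h : leQ M a b) (h' : ltQ M b c) : ltQ M a c :=
  fun h2 => h' (leQ_trans hM.toIsCvx h2 h)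

theorem ltQ.trans {a b c : G} (h : ltQ M a b) (h' : ltQ M b c) : ltQ M a c :=
  h.trans_le hM (h'.le hM)

omit hM in
theorem ltQ_mul_left (g a b : G) : ltQ M (g * a) (g * b) ↔ ltQ M a b := by
  unfold ltQ; rw [leQ_mul_left]

theorem ltQ_irrefl {a : G} : ¬ ltQ M a a := fun h => h (leQ_refl hM.toIsCvx a)

theorem not_mem_of_ltQ {a : G} (h : ltQ M 1 a) : a ∉ M := by
  intro h2
  apply h
  apply leQ_of_mem' hM.toIsCvx
  rwa [inv_one, one_mul]

theorem ltQ_or {a : G} (h : a ∉ M) : ltQ M 1 a ∨ ltQ M a 1 := by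
  by_contra hcon
  push Not at hcon
  obtain ⟨h1, h2⟩ := hcon
  unfold ltQ at h1 h2
  push Not at h1 h2
  exact h (mem_of_leQ hM.toIsCvx h1 h2)

end ltQ

section points

variable {M : Subgroup G}

theorem leQ_sup (hM : IsCvx M) {a b t : G} (h : leQ M a t) (h' : leQ M b t) : leQ M (a ⊔ b) t := by
  unfold leQ at *
  have e : t⁻¹ * (a ⊔ b) ⊔ 1 = (t⁻¹ * a ⊔ 1) ⊔ (t⁻¹ * b ⊔ 1) := by
    rw [mul_sup, sup_sup_sup_comm, sup_idem]
  rw [e]; exact hM.sup_mem h h'

theorem leQ_inf (hM : IsPrm M) {a b t : G} (h : leQ M t a) (h' : leQ M t b) : leQ M t (a ⊓ b) := by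
  rcases leQ_total hM a b with h1 | h1
  · refine leQ_trans hM.toIsCvx h (leQ_of_mem hM.toIsCvx (inf_mem_of_leQ h1))
  · refine leQ_trans hM.toIsCvx h' (leQ_of_mem hM.toIsCvx ?_)
    rw [inf_comm]; exact inf_mem_of_leQ h1

theorem leQ_mem_left (hM : IsCvx M) {m a : G} (hm : m ∈ M) : leQ M (a * m) a := by
  apply leQ_of_mem' hM
  rw [inv_mul_cancel_left]; exact hm

theorem leQ_mem_right (hM : IsCvx M) {m a : G} (hm : m ∈ M) : leQ M a (a * m) := by
  apply leQ_of_mem hM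
  rw [inv_mul_cancel_left]; exact hm

theorem leQ_one_inv (a : G) : leQ M 1 a ↔ leQ M a⁻¹ 1 := by
  have := leQ_mul_left (Q := M) a⁻¹ 1 a
  rw [mul_one, inv_mul_cancel] at this
  exact this.symm

theorem leQ_inv_one (a : G) : leQ M a 1 ↔ leQ M 1 a⁻¹ := by
  have := leQ_mul_left (Q := M) a⁻¹ a 1
  rw [mul_one, inv_mul_cancel] at this
  exact this.symm

end points

/-- A prime with a cover in which it is not normal. -/
structure Prim (M N : Subgroup G) : Prop where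
  prm : IsPrm M
  cvxN : IsCvx N
  le : M ≤ N
  max : ∀ C : Subgroup G, IsCvx C → M ≤ C → ¬ C ≤ M → N ≤ C
  nn : ∃ x ∈ N, ∃ m ∈ M, x * m * x⁻¹ ∉ M

theorem exists_prim (h : ¬ NV G) : ∃ M N : Subgroup G, Prim M N := by
  obtain ⟨Q, c, hQ, hc, hn⟩ := exists_nonnormal h
  refine ⟨vl Q c, cv Q c, vl_prm hQ hc, cv_cvx, vl_le_cv hQ hc, ?_, ?_⟩
  · intro C hC hMC hn
    have hQC := (le_vl hQ hc).trans hMC
    have hcC : c ∈ C := by
      by_contra hcon
      exact hn (le_vl_of hQ hc hC hQC hcon)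
    exact cv_le_of hC hQC hcC
  · push Not at hn
    exact hn

namespace Prim

variable {M N : Subgroup G} (hP : Prim M N)

include hP

theorem mem_N {y p : G} (hp : p ∈ N) (h1 : leQ M 1 y) (h2 : leQ M y p) : y ∈ N := by
  apply hP.cvxN.mem_of_pos_neg
  · obtain ⟨q, hq, h⟩ := (leQ_iff hP.prm.toIsCvx).mp h2
    exact hP.cvxN.pos_of_le (N.mul_mem hp (hP.le hq)) h
  · have : y⁻¹ * 1 ⊔ 1 ∈ M := h1
    rw [mul_one] at this
    exact hP.le this

/-- powers stay fixed -/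
theorem fixed_pow {p : G} (hp : ltQ M 1 p)
    (hT : ∀ y, leQ M 1 y → leQ M y p → ∀ m ∈ M, leQ M (m * y) y) (k : ℕ) :
    ∀ y, leQ M 1 y → leQ M y (p ^ k) → ∀ m ∈ M, leQ M (m * y) y := by
  have hM := hP.prm
  have hMc := hM.toIsCvx
  have hp1 : leQ M 1 p := hp.le hM
  induction k with
  | zero =>
    intro y h1 h2 m hm
    rw [pow_zero] at h2
    have hy : y ∈ M := mem_of_leQ hMc h2 h1
    apply leQ_of_mem hMc
    exact M.mul_mem (M.inv_mem (M.mul_mem hm hy)) hy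
  | succ k ih =>
    intro y h1 h2 m hm
    by_cases hy : leQ M y (p ^ k)
    · exact ih y h1 hy m hm
    · have hy' : leQ M (p ^ k) y := (leQ_total hM _ _).resolve_right hy
      have h1k : leQ M 1 (p ^ k) := leQ_one_pow hMc hp1 k
      have e1 := ih (p ^ k) h1k (leQ_refl hMc _) m hm
      have e2 := ih (p ^ k) h1k (leQ_refl hMc _) m⁻¹ (M.inv_mem hm)
      -- p^k ≤ m p^k
      have e3 : leQ M (p ^ k) (m * p ^ k) := by
        have := (leQ_mul_left (Q := M) m (m⁻¹ * p ^ k) (p ^ k)).mpr e2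
        rwa [mul_inv_cancel_left] at this
      have hm' : (p ^ k)⁻¹ * (m * p ^ k) ∈ M := leQ_antisymm hMc e3 e1
      set y' := (p ^ k)⁻¹ * y with hy'def
      have f1 : leQ M 1 y' := by
        have := (leQ_mul_left (Q := M) (p ^ k)⁻¹ (p ^ k) y).mpr hy'
        rwa [inv_mul_cancel] at this
      have f2 : leQ M y' p := by
        have := (leQ_mul_left (Q := M) (p ^ k)⁻¹ y (p ^ (k + 1))).mpr h2
        rw [pow_succ, inv_mul_cancel_left] at this
        exact this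
      have f3 := hT y' f1 f2 _ hm'
      have f4 := (leQ_mul_left (Q := M) (p ^ k) _ _).mpr f3
      have e4 : p ^ k * ((p ^ k)⁻¹ * (m * p ^ k) * y') = m * y := by rw [hy'def]; group
      have e5 : p ^ k * y' = y := by rw [hy'def]; group
      rw [e4, e5] at f4
      exact f4

/-- If the stabiliser fixes everything up to `p` then the powers of `p` are cofinal. -/
theorem arch {p : G} (hp : ltQ M 1 p)
    (hT : ∀ y, leQ M 1 y → leQ M y p → ∀ m ∈ M, leQ M (m * y) y) :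
    ∀ g ∈ N, ∃ k : ℕ, leQ M g (p ^ k) := by
  have hM := hP.prm
  have hMc := hM.toIsCvx
  have hp1 : leQ M 1 p := hp.le hM
  have h1k : ∀ k : ℕ, leQ M 1 (p ^ k) := leQ_one_pow hMc hp1
  have hfix := fun k => hP.fixed_pow hp hT k
  have hmul : ∀ (g h : G) (k l : ℕ), leQ M g (p ^ k) → leQ M h (p ^ l) →
      leQ M (g * h) (p ^ (k + l)) := by
    intro g h k l hg hh
    have h1 : leQ M (g * h) (g * p ^ l) := (leQ_mul_left _ _ _).mpr hh
    obtain ⟨m, hm, h2⟩ := (leQ_iff hMc).mp hg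
    have h3 : leQ M (g * p ^ l) (p ^ k * m * p ^ l) := by
      apply leQ_of_le hMc
      gcongr
    have h4 : leQ M (p ^ k * m * p ^ l) (p ^ (k + l)) := by
      rw [mul_assoc, pow_add]
      exact (leQ_mul_left _ _ _).mpr (hfix l (p ^ l) (h1k l) (leQ_refl hMc _) m hm)
    exact leQ_trans hMc h1 (leQ_trans hMc h3 h4)
  have hmono : ∀ (k l : ℕ), leQ M (p ^ k) (p ^ (k + l)) := by
    intro k l
    rw [pow_add]
    have := (leQ_mul_left (Q := M) (p ^ k) 1 (p ^ l)).mpr (h1k l)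
    rwa [mul_one] at this
  let C : Subgroup G :=
    { carrier := {g | ∃ k : ℕ, leQ M g (p ^ k) ∧ leQ M g⁻¹ (p ^ k)}
      mul_mem' := by
        rintro g h ⟨k, hg, hg'⟩ ⟨l, hh, hh'⟩
        refine ⟨k + l, hmul g h k l hg hh, ?_⟩
        rw [mul_inv_rev, add_comm k l]
        exact hmul _ _ l k hh' hg'
      one_mem' := ⟨0, by rw [pow_zero]; exact leQ_refl hMc 1, by
        rw [pow_zero, inv_one]; exact leQ_refl hMc 1⟩
      inv_mem' := by
        rintro g ⟨k, hg, hg'⟩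
        exact ⟨k, hg', by rw [inv_inv]; exact hg⟩ }
  have hC : IsCvx C := by
    constructor
    · rintro g ⟨k, hg, hg'⟩
      refine ⟨k, leQ_sup hMc hg (h1k k), ?_⟩
      refine leQ_trans hMc (leQ_of_le hMc ?_) (h1k k)
      exact inv_le_one'.mpr le_sup_right
    · rintro g ⟨k, hg, hg'⟩ b hb hbg
      refine ⟨k, leQ_trans hMc (leQ_of_le hMc hbg) hg, ?_⟩
      exact leQ_trans hMc (leQ_of_le hMc (inv_le_one'.mpr hb)) (h1k k)
  have hMC : M ≤ C := by
    intro m hm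
    refine ⟨0, ?_, ?_⟩
    · rw [pow_zero]
      apply leQ_of_mem' hMc
      rwa [inv_one, one_mul]
    · rw [pow_zero]
      apply leQ_of_mem' hMc
      rw [inv_one, one_mul]; exact M.inv_mem hm
  have hpC : p ∈ C := by
    refine ⟨1, by rw [pow_one]; exact leQ_refl hMc p, ?_⟩
    rw [pow_one]
    exact leQ_trans hMc ((leQ_one_inv p).mp hp1) hp1
  have hn : ¬ C ≤ M := fun h => not_mem_of_ltQ hM hp (h hpC)
  intro g hg
  obtain ⟨k, hk, _⟩ := hP.max C hC hMC hn hg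
  exact ⟨k, hk⟩

/-- moved points accumulate at the base point -/
theorem moved {p : G} (hp : ltQ M 1 p) :
    ∃ y, ltQ M 1 y ∧ leQ M y p ∧ ∃ m ∈ M, ltQ M y (m * y) := by
  have hM := hP.prm
  have hMc := hM.toIsCvx
  by_contra hcon
  push Not at hcon
  have hT : ∀ y, leQ M 1 y → leQ M y p → ∀ m ∈ M, leQ M (m * y) y := by
    intro y h1 h2 m hm
    by_cases hy : leQ M y 1
    · have hyM : y ∈ M := mem_of_leQ hMc hy h1
      apply leQ_of_mem hMc
      exact M.mul_mem (M.inv_mem (M.mul_mem hm hyM)) hyM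
    · have := hcon y hy h2 m hm
      unfold ltQ at this
      exact not_not.mp this
  have hstar : ∀ g ∈ N, leQ M 1 g → ∀ m ∈ M, leQ M (m * g) g := by
    intro g hg h1 m hm
    obtain ⟨k, hk⟩ := hP.arch hp hT g hg
    exact hP.fixed_pow hp hT k g h1 hk m hm
  have hstar' : ∀ g ∈ N, leQ M 1 g → ∀ m ∈ M, g⁻¹ * m * g ∈ M := by
    intro g hg h1 m hm
    have a1 := hstar g hg h1 m hm
    have a2 := hstar g hg h1 m⁻¹ (M.inv_mem hm)
    have a3 : leQ M g (m * g) := by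
      have := (leQ_mul_left (Q := M) m (m⁻¹ * g) g).mpr a2
      rwa [mul_inv_cancel_left] at this
    have := leQ_antisymm hMc a3 a1
    rwa [← mul_assoc] at this
  obtain ⟨x, hx, m, hm, hxm⟩ := hP.nn
  have hx1 : ¬ leQ M 1 x⁻¹ := by
    intro h
    apply hxm
    have := hstar' x⁻¹ (N.inv_mem hx) h m hm
    rwa [inv_inv] at this
  have hx2 : ltQ M 1 x := by
    have h : leQ M x⁻¹ 1 := (leQ_total hM _ _).resolve_right hx1
    intro h2
    apply hx1
    exact (leQ_inv_one x).mp h2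
  -- positive element
  obtain ⟨m', hm', hm'1, hxm'⟩ : ∃ m' ∈ M, 1 ≤ m' ∧ x * m' * x⁻¹ ∉ M := by
    by_contra hcon2
    push Not at hcon2
    apply hxm
    have e : x * m * x⁻¹ = (x * (m ⊔ 1) * x⁻¹) * (x * (m⁻¹ ⊔ 1) * x⁻¹)⁻¹ := by
      conv_lhs => rw [← pos_mul_neg m]
      group
    rw [e]
    exact M.mul_mem (hcon2 _ (hMc.sup_one _ hm) le_sup_right)
      (M.inv_mem (hcon2 _ (hMc.neg_mem hm) le_sup_right))
  set z := x * m' * x⁻¹ with hz
  have hz1 : 1 ≤ z := by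
    have : x * 1 * x⁻¹ ≤ x * m' * x⁻¹ := by gcongr
    rwa [mul_one, mul_inv_cancel] at this
  have hzN : z ∈ N := N.mul_mem (N.mul_mem hx (hP.le hm')) (N.inv_mem hx)
  have hzlt : ltQ M 1 z := by
    rcases ltQ_or hM hxm' with h | h
    · exact h
    · exact absurd (leQ_of_le hMc hz1) h
  have hT' : ∀ y, leQ M 1 y → leQ M y z → ∀ m ∈ M, leQ M (m * y) y := by
    intro y h1 h2 m hm
    exact hstar y (hP.mem_N hzN h1 h2) h1 m hm
  obtain ⟨k, hk⟩ := hP.arch hzlt hT' x hx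
  -- z^k x ≡ x
  have h3 : leQ M (z ^ k * x) x := by
    have e : z ^ k * x = x * m' ^ k := by
      rw [hz, conj_pow]; group
    rw [e]
    exact leQ_mem_left hMc (M.pow_mem hm' k)
  have h4 : ltQ M (z ^ k * 1) (z ^ k * x) := (ltQ_mul_left _ _ _).mpr hx2
  rw [mul_one] at h4
  exact h4 (leQ_trans hMc h3 hk)

/-- A locally transitive point. -/
theorem exists_adj : ∃ v, ltQ M 1 v ∧ ∀ p, ltQ M 1 p → ∃ m ∈ M, ltQ M (m * v) p := by
  have hM := hP.prm
  have hMc := hM.toIsCvx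
  -- a base point
  obtain ⟨p, hpN, hp⟩ : ∃ p ∈ N, ltQ M 1 p := by
    obtain ⟨x, hx, m, hm, hxm⟩ := hP.nn
    have hxM : x ∉ M := fun h => hxm (M.mul_mem (M.mul_mem h hm) (M.inv_mem h))
    rcases ltQ_or hM hxM with h | h
    · exact ⟨x, hx, h⟩
    · refine ⟨x⁻¹, N.inv_mem hx, ?_⟩
      intro h2
      apply h
      have := (leQ_inv_one x⁻¹).mp h2
      rwa [inv_inv] at this
  obtain ⟨y₀, hy1, hy2, m₀, hm₀, hmv⟩ := hP.moved hp
  have hy₀N : y₀ ∈ N := hP.mem_N hpN (hy1.le hM) hy2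
  let Δ : Set G := {d | (∃ s ∈ M, leQ M (s * y₀) d) ∧ ∃ s ∈ M, leQ M d (s * y₀)}
  have hy₀Δ : y₀ ∈ Δ := ⟨⟨1, M.one_mem, by rw [one_mul]; exact leQ_refl hMc _⟩,
    ⟨1, M.one_mem, by rw [one_mul]; exact leQ_refl hMc _⟩⟩
  have hΔM : ∀ d ∈ Δ, ∀ m ∈ M, m * d ∈ Δ := by
    rintro d ⟨⟨s, hs, h1⟩, ⟨s', hs', h2⟩⟩ m hm
    refine ⟨⟨m * s, M.mul_mem hm hs, ?_⟩, ⟨m * s', M.mul_mem hm hs', ?_⟩⟩
    · rw [mul_assoc]; exact (leQ_mul_left _ _ _).mpr h1
    · rw [mul_assoc]; exact (leQ_mul_left _ _ _).mpr h2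
  have hΔr : ∀ d ∈ Δ, ∀ m ∈ M, d * m ∈ Δ := by
    rintro d ⟨⟨s, hs, h1⟩, ⟨s', hs', h2⟩⟩ m hm
    exact ⟨⟨s, hs, leQ_trans hMc h1 (leQ_mem_right hMc hm)⟩,
      ⟨s', hs', leQ_trans hMc (leQ_mem_left hMc hm) h2⟩⟩
  have hΔpos : ∀ d ∈ Δ, ltQ M 1 d := by
    rintro d ⟨⟨s, hs, h1⟩, _⟩
    have h2 : ltQ M (s * 1) (s * y₀) := (ltQ_mul_left _ _ _).mpr hy1
    rw [mul_one] at h2
    have h3 : leQ M 1 s := by
      have := leQ_mem_right hMc (a := 1) hs
      rwa [one_mul] at this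
    exact (leQ.trans_lt hM h3 h2).trans_le hM h1
  -- transitivity
  have htr : ∀ d ∈ Δ, ∃ m ∈ M, leQ M (m * y₀) d ∧ leQ M d (m * y₀) := by
    rintro d ⟨⟨s, hs, h1⟩, ⟨s', hs', h2⟩⟩
    refine ⟨((d * y₀⁻¹) ⊔ s) ⊓ s', ?_, ?_, ?_⟩
    · refine hMc.between (hMc.inf_mem hs hs') hs' ?_ inf_le_right
      exact inf_le_inf_right _ le_sup_right
    · rw [inf_mul, sup_mul, inv_mul_cancel_right]
      refine leQ_trans hMc (leQ_of_le hMc inf_le_left) ?_
      exact leQ_sup hMc (leQ_refl hMc d) h1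
    · rw [inf_mul, sup_mul, inv_mul_cancel_right]
      exact leQ_inf hM (leQ_of_le hMc le_sup_left) h2
  -- the lower translate
  have hlow : ∀ p, leQ M 1 p → ∀ d ∈ Δ, ∃ d' ∈ Δ, leQ M d' (p * d) := by
    intro p hp d hd
    refine ⟨(1 ⊓ p) * d, hΔM d hd _ ?_, ?_⟩
    · have := inf_mem_of_leQ hp
      rwa [inv_one, one_mul] at this
    · apply leQ_of_le hMc
      gcongr
      exact inf_le_right
  -- (i)
  obtain ⟨v, hv, d₀, hd₀, hvd⟩ : ∃ v, ltQ M 1 v ∧ ∃ d ∈ Δ, leQ M (v * d) y₀ := by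
    by_contra hcon
    push Not at hcon
    have hMC : M ≤ cj y₀⁻¹ M := by
      intro m hm
      rw [mem_cj, inv_inv]
      by_contra hv
      rcases ltQ_or hM hv with h | h
      · apply hcon _ h y₀ hy₀Δ
        have e : y₀ * m * y₀⁻¹ * y₀ = y₀ * m := by group
        rw [e]; exact leQ_mem_left hMc hm
      · have h' : ltQ M 1 (y₀ * m * y₀⁻¹)⁻¹ := by
          intro h2
          apply h
          exact (leQ_one_inv _).mpr h2
        apply hcon _ h' (y₀ * m) (hΔr _ hy₀Δ m hm)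
        have e : (y₀ * m * y₀⁻¹)⁻¹ * (y₀ * m) = y₀ := by group
        rw [e]; exact leQ_refl hMc _
    have hn : ¬ cj y₀⁻¹ M ≤ M := by
      intro h
      have h1 : y₀⁻¹ * m₀ * y₀ ∈ cj y₀⁻¹ M := by
        rw [mem_cj]
        have e : y₀⁻¹⁻¹ * (y₀⁻¹ * m₀ * y₀) * y₀⁻¹ = m₀ := by group
        rw [e]; exact hm₀
      have h2 := h h1
      apply hmv
      apply leQ_of_mem' hMc
      rw [← mul_assoc]; exact h2
    have h1 := hP.max _ (cj_cvx hMc) hMC hn hy₀N
    rw [mem_cj] at h1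
    have e : y₀⁻¹⁻¹ * y₀ * y₀⁻¹ = y₀ := by group
    rw [e] at h1
    exact not_mem_of_ltQ hM hy1 h1
  -- (ii)
  have hii : ∀ p, ltQ M 1 p → ∃ y' ∈ Δ, ∀ d ∈ Δ, ltQ M y' (p * d) := by
    let C : Subgroup G :=
      { carrier := {g | (∀ d ∈ Δ, ∃ d' ∈ Δ, leQ M (g * d') d) ∧ ∀ d ∈ Δ, ∃ d' ∈ Δ, leQ M d' (g * d)}
        mul_mem' := by
          rintro g h ⟨g1, g2⟩ ⟨h1, h2⟩
          constructor
          · intro d hd
            obtain ⟨d', hd', e1⟩ := g1 d hd
            obtain ⟨d'', hd'', e2⟩ := h1 d' hd'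
            refine ⟨d'', hd'', ?_⟩
            rw [mul_assoc]
            exact leQ_trans hMc ((leQ_mul_left _ _ _).mpr e2) e1
          · intro d hd
            obtain ⟨d', hd', e1⟩ := h2 d hd
            obtain ⟨d'', hd'', e2⟩ := g2 d' hd'
            refine ⟨d'', hd'', ?_⟩
            rw [mul_assoc]
            exact leQ_trans hMc e2 ((leQ_mul_left _ _ _).mpr e1)
        one_mem' := by
          constructor
          · intro d hd; exact ⟨d, hd, by rw [one_mul]; exact leQ_refl hMc d⟩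
          · intro d hd; exact ⟨d, hd, by rw [one_mul]; exact leQ_refl hMc d⟩
        inv_mem' := by
          rintro g ⟨g1, g2⟩
          constructor
          · intro d hd
            obtain ⟨d', hd', e1⟩ := g2 d hd
            refine ⟨d', hd', ?_⟩
            have := (leQ_mul_left (Q := M) g⁻¹ d' (g * d)).mpr e1
            rwa [inv_mul_cancel_left] at this
          · intro d hd
            obtain ⟨d', hd', e1⟩ := g1 d hd
            refine ⟨d', hd', ?_⟩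
            have := (leQ_mul_left (Q := M) g⁻¹ (g * d') d).mpr e1
            rwa [inv_mul_cancel_left] at this }
    have hC : IsCvx C := by
      constructor
      · rintro g ⟨g1, g2⟩
        constructor
        · intro d hd
          obtain ⟨d', hd', e1⟩ := g1 d hd
          rcases leQ_total hM d' d with h | h
          · refine ⟨d', hd', ?_⟩
            rw [sup_mul, one_mul]
            exact leQ_sup hMc e1 h
          · refine ⟨d, hd, ?_⟩
            rw [sup_mul, one_mul]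
            exact leQ_sup hMc (leQ_trans hMc ((leQ_mul_left _ _ _).mpr h) e1) (leQ_refl hMc d)
        · intro d hd
          refine ⟨d, hd, leQ_of_le hMc ?_⟩
          rw [sup_mul, one_mul]; exact le_sup_right
      · rintro a ⟨a1, a2⟩ b hb hba
        constructor
        · intro d hd
          obtain ⟨d', hd', e1⟩ := a1 d hd
          refine ⟨d', hd', leQ_trans hMc (leQ_of_le hMc ?_) e1⟩
          gcongr
        · intro d hd
          refine ⟨d, hd, leQ_of_le hMc ?_⟩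
          exact le_mul_of_one_le_left' hb
    have hMC : M ≤ C := by
      intro m hm
      constructor
      · intro d hd
        exact ⟨m⁻¹ * d, hΔM d hd _ (M.inv_mem hm), by
          rw [mul_inv_cancel_left]; exact leQ_refl hMc d⟩
      · intro d hd
        exact ⟨m * d, hΔM d hd _ hm, leQ_refl hMc _⟩
    have hy₀C : y₀ ∉ C := by
      rintro ⟨c1, _⟩
      obtain ⟨d', hd', e1⟩ := c1 (m₀⁻¹ * y₀) (hΔM _ hy₀Δ _ (M.inv_mem hm₀))
      have h1 : ltQ M (m₀⁻¹ * y₀) y₀ := by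
        have := (ltQ_mul_left (M := M) m₀⁻¹ y₀ (m₀ * y₀)).mpr hmv
        rwa [inv_mul_cancel_left] at this
      have h2 : ltQ M (y₀ * d') (y₀ * 1) := by
        rw [mul_one]; exact leQ.trans_lt hM e1 h1
      rw [ltQ_mul_left] at h2
      exact ltQ_irrefl hM (h2.trans hM (hΔpos d' hd'))
    have hCM : C ≤ M := by
      by_contra hn
      exact hy₀C (hP.max C hC hMC hn hy₀N)
    intro p hp
    have hpC : p ∉ C := fun h => not_mem_of_ltQ hM hp (hCM h)
    by_contra hcon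
    push Not at hcon
    apply hpC
    constructor
    · intro d hd
      obtain ⟨d', hd', e⟩ := hcon d hd
      exact ⟨d', hd', not_not.mp e⟩
    · exact hlow p (hp.le hM)
  refine ⟨v, hv, ?_⟩
  intro p hp
  obtain ⟨y', hy', hy'd⟩ := hii p hp
  obtain ⟨m, hm, e1, e2⟩ := htr y' hy'
  refine ⟨m, hm, ?_⟩
  intro hle
  have hw : leQ M 1 (p⁻¹ * (m * v)) := by
    have := (leQ_mul_left (Q := M) p⁻¹ p (m * v)).mpr hle
    rwa [inv_mul_cancel] at this
  obtain ⟨d', hd', e3⟩ := hlow _ hw d₀ hd₀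
  have e4 : leQ M (p * d') (m * (v * d₀)) := by
    have := (leQ_mul_left (Q := M) p _ _).mpr e3
    have e : p * (p⁻¹ * (m * v) * d₀) = m * (v * d₀) := by group
    rwa [e] at this
  have e5 : leQ M (m * (v * d₀)) (m * y₀) := (leQ_mul_left _ _ _).mpr hvd
  exact hy'd d' hd' (leQ_trans hMc e4 (leQ_trans hMc e5 e1))

end Prim

end Pool.Agent.Helper6.ZA
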