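import Pool.Agent.Helper6.ZA.Hol1
import Pool.Agent.Helper6.ZA.Terms

/-!
m-groups that are not normal-valued: realising finite configurations, independently for an
element and its star.
-/

set_option autoImplicit false
set_option linter.unusedSectionVars false

namespace Pool.Agent.Helper6.ZA

universe u

section lgroup

variable {G : Type u} [Group G] [Lattice G] [MulLeftMono G] [MulRightMono G]

/-- A prime with a locally transitive point. -/
def Adj (M : Subgroup G) : Prop :=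
  IsPrm M ∧ ∃ v, ltQ M 1 v ∧ ∀ p, ltQ M 1 p → ∃ m ∈ M, ltQ M (m * v) p

theorem exists_Adj (h : ¬ NV G) : ∃ M : Subgroup G, Adj M := by
  obtain ⟨M, N, hP⟩ := exists_prim h
  exact ⟨M, hP.prm, hP.exists_adj⟩

theorem ltQ_cj {g a b : G} {M : Subgroup G} :
    ltQ (cj g M) a b ↔ ltQ M (g⁻¹ * a * g) (g⁻¹ * b * g) := by
  unfold ltQ; rw [leQ_cj]

theorem Adj.conj {M : Subgroup G} (h : Adj M) (g : G) : Adj (cj g M) := by
  obtain ⟨hM, v, hv, hadj⟩ := h
  refine ⟨cj_prm hM, g * v * g⁻¹, ?_, ?_⟩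
  · rw [ltQ_cj]
    have e1 : g⁻¹ * 1 * g = 1 := by group
    have e2 : g⁻¹ * (g * v * g⁻¹) * g = v := by group
    rw [e1, e2]; exact hv
  · intro p hp
    rw [ltQ_cj] at hp
    have e1 : g⁻¹ * 1 * g = 1 := by group
    rw [e1] at hp
    obtain ⟨m, hm, h⟩ := hadj _ hp
    refine ⟨g * m * g⁻¹, conj_mem_cj.mpr hm, ?_⟩
    rw [ltQ_cj]
    have e2 : g⁻¹ * (g * m * g⁻¹ * (g * v * g⁻¹)) * g = m * v := by group
    rw [e2]; exact h

/-- equality of left cosets -/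
def eqQ (M : Subgroup G) (a b : G) : Prop := leQ M a b ∧ leQ M b a

theorem eqQ.symm {M : Subgroup G} {a b : G} (h : eqQ M a b) : eqQ M b a := ⟨h.2, h.1⟩

theorem eqQ.trans {M : Subgroup G} (hM : IsCvx M) {a b c : G} (h : eqQ M a b) (h' : eqQ M b c) :
    eqQ M a c := ⟨leQ_trans hM h.1 h'.1, leQ_trans hM h'.2 h.2⟩

theorem eqQ_mul_left {M : Subgroup G} (g a b : G) : eqQ M (g * a) (g * b) ↔ eqQ M a b := by
  unfold eqQ; rw [leQ_mul_left, leQ_mul_left]

theorem eqQ_refl {M : Subgroup G} (hM : IsCvx M) (a : G) : eqQ M a a :=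
  ⟨leQ_refl hM a, leQ_refl hM a⟩

theorem eqQ_mem {M : Subgroup G} (hM : IsCvx M) {m a : G} (hm : m ∈ M) : eqQ M (a * m) a :=
  ⟨leQ_mem_left hM hm, leQ_mem_right hM hm⟩

theorem ltQ_inf {M : Subgroup G} (hM : IsPrm M) {a b t : G} (h : ltQ M t a) (h' : ltQ M t b) :
    ltQ M t (a ⊓ b) := by
  rcases leQ_total hM a b with h1 | h1
  · exact h.trans_le hM (leQ_of_mem hM.toIsCvx (inf_mem_of_leQ h1))
  · refine h'.trans_le hM (leQ_of_mem hM.toIsCvx ?_)
    rw [inf_comm]; exact inf_mem_of_leQ h1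

/-- transitivity of the stabiliser on the points up to `v` -/
theorem adj_trans {M : Subgroup G} (hM : IsPrm M) {v : G}
    (hadj : ∀ p, ltQ M 1 p → ∃ m ∈ M, ltQ M (m * v) p) {p : G} (hp : ltQ M 1 p)
    (hp' : ∃ m ∈ M, leQ M p (m * v)) : ∃ m ∈ M, eqQ M (m * v) p := by
  have hMc := hM.toIsCvx
  obtain ⟨s, hs, h1⟩ := hadj p hp
  obtain ⟨s', hs', h2⟩ := hp'
  refine ⟨((p * v⁻¹) ⊔ s) ⊓ s', ?_, ?_, ?_⟩
  · refine hMc.between (hMc.inf_mem hs hs') hs' ?_ inf_le_right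
    exact inf_le_inf_right _ le_sup_right
  · rw [inf_mul, sup_mul, inv_mul_cancel_right]
    refine leQ_trans hMc (leQ_of_le hMc inf_le_left) ?_
    exact leQ_sup hMc (leQ_refl hMc p) (h1.le hM)
  · rw [inf_mul, sup_mul, inv_mul_cancel_right]
    exact leQ_inf hM (leQ_of_le hMc le_sup_left) h2

/-- differences of points up to `v` are again such points -/
theorem adj_diff {M : Subgroup G} (hM : IsPrm M) {v a b : G} (ha : leQ M 1 a) (hab : ltQ M a b)
    (hb : ∃ m ∈ M, leQ M b (m * v)) :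
    ltQ M 1 (a⁻¹ * b) ∧ ∃ m ∈ M, leQ M (a⁻¹ * b) (m * v) := by
  have hMc := hM.toIsCvx
  constructor
  · have := (ltQ_mul_left (M := M) a⁻¹ a b).mpr hab
    rwa [inv_mul_cancel] at this
  · obtain ⟨m, hm, h⟩ := hb
    have hm1 : a⁻¹ * (a ⊔ 1) ∈ M := by
      have : a⁻¹ * 1 ⊔ 1 ∈ M := ha
      rw [mul_sup, inv_mul_cancel, sup_comm]; exact this
    refine ⟨a⁻¹ * (a ⊔ 1) * m, M.mul_mem hm1 hm, ?_⟩
    have h1 : a⁻¹ * b ≤ a⁻¹ * (a ⊔ 1) * b := by
      rw [mul_assoc]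
      gcongr
      exact le_mul_of_one_le_left' le_sup_right
    refine leQ_trans hMc (leQ_of_le hMc h1) ?_
    rw [mul_assoc (a⁻¹ * (a ⊔ 1))]
    exact (leQ_mul_left _ _ _).mpr h

end lgroup


section cfg

variable (G : Type) [Group G] [Lattice G]

/-- The data used to realise finite configurations. -/
structure Cfg where
  M : Subgroup G
  prm : IsPrm M
  q : ℕ → G
  dec : ∀ j, ltQ M (q (j + 1)) (q j)
  real : ∀ S : Finset (ℕ × ℕ), (∀ x ∈ S, ∀ y ∈ S, x.1 < y.1 ↔ x.2 < y.2) →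
    ∃ g : G, ∀ x ∈ S, eqQ M (g * q x.1) (q x.2)

variable {G} [MulLeftMono G] [MulRightMono G]

theorem exists_cfg (hnv : ¬ NV G) : Nonempty (Cfg G) := by
  classical
  obtain ⟨M, hA⟩ := exists_Adj hnv
  have hM := hA.1
  have hMc := hM.toIsCvx
  obtain ⟨v, hv, hadj⟩ := hA.2
  -- the points
  obtain ⟨m₁, hm₁, hu⟩ := hadj v hv
  have hupos : ltQ M 1 (m₁ * v) := by
    have h1 : ltQ M (m₁ * 1) (m₁ * v) := (ltQ_mul_left _ _ _).mpr hv
    rw [mul_one] at h1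
    refine leQ.trans_lt hM ?_ h1
    have := leQ_mem_right hMc (a := 1) hm₁
    rwa [one_mul] at this
  obtain ⟨m₂, hm₂, hlt⟩ := hadj _ hupos
  set t := m₂ * m₁⁻¹ with ht
  have htM : t ∈ M := M.mul_mem hm₂ (M.inv_mem hm₁)
  let q : ℕ → G := fun j => t ^ j * (m₁ * v)
  have hq : ∀ j, q j = t ^ j * (m₁ * v) := fun j => rfl
  have hdec : ∀ j, ltQ M (q (j + 1)) (q j) := by
    intro j
    rw [hq, hq, pow_succ, mul_assoc, ltQ_mul_left]
    have e : t * (m₁ * v) = m₂ * v := by rw [ht]; group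
    rw [e]; exact hlt
  have hdec' : ∀ i j, i < j → ltQ M (q j) (q i) := by
    intro i j hij
    induction j with
    | zero => omega
    | succ j ih =>
      rcases Nat.lt_succ_iff_lt_or_eq.mp hij with h | h
      · exact (hdec j).trans hM (ih h)
      · rw [h]; exact hdec j
  have hqpos : ∀ j, ltQ M 1 (q j) := by
    intro j
    have h1 : ltQ M (t ^ j * 1) (t ^ j * (m₁ * v)) := (ltQ_mul_left _ _ _).mpr hupos
    rw [mul_one] at h1
    refine leQ.trans_lt hM ?_ h1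
    have := leQ_mem_right hMc (a := 1) (M.pow_mem htM j)
    rwa [one_mul] at this
  have hqΔ : ∀ j, ∃ m ∈ M, leQ M (q j) (m * v) := by
    intro j
    refine ⟨t ^ j * m₁, M.mul_mem (M.pow_mem htM j) hm₁, ?_⟩
    rw [hq, mul_assoc]; exact leQ_refl hMc _
  -- pair maps
  have hpair : ∀ x y : ℕ × ℕ, (x.1 < y.1 ↔ x.2 < y.2) → (y.1 < x.1 ↔ y.2 < x.2) →
      ∃ g : G, eqQ M (g * q x.1) (q x.2) ∧ eqQ M (g * q y.1) (q y.2) := by
    have key : ∀ x y : ℕ × ℕ, x.1 < y.1 → x.2 < y.2 →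
      ∃ g : G, eqQ M (g * q x.1) (q x.2) ∧ eqQ M (g * q y.1) (q y.2) := by
      intro x y h1 h2
      have a1 := hdec' _ _ h1
      have a2 := hdec' _ _ h2
      obtain ⟨b1, b2⟩ := adj_diff hM ((hqpos y.1).le hM) a1 (hqΔ x.1)
      obtain ⟨b3, b4⟩ := adj_diff hM ((hqpos y.2).le hM) a2 (hqΔ x.2)
      obtain ⟨n₁, hn₁, hn₁e⟩ := adj_trans hM hadj b1 b2
      obtain ⟨n₂, hn₂, hn₂e⟩ := adj_trans hM hadj b3 b4
      refine ⟨q y.2 * n₂ * n₁⁻¹ * (q y.1)⁻¹, ?_, ?_⟩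
      · -- g q(x.1) = q(y.2) n₂ n₁⁻¹ (q(y.1)⁻¹ q(x.1))
        have c1 : eqQ M (q y.2 * n₂ * n₁⁻¹ * ((q y.1)⁻¹ * q x.1)) (q y.2 * n₂ * n₁⁻¹ * (n₁ * v)) :=
          (eqQ_mul_left _ _ _).mpr hn₁e.symm
        have c2 : eqQ M (q y.2 * (n₂ * v)) (q y.2 * ((q y.2)⁻¹ * q x.2)) :=
          (eqQ_mul_left _ _ _).mpr hn₂e
        rw [mul_inv_cancel_left] at c2
        have e1 : q y.2 * n₂ * n₁⁻¹ * (n₁ * v) = q y.2 * (n₂ * v) := by group
        rw [e1] at c1
        have e2 : q y.2 * n₂ * n₁⁻¹ * ((q y.1)⁻¹ * q x.1) =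
          q y.2 * n₂ * n₁⁻¹ * (q y.1)⁻¹ * q x.1 := by group
        rw [e2] at c1
        exact c1.trans hMc c2
      · have e1 : q y.2 * n₂ * n₁⁻¹ * (q y.1)⁻¹ * q y.1 = q y.2 * (n₂ * n₁⁻¹) := by group
        rw [e1]
        exact eqQ_mem hMc (M.mul_mem hn₂ (M.inv_mem hn₁))
    intro x y h1 h2
    rcases lt_trichotomy x.1 y.1 with h | h | h
    · exact key x y h (h1.mp h)
    · have h3 : x.2 = y.2 := by
        rcases lt_trichotomy x.2 y.2 with h4 | h4 | h4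
        · exact absurd (h1.mpr h4) (by omega)
        · exact h4
        · exact absurd (h2.mpr h4) (by omega)
      refine ⟨q x.2 * (q x.1)⁻¹, ?_, ?_⟩
      · rw [inv_mul_cancel_right]; exact eqQ_refl hMc _
      · rw [← h, ← h3, inv_mul_cancel_right]; exact eqQ_refl hMc _
    · obtain ⟨g, g1, g2⟩ := key y x h (h2.mp h)
      exact ⟨g, g2, g1⟩
  -- finite maps
  have hfin : ∀ S : Finset (ℕ × ℕ), (∀ x ∈ S, ∀ y ∈ S, x.1 < y.1 ↔ x.2 < y.2) →
      ∃ g : G, ∀ x ∈ S, eqQ M (g * q x.1) (q x.2) := by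
    intro S hS
    rcases S.eq_empty_or_nonempty with hSe | hSn
    · exact ⟨1, fun x hx => by rw [hSe] at hx; exact absurd hx (by simp)⟩
    have hex : ∀ x y : ℕ × ℕ, ∃ g : G, x ∈ S → y ∈ S →
        eqQ M (g * q x.1) (q x.2) ∧ eqQ M (g * q y.1) (q y.2) := by
      intro x y
      by_cases h : x ∈ S ∧ y ∈ S
      · obtain ⟨g, hg⟩ := hpair x y (hS x h.1 y h.2) (hS y h.2 x h.1)
        exact ⟨g, fun _ _ => hg⟩
      · exact ⟨1, fun h1 h2 => absurd ⟨h1, h2⟩ h⟩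
    choose F hF using hex
    refine ⟨S.sup' hSn (fun x => S.inf' hSn (fun y => F x y)), ?_⟩
    intro y hy
    constructor
    · refine Finset.sup'_induction hSn _ (p := fun g => leQ M (g * q y.1) (q y.2)) ?_ ?_
      · intro a ha b hb
        rw [sup_mul]; exact leQ_sup hMc ha hb
      · intro x hx
        refine leQ_trans hMc (leQ_of_le hMc ?_) (hF x y hx hy).2.1
        gcongr
        exact Finset.inf'_le _ hy
    · have h1 : leQ M (q y.2) (S.inf' hSn (fun z => F y z) * q y.1) := by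
        refine Finset.inf'_induction hSn _ (p := fun g => leQ M (q y.2) (g * q y.1)) ?_ ?_
        · intro a ha b hb
          rw [inf_mul]; exact leQ_inf hM ha hb
        · intro z hz
          exact (hF y z hy hz).1.2
      refine leQ_trans hMc h1 (leQ_of_le hMc ?_)
      gcongr
      exact Finset.le_sup' (fun x => S.inf' hSn (fun y => F x y)) hy
  exact ⟨⟨M, hM, q, hdec, hfin⟩⟩

end cfg

end Pool.Agent.Helper6.ZA
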