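import Mathlib

/-!
A Hölder type theorem for archimedean total cones in (not necessarily commutative) groups,
and existence of primes.
-/

set_option autoImplicit false
set_option linter.unusedSectionVars false

namespace Pool.Agent.Helper6.ZA

open Filter Topology

section Holder

variable {N : Type*} [Group N]

theorem holder_cone (C : Set N) (hmul : ∀ x ∈ C, ∀ y ∈ C, x * y ∈ C)
    (htot : ∀ x, x ∈ C ∨ x⁻¹ ∈ C) (hconj : ∀ x ∈ C, ∀ g : N, g * x * g⁻¹ ∈ C)
    (harch : ∀ x ∈ C, x⁻¹ ∉ C → ∀ y : N, ∃ n : ℕ, x ^ n * y⁻¹ ∈ C) :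
    ∃ φ : N → ℝ, (∀ x y, φ (x * y) = φ x + φ y) ∧ ∀ x, 0 ≤ φ x ↔ x ∈ C := by
  classical
  by_cases htriv : ∀ x ∈ C, x⁻¹ ∈ C
  · refine ⟨fun _ => 0, by simp, fun x => ⟨fun _ => ?_, fun _ => le_rfl⟩⟩
    rcases htot x with h | h
    · exact h
    · simpa using htriv _ h
  push Not at htriv
  obtain ⟨u, hu, hu'⟩ := htriv
  have hone : (1 : N) ∈ C := by
    rcases htot 1 with h | h
    · exact h
    · simpa using h
  -- the preorder
  let le : N → N → Prop := fun x y => y * x⁻¹ ∈ C
  have le_refl : ∀ x, le x x := fun x => by simpa [le] using hone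
  have le_trans : ∀ {x y z}, le x y → le y z → le x z := by
    intro x y z h1 h2
    have := hmul _ h2 _ h1
    have e : z * y⁻¹ * (y * x⁻¹) = z * x⁻¹ := by group
    rwa [e] at this
  have le_total : ∀ x y, le x y ∨ le y x := by
    intro x y
    rcases htot (y * x⁻¹) with h | h
    · exact Or.inl h
    · right
      have e : (y * x⁻¹)⁻¹ = x * y⁻¹ := by group
      rwa [e] at h
  have mul_r : ∀ {x y} (z : N), le x y → le (x * z) (y * z) := by
    intro x y z h
    change y * z * (x * z)⁻¹ ∈ C
    have e : y * z * (x * z)⁻¹ = y * x⁻¹ := by group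
    rw [e]; exact h
  have mul_l : ∀ {x y} (z : N), le x y → le (z * x) (z * y) := by
    intro x y z h
    change z * y * (z * x)⁻¹ ∈ C
    have e : z * y * (z * x)⁻¹ = z * (y * x⁻¹) * z⁻¹ := by group
    rw [e]; exact hconj _ h _
  have mul_lr : ∀ {x y z w}, le x y → le z w → le (x * z) (y * w) :=
    fun h1 h2 => le_trans (mul_r _ h1) (mul_l _ h2)
  have upos : le 1 u := by simpa [le] using hu
  have unot : ¬ le u 1 := by simpa [le] using hu'
  -- powers of u
  have upow : ∀ n : ℕ, le 1 (u ^ n) := by
    intro n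
    induction n with
    | zero => simpa using le_refl 1
    | succ n ih =>
      have := mul_lr ih upos
      rwa [mul_one, ← pow_succ] at this
  have uz : ∀ k : ℤ, 0 ≤ k → le 1 (u ^ k) := by
    intro k hk
    obtain ⟨n, rfl⟩ := Int.eq_ofNat_of_zero_le hk
    simpa using upow n
  have umono : ∀ {j k : ℤ}, j ≤ k → le (u ^ j) (u ^ k) := by
    intro j k h
    have := mul_r (u ^ j) (uz (k - j) (by omega))
    rwa [one_mul, ← zpow_add, sub_add_cancel] at this
  have ustrict : ∀ {j k : ℤ}, le (u ^ j) (u ^ k) → j ≤ k := by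
    intro j k h
    by_contra hcon
    push Not at hcon
    apply unot
    have h1 : le (u ^ (k + 1)) (u ^ k) := le_trans (umono (by omega)) h
    have h2 := mul_r (u ^ (-k)) h1
    rw [← zpow_add, ← zpow_add] at h2
    simpa using h2
  -- floor
  have hex : ∀ x : N, ∃ k : ℤ, le (u ^ k) x ∧ ∀ j : ℤ, le (u ^ j) x → j ≤ k := by
    intro x
    have hb : ∃ b : ℤ, ∀ z : ℤ, le (u ^ z) x → z ≤ b := by
      obtain ⟨n, hn⟩ := harch u hu hu' x
      refine ⟨n, fun z hz => ustrict ?_⟩
      have : le x (u ^ (n : ℤ)) := by simpa [le] using hn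
      exact le_trans hz this
    have he : ∃ z : ℤ, le (u ^ z) x := by
      obtain ⟨n, hn⟩ := harch u hu hu' x⁻¹
      refine ⟨-n, ?_⟩
      have h1 : le x⁻¹ (u ^ (n : ℤ)) := by simpa [le] using hn
      have h2 := mul_l (u ^ (-(n:ℤ))) (mul_r x h1)
      simpa [zpow_neg] using h2
    obtain ⟨k, hk, hk'⟩ := Int.exists_greatest_of_bdd hb he
    exact ⟨k, hk, hk'⟩
  choose f hf hf' using hex
  have flt : ∀ x, le x (u ^ (f x + 1)) := by
    intro x
    rcases le_total x (u ^ (f x + 1)) with h | h
    · exact h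
    · exfalso
      have := hf' x _ h
      omega
  have fmono : ∀ {x y}, le x y → f x ≤ f y := fun {x y} h => hf' y _ (le_trans (hf x) h)
  have fadd1 : ∀ x y, f x + f y ≤ f (x * y) := by
    intro x y
    apply hf'
    rw [zpow_add]
    exact mul_lr (hf x) (hf y)
  have fadd2 : ∀ x y, f (x * y) ≤ f x + f y + 1 := by
    intro x y
    by_contra hcon
    push Not at hcon
    have h1 : le (x * y) (u ^ ((f x + 1) + (f y + 1))) := by
      rw [zpow_add]; exact mul_lr (flt x) (flt y)
    have h2 : f (x * y) = f x + f y + 2 := by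
      have h3 := ustrict (le_trans (hf (x * y)) h1)
      omega
    -- u^(fx+fy+2) ≤ x y ≤ ... gives u^(fx+1) ≤ x contradiction
    have h3 : le (u ^ ((f x + 1) + (f y + 1))) (x * y) := by
      have := hf (x * y)
      rw [h2] at this
      have e : f x + f y + 2 = (f x + 1) + (f y + 1) := by ring
      rwa [e] at this
    -- x y ≤ x u^(fy+1)
    have h4 : le (x * y) (x * u ^ (f y + 1)) := mul_l _ (flt y)
    have h5 := mul_r (u ^ (-(f y + 1))) (le_trans h3 h4)
    rw [← zpow_add, mul_assoc, ← zpow_add] at h5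
    simp only [add_neg_cancel_right, add_neg_cancel, zpow_zero, mul_one] at h5
    have := hf' x _ h5
    omega
  -- subadditivity
  have hsub : ∀ x : N, Subadditive (fun n : ℕ => -((f (x ^ n) : ℤ) : ℝ)) := by
    intro x m n
    have := fadd1 (x ^ m) (x ^ n)
    rw [← pow_add] at this
    have h2 : ((f (x ^ m) : ℤ) : ℝ) + ((f (x ^ n) : ℤ) : ℝ) ≤ ((f (x ^ (m + n)) : ℤ) : ℝ) := by
      exact_mod_cast this
    dsimp only
    linarith
  have fup : ∀ (x : N) (n : ℕ), 1 ≤ n → f (x ^ n) + 1 ≤ n * (f x + 1) := by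
    intro x n hn
    induction n with
    | zero => omega
    | succ n ih =>
      rcases Nat.eq_zero_or_pos n with h0 | h0
      · subst h0; simp
      · have h1 := ih h0
        have h2 := fadd2 (x ^ n) x
        rw [← pow_succ] at h2
        push_cast
        nlinarith
  have hbdd : ∀ x : N, BddBelow (Set.range fun n : ℕ => -((f (x ^ n) : ℤ) : ℝ) / n) := by
    intro x
    refine ⟨min 0 (-((f x : ℤ) : ℝ) - 1), ?_⟩
    rintro _ ⟨n, rfl⟩
    dsimp only
    rcases Nat.eq_zero_or_pos n with h0 | h0
    · subst h0; simp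
    · have h1 := fup x n h0
      have h2 : ((f (x ^ n) : ℤ) : ℝ) + 1 ≤ n * (((f x : ℤ) : ℝ) + 1) := by exact_mod_cast h1
      have hn : (0:ℝ) < n := by exact_mod_cast h0
      apply (min_le_right _ _).trans
      rw [le_div_iff₀ hn]
      nlinarith
  have hlim := fun x => (hsub x).tendsto_lim (hbdd x)
  have hlimle := fun (x : N) (n : ℕ) (hn : n ≠ 0) => (hsub x).lim_le_div (hbdd x) hn
  let φ : N → ℝ := fun x => -(hsub x).lim
  have hφ : ∀ x, Tendsto (fun n : ℕ => ((f (x ^ n) : ℤ) : ℝ) / n) atTop (𝓝 (φ x)) := by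
    intro x
    have := (hlim x).neg
    refine this.congr (fun n => ?_)
    rw [neg_div, neg_neg]
  have hφge : ∀ x, ((f x : ℤ) : ℝ) ≤ φ x := by
    intro x
    have := hlimle x 1 one_ne_zero
    simp only [pow_one, Nat.cast_one, div_one] at this
    change _ ≤ -(hsub x).lim
    linarith
  have comm_le : ∀ x y, le (x * y) (y * x) → ∀ n : ℕ,
      le (x ^ n * y ^ n) ((x * y) ^ n) ∧ le ((x * y) ^ n) (y ^ n * x ^ n) := by
    intro x y h
    have h1 : ∀ k : ℕ, le (x * y ^ k) (y ^ k * x) := by
      intro k
      induction k with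
      | zero => simpa using le_refl x
      | succ k ih =>
        have a1 := mul_r y ih
        have a2 := mul_l (y ^ k) h
        rw [← mul_assoc, ← mul_assoc] at a2
        have := le_trans a1 a2
        rw [pow_succ, ← mul_assoc]
        exact this
    have h2 : ∀ k : ℕ, le (x ^ k * y) (y * x ^ k) := by
      intro k
      induction k with
      | zero => simpa using le_refl y
      | succ k ih =>
        have a1 := mul_l x ih
        have a2 := mul_r (x ^ k) h
        have e : x * (x ^ k * y) = x ^ (k + 1) * y := by rw [pow_succ']; group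
        have e2 : x * (y * x ^ k) = x * y * x ^ k := by group
        have e3 : y * x * x ^ k = y * x ^ (k + 1) := by rw [pow_succ']; group
        rw [e, e2] at a1
        rw [e3] at a2
        exact le_trans a1 a2
    intro n
    induction n with
    | zero => simpa using le_refl 1
    | succ n ih =>
      constructor
      · -- x^(n+1) y^(n+1) = x^n (x y^n) y ≤ x^n (y^n x) y ≤ (xy)^n (x y)
        have a1 := mul_r y (mul_l (x ^ n) (h1 n))
        have a2 := mul_r (x * y) ih.1
        have e1 : x ^ n * (x * y ^ n) * y = x ^ (n + 1) * y ^ (n + 1) := by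
          rw [pow_succ, pow_succ]; group
        have e2 : x ^ n * (y ^ n * x) * y = x ^ n * y ^ n * (x * y) := by group
        rw [e1, e2] at a1
        rw [pow_succ (x * y)]
        exact le_trans a1 a2
      · have a1 := mul_r (x * y) ih.2
        have a2 := mul_l (y ^ n) (h2 (n + 1))
        have e1 : y ^ n * x ^ n * (x * y) = y ^ n * (x ^ (n + 1) * y) := by
          rw [pow_succ]; group
        have e2 : y ^ n * (y * x ^ (n + 1)) = y ^ (n + 1) * x ^ (n + 1) := by
          rw [pow_succ y n, mul_assoc]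
        rw [e1] at a1
        rw [e2] at a2
        rw [pow_succ (x * y)]
        exact le_trans a1 a2
  have hdiff : ∀ x y (n : ℕ), |((f ((x * y) ^ n) : ℤ) : ℝ) - (((f (x ^ n) : ℤ) : ℝ) +
      ((f (y ^ n) : ℤ) : ℝ))| ≤ 1 := by
    intro x y n
    have h1 := fadd1 (x ^ n) (y ^ n)
    have h2 := fadd1 (y ^ n) (x ^ n)
    have h3 := fadd2 (x ^ n) (y ^ n)
    have h4 := fadd2 (y ^ n) (x ^ n)
    have key : f (x ^ n) + f (y ^ n) ≤ f ((x * y) ^ n) ∧
        f ((x * y) ^ n) ≤ f (x ^ n) + f (y ^ n) + 1 := by
      rcases le_total (x * y) (y * x) with h | h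
      · obtain ⟨a1, a2⟩ := comm_le x y h n
        have b1 := fmono a1
        have b2 := fmono a2
        omega
      · obtain ⟨a1, a2⟩ := comm_le y x h n
        -- f((yx)^n) between; (x y)^n vs (y x)^n: conjugates, use reversed inequalities
        -- y^n x^n ≤ (y x)^n ≤ x^n y^n.  We need (x y)^n.
        have c1 : ∀ k : ℕ, le (y ^ k * x) (x * y ^ k) := by
          intro k
          induction k with
          | zero => simpa using le_refl x
          | succ k ih =>
            have a1 := mul_l y ih
            have a2 := mul_r (y ^ k) h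
            have e : y * (y ^ k * x) = y ^ (k + 1) * x := by rw [pow_succ']; group
            have e2 : y * (x * y ^ k) = y * x * y ^ k := by group
            have e3 : x * y * y ^ k = x * y ^ (k + 1) := by rw [pow_succ']; group
            rw [e, e2] at a1
            rw [e3] at a2
            exact le_trans a1 a2
        have c2 : ∀ k : ℕ, le (y * x ^ k) (x ^ k * y) := by
          intro k
          induction k with
          | zero => simpa using le_refl y
          | succ k ih =>
            have a1 := mul_r x ih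
            have a2 := mul_l (x ^ k) h
            rw [← mul_assoc, ← mul_assoc] at a2
            have := le_trans a1 a2
            rw [pow_succ, ← mul_assoc]
            exact this
        have c3 : ∀ n : ℕ, le (y ^ n * x ^ n) ((x * y) ^ n) ∧
            le ((x * y) ^ n) (x ^ n * y ^ n) := by
          intro n
          induction n with
          | zero => simpa using le_refl 1
          | succ n ih =>
            constructor
            · -- y^(n+1) x^(n+1) = y^n (y x^(n+1)) ≤ y^n x^(n+1) y = y^n x^n (x y) ≤ ...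
              have a1 := mul_l (y ^ n) (c2 (n + 1))
              have a2 := mul_r (x * y) ih.1
              have e1 : y ^ n * (y * x ^ (n + 1)) = y ^ (n + 1) * x ^ (n + 1) := by
                rw [pow_succ y n, mul_assoc]
              have e2 : y ^ n * (x ^ (n + 1) * y) = y ^ n * x ^ n * (x * y) := by
                rw [pow_succ]; group
              rw [e1, e2] at a1
              rw [pow_succ (x * y)]
              exact le_trans a1 a2
            · -- (xy)^n (x y) ≤ x^n y^n x y ≤ x^n x y^n y
              have a1 := mul_r (x * y) ih.2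
              have a2 := mul_r y (mul_l (x ^ n) (c1 n))
              have e1 : x ^ n * y ^ n * (x * y) = x ^ n * (y ^ n * x) * y := by group
              have e2 : x ^ n * (x * y ^ n) * y = x ^ (n + 1) * y ^ (n + 1) := by
                rw [pow_succ, pow_succ]; group
              rw [e1] at a1
              rw [e2] at a2
              rw [pow_succ (x * y)]
              exact le_trans a1 a2
        obtain ⟨d1, d2⟩ := c3 n
        have b1 := fmono d1
        have b2 := fmono d2
        omega
    obtain ⟨k1, k2⟩ := key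
    have k1' : ((f (x ^ n) : ℤ) : ℝ) + ((f (y ^ n) : ℤ) : ℝ) ≤ ((f ((x * y) ^ n) : ℤ) : ℝ) := by
      exact_mod_cast k1
    have k2' : ((f ((x * y) ^ n) : ℤ) : ℝ) ≤ ((f (x ^ n) : ℤ) : ℝ) + ((f (y ^ n) : ℤ) : ℝ) + 1 := by
      exact_mod_cast k2
    rw [abs_le]
    constructor <;> linarith
  have hadd : ∀ x y, φ (x * y) = φ x + φ y := by
    intro x y
    have h1 := hφ (x * y)
    have h2 := (hφ x).add (hφ y)
    have h3 : Tendsto (fun n : ℕ => ((f ((x * y) ^ n) : ℤ) : ℝ) / n -
        (((f (x ^ n) : ℤ) : ℝ) / n + ((f (y ^ n) : ℤ) : ℝ) / n)) atTop (𝓝 0) := by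
      apply squeeze_zero_norm (a := fun n : ℕ => 1 / (n : ℝ))
      · intro n
        rw [Real.norm_eq_abs]
        rcases Nat.eq_zero_or_pos n with h0 | h0
        · subst h0; simp
        · have hn : (0:ℝ) < n := by exact_mod_cast h0
          have e : ((f ((x * y) ^ n) : ℤ) : ℝ) / n -
            (((f (x ^ n) : ℤ) : ℝ) / n + ((f (y ^ n) : ℤ) : ℝ) / n) =
            (((f ((x * y) ^ n) : ℤ) : ℝ) - (((f (x ^ n) : ℤ) : ℝ) +
              ((f (y ^ n) : ℤ) : ℝ))) / n := by ring
          rw [e, abs_div, abs_of_pos hn]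
          exact div_le_div_of_nonneg_right (hdiff x y n) hn.le
      · exact tendsto_one_div_atTop_nhds_zero_nat
    have h4 := h1.sub h2
    have := tendsto_nhds_unique h3 h4
    linarith
  refine ⟨φ, hadd, ?_⟩
  have hφ1 : φ 1 = 0 := by
    have := hadd 1 1
    rw [one_mul] at this
    linarith
  have hinv : ∀ x, φ x⁻¹ = - φ x := by
    intro x
    have := hadd x x⁻¹
    rw [mul_inv_cancel, hφ1] at this
    linarith
  have hpow : ∀ x (n : ℕ), φ (x ^ n) = n * φ x := by
    intro x n
    induction n with
    | zero => simp [hφ1]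
    | succ n ih => rw [pow_succ, hadd, ih]; push_cast; ring
  intro x
  constructor
  · intro h
    by_contra hcon
    have hx' : x⁻¹ ∈ C := (htot x).resolve_left hcon
    obtain ⟨m, hm⟩ := harch x⁻¹ hx' (by rwa [inv_inv]) u
    have h1 : le (u ^ (1:ℤ)) ((x⁻¹) ^ m) := by
      change (x⁻¹) ^ m * (u ^ (1:ℤ))⁻¹ ∈ C
      rw [zpow_one]; exact hm
    have h2 := hf' _ _ h1
    have h3 := hφge ((x⁻¹) ^ m)
    rw [hpow, hinv] at h3
    have h4 : (1:ℝ) ≤ ((f ((x⁻¹) ^ m) : ℤ) : ℝ) := by exact_mod_cast h2
    have h5 : (0:ℝ) ≤ m := Nat.cast_nonneg m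
    nlinarith
  · intro h
    have h1 : le (u ^ (0:ℤ)) x := by
      change x * (u ^ (0:ℤ))⁻¹ ∈ C
      simpa using h
    have h2 := hf' _ _ h1
    have h3 := hφge x
    have h4 : (0:ℝ) ≤ ((f x : ℤ) : ℝ) := by exact_mod_cast h2
    linarith

end Holder

section Primes

universe u

variable {G : Type u} [Group G] [Lattice G] [MulLeftMono G] [MulRightMono G]

theorem mul_inf_le_aux {a b f : G} (ha : 1 ≤ a) (hb : 1 ≤ b) (hf : 1 ≤ f) :
    (a * b) ⊓ f ≤ (a ⊓ f) * (b ⊓ f) := by
  rw [mul_inf, inf_mul, inf_mul]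
  refine le_inf (le_inf inf_le_left ?_) (le_inf ?_ ?_)
  · exact inf_le_right.trans (le_mul_of_one_le_right' hb)
  · exact inf_le_right.trans (le_mul_of_one_le_left' ha)
  · exact inf_le_right.trans (le_mul_of_one_le_left' hf)

end Primes

end Pool.Agent.Helper6.ZA
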