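import Pool.Agent.Helper6.ZA.Terms

/-!
Amalgamation over the integers: spreading properties of positive elements.
-/

set_option autoImplicit false
set_option linter.unusedSectionVars false
set_option linter.style.haveILetI false

namespace Pool.Agent.Helper6.ZA

section Alg

variable {G : Type} [Group G] [Lattice G] [MulLeftMono G] [MulRightMono G]

/-- Disjoint elements commute. -/
theorem comm_of_disj {a b : G} (h : a ⊓ b = 1) : a * b = b * a := by
  have h1 : a ⊔ b = a * b := by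
    have : a ⊔ b = a * (a ⊓ b)⁻¹ * b := by
      rw [inv_inf, mul_sup, sup_mul]
      simp [sup_comm]
    rw [this, h]; simp
  have h2 : b ⊔ a = b * a := by
    have : b ⊔ a = b * (b ⊓ a)⁻¹ * a := by
      rw [inv_inf, mul_sup, sup_mul]
      simp [sup_comm]
    rw [this, inf_comm, h]; simp
  rw [← h1, ← h2, sup_comm]

/-- Conjugation. -/
def cn (t x : G) : G := t⁻¹ * x * t

theorem cn_mul (s t x : G) : cn (s * t) x = cn t (cn s x) := by
  simp only [cn]; group

theorem cn_inf (t a b : G) : cn t (a ⊓ b) = cn t a ⊓ cn t b := by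
  simp only [cn]; rw [mul_inf, inf_mul]

theorem cn_sup (t a b : G) : cn t (a ⊔ b) = cn t a ⊔ cn t b := by
  simp only [cn]; rw [mul_sup, sup_mul]

@[simp] theorem cn_one (t : G) : cn t 1 = 1 := by simp [cn]

@[simp] theorem one_cn (x : G) : cn 1 x = x := by simp [cn]

theorem cn_mul' (t a b : G) : cn t (a * b) = cn t a * cn t b := by
  simp only [cn]; group

theorem cn_inv (t a : G) : cn t a⁻¹ = (cn t a)⁻¹ := by
  simp only [cn]; group

theorem cn_pow (t a : G) (n : ℕ) : cn t (a ^ n) = (cn t a) ^ n := by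
  induction n with
  | zero => simp
  | succ n ih => rw [pow_succ, pow_succ, cn_mul', ih]

theorem cn_mono (t : G) {a b : G} (h : a ≤ b) : cn t a ≤ cn t b :=
  mul_le_mul' (mul_le_mul' le_rfl h) le_rfl

theorem one_le_cn {t a : G} (h : 1 ≤ a) : 1 ≤ cn t a := by
  have := cn_mono t h
  rwa [cn_one] at this

theorem cn_inv_cn (t a : G) : cn t⁻¹ (cn t a) = a := by
  simp only [cn]; group

theorem cn_cn_inv (t a : G) : cn t (cn t⁻¹ a) = a := by
  simp only [cn]; group

theorem cn_inj {t a b : G} (h : cn t a = cn t b) : a = b := by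
  rw [← cn_inv_cn t a, h, cn_inv_cn]

theorem cn_of_comm {t a : G} (h : a * t = t * a) : cn t a = a := by
  rw [cn, mul_assoc, h]; group

/-- If `u ≥ 1` and `b` is disjoint from its conjugate by `u` then `b ≤ u`. -/
theorem le_of_disj_conj {b u : G} (hu : 1 ≤ u) (h : b ⊓ cn u b = 1) : b ≤ u := by
  have h1 : (u * b) ⊓ (b * u) = u := by
    have : u * (b ⊓ (u⁻¹ * b * u)) = (u * b) ⊓ (b * u) := by
      rw [mul_inf]; congr 1; group
    rw [← this]
    change u * (b ⊓ cn u b) = u
    rw [h, mul_one]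
  rw [← h1]
  exact le_inf (le_mul_of_one_le_left' hu) (le_mul_of_one_le_right' hu)

theorem disj_mono {a b a' b' : G} (h : a ⊓ b = 1) (h1 : 1 ≤ a') (h2 : 1 ≤ b') (ha : a' ≤ a)
    (hb : b' ≤ b) : a' ⊓ b' = 1 :=
  le_antisymm (by rw [← h]; exact inf_le_inf ha hb) (le_inf h1 h2)

/-- The conjugates of `c` by `t, t², …, t^N` are disjoint from `c`. -/
structure Phi (N : ℕ) (c t : G) : Prop where
  pos : 1 < c
  nonneg : 1 ≤ t
  disj : ∀ i, 1 ≤ i → i ≤ N → c ⊓ cn (t ^ i) c = 1

theorem pos_inf_neg' (g : G) : (g ⊔ 1) ⊓ (g⁻¹ ⊔ 1) = 1 := by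
  have h : (g ⊔ 1) = g * (g⁻¹ ⊔ 1) := by
    rw [mul_sup, mul_inv_cancel, mul_one, sup_comm]
  have : (g ⊔ 1) ⊓ (g⁻¹ ⊔ 1) = (g ⊓ 1) * (g⁻¹ ⊔ 1) := by
    rw [inf_mul, ← h, one_mul]
  rw [this]
  have h2 : g ⊓ 1 = (g⁻¹ ⊔ 1)⁻¹ := by rw [inv_sup, inv_inv, inv_one]
  rw [h2, inv_mul_cancel]

/-- From a conjugate by an arbitrary element to a conjugate by a positive element. -/
theorem exists_phi_one_of_conj {b g : G} (hb : 1 < b) (h : b ⊓ cn g b = 1) :
    ∃ c t : G, Phi 1 c t := by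
  by_contra hcon
  have hno : ∀ c t : G, 1 < c → 1 ≤ t → c ⊓ cn t c ≠ 1 := by
    intro c t hc ht h1
    refine hcon ⟨c, t, hc, ht, ?_⟩
    intro i h2 h3
    have : i = 1 := by omega
    subst this
    rw [pow_one]; exact h1
  set p := g ⊔ 1 with hp
  set m := g⁻¹ ⊔ 1 with hm
  have hp1 : 1 ≤ p := le_sup_right
  have hm1 : 1 ≤ m := le_sup_right
  have hpm : p ⊓ m = 1 := pos_inf_neg' g
  have hgp : g = p * m⁻¹ := by
    have : p = g * m := by
      rw [hp, hm, mul_sup, mul_inv_cancel, mul_one, sup_comm]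
    rw [this]; group
  have key : cn m b ⊓ cn p b = 1 := by
    have h1 : cn m (b ⊓ cn g b) = 1 := by rw [h, cn_one]
    rw [cn_inf, ← cn_mul] at h1
    rw [← h1]
    congr 2
    rw [hgp]; group
  have cb : ∀ u v : G, 1 ≤ u → 1 ≤ v → u ⊓ v = 1 → cn v b ⊓ cn u b = 1 → b ⊓ u = 1 := by
    intro u v hu hv huv hk
    by_contra hne
    have h1 : 1 < b ⊓ u := lt_of_le_of_ne (le_inf hb.le hu) (Ne.symm hne)
    refine hno _ _ h1 hu ?_
    apply le_antisymm
    · rw [← hk]
      have e1 : (b ⊓ u) ⊓ v = 1 := disj_mono huv h1.le hv inf_le_right le_rfl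
      have e2 : cn v (b ⊓ u) = b ⊓ u := cn_of_comm (comm_of_disj e1)
      refine le_inf ?_ ?_
      · calc (b ⊓ u) ⊓ cn u (b ⊓ u) ≤ b ⊓ u := inf_le_left
          _ = cn v (b ⊓ u) := e2.symm
          _ ≤ cn v b := cn_mono v inf_le_left
      · exact inf_le_right.trans (cn_mono u inf_le_left)
    · exact le_inf h1.le (one_le_cn h1.le)
  have b1 : b ⊓ p = 1 := cb p m hp1 hm1 hpm key
  have b2 : b ⊓ m = 1 := cb m p hm1 hp1 (by rw [inf_comm]; exact hpm) (by rw [inf_comm]; exact key)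
  have c1 := comm_of_disj b1
  have c2 := comm_of_disj b2
  have e3 : cn g b = b := by
    apply cn_of_comm
    rw [hgp]
    calc b * (p * m⁻¹) = (b * p) * m⁻¹ := by group
      _ = p * (b * m) * m⁻¹ * m⁻¹ := by rw [c1]; group
      _ = p * m⁻¹ * b := by rw [c2]; rw [← mul_assoc p m b, mul_assoc (p * m) b, mul_assoc (p * m)]; 
                            have : b * m⁻¹ = m⁻¹ * b := by
                              calc b * m⁻¹ = m⁻¹ * (m * b) * m⁻¹ := by group
                                _ = m⁻¹ * (b * m) * m⁻¹ := by rw [c2]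
                                _ = m⁻¹ * b := by group
                            rw [mul_assoc p m, ← mul_assoc m, ← mul_assoc m, ← c2, mul_assoc b m, mul_inv_cancel, mul_one, mul_assoc, this]
  rw [e3, inf_idem] at h
  exact hb.ne' h

/-- Non-representable `ℓ`-groups contain a positive element disjoint from a conjugate. -/
theorem exists_phi_one (h : ¬ IsRepresentable G) : ∃ c t : G, Phi 1 c t := by
  unfold IsRepresentable at h
  push Not at h
  obtain ⟨x, y, z, h1, h2⟩ := h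
  have hx : 1 ≤ x := by rw [← h1]; exact inf_le_left
  have hy : 1 ≤ y := by rw [← h1]; exact inf_le_right
  have hw : 1 ≤ x ⊓ cn z y := le_inf hx (one_le_cn hy)
  have hw' : 1 < x ⊓ cn z y := lt_of_le_of_ne hw (Ne.symm h2)
  refine exists_phi_one_of_conj (b := x ⊓ cn z y) (g := z⁻¹) hw' ?_
  refine disj_mono h1 hw (one_le_cn hw) inf_le_left ?_
  calc cn z⁻¹ (x ⊓ cn z y) ≤ cn z⁻¹ (cn z y) := cn_mono _ inf_le_right
    _ = y := cn_inv_cn z y

end Alg


section Pow

variable {G : Type} [Group G] [Lattice G] [MulLeftMono G] [MulRightMono G]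

theorem one_le_npow {b : G} (hb : 1 ≤ b) (n : ℕ) : 1 ≤ b ^ n := by
  induction n with
  | zero => simp
  | succ n ih => rw [pow_succ]; exact ih.trans (le_mul_of_one_le_right' hb)

theorem npow_mono {b : G} (hb : 1 ≤ b) {m n : ℕ} (h : m ≤ n) : b ^ m ≤ b ^ n := by
  obtain ⟨k, rfl⟩ := Nat.exists_eq_add_of_le h
  rw [pow_add]
  exact le_mul_of_one_le_right' (one_le_npow hb k)

theorem npow_le_npow {a b : G} (h : a ≤ b) (n : ℕ) : a ^ n ≤ b ^ n := by
  induction n with
  | zero => simp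
  | succ n ih => rw [pow_succ, pow_succ]; exact mul_le_mul' ih h

theorem zp_mono {b : G} (hb : 1 ≤ b) {m n : ℤ} (h : m ≤ n) : b ^ m ≤ b ^ n := by
  obtain ⟨k, hk⟩ := Int.eq_ofNat_of_zero_le (sub_nonneg.mpr h)
  have : n = m + k := by omega
  rw [this, zpow_add, zpow_natCast]
  exact le_mul_of_one_le_right' (one_le_npow hb k)

theorem zp_inj {b : G} (hb : 1 < b) {n : ℤ} (h : b ^ n = 1) : n = 0 := by
  by_contra hne
  rcases lt_or_gt_of_ne hne with h1 | h1
  · have h2 := zp_mono hb.le (show n ≤ -1 by omega)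
    rw [h, zpow_neg_one] at h2
    exact absurd (one_le_inv'.mp h2) (not_le_of_gt hb)
  · have h2 := zp_mono hb.le (show 1 ≤ n by omega)
    rw [h, zpow_one] at h2
    exact absurd h2 (not_le_of_gt hb)

/-- The embedding of the integers given by a positive element. -/
theorem zpow_lemb {b : G} (hb : 1 < b) :
    IsLEmb (fun n : Multiplicative ℤ => b ^ (Multiplicative.toAdd n)) := by
  refine ⟨?_, ?_, ?_, ?_⟩
  · intro x y
    exact zpow_add b _ _
  · intro x y
    rcases le_total x y with h | h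
    · have h' : Multiplicative.toAdd x ≤ Multiplicative.toAdd y := h
      rw [sup_eq_right.mpr h]
      exact (sup_eq_right.mpr (zp_mono hb.le h')).symm
    · have h' : Multiplicative.toAdd y ≤ Multiplicative.toAdd x := h
      rw [sup_eq_left.mpr h]
      exact (sup_eq_left.mpr (zp_mono hb.le h')).symm
  · intro x y
    rcases le_total x y with h | h
    · have h' : Multiplicative.toAdd x ≤ Multiplicative.toAdd y := h
      rw [inf_eq_left.mpr h]
      exact (inf_eq_left.mpr (zp_mono hb.le h')).symm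
    · have h' : Multiplicative.toAdd y ≤ Multiplicative.toAdd x := h
      rw [inf_eq_right.mpr h]
      exact (inf_eq_right.mpr (zp_mono hb.le h')).symm
  · intro x y h
    have h1 : b ^ (Multiplicative.toAdd x - Multiplicative.toAdd y) = 1 := by
      rw [zpow_sub]
      exact mul_inv_eq_one.mpr h
    have h2 := zp_inj hb h1
    apply Multiplicative.toAdd.injective
    omega

end Pow

section Emb

variable {A B C : Type} [Group A] [Lattice A] [Group B] [Lattice B] [Group C] [Lattice C]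

theorem IsLEmb.one {f : A → B} (hf : IsLEmb f) : f 1 = 1 := by
  have := hf.mul 1 1
  rw [mul_one] at this
  exact mul_eq_left.mp this.symm

theorem IsLEmb.inv {f : A → B} (hf : IsLEmb f) (x : A) : f x⁻¹ = (f x)⁻¹ := by
  symm
  rw [inv_eq_iff_mul_eq_one, ← hf.mul, mul_inv_cancel, hf.one]

theorem IsLEmb.pow {f : A → B} (hf : IsLEmb f) (x : A) (n : ℕ) : f (x ^ n) = (f x) ^ n := by
  induction n with
  | zero => rw [pow_zero, pow_zero, hf.one]
  | succ n ih => rw [pow_succ, pow_succ, hf.mul, ih]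

theorem IsLEmb.cn {f : A → B} (hf : IsLEmb f) (t x : A) : f (cn t x) = ZA.cn (f t) (f x) := by
  simp only [ZA.cn, hf.mul, hf.inv]

theorem IsLEmb.mono {f : A → B} (hf : IsLEmb f) {x y : A} (h : x ≤ y) : f x ≤ f y := by
  rw [← sup_eq_right, ← hf.sup, sup_eq_right.mpr h]

theorem IsLEmb.one_lt {f : A → B} (hf : IsLEmb f) {x : A} (h : 1 < x) : 1 < f x := by
  refine lt_of_le_of_ne ?_ ?_
  · rw [← hf.one]; exact hf.mono h.le
  · intro h1
    rw [← hf.one] at h1
    exact h.ne (hf.inj h1)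

theorem IsLEmb.comp {f : B → C} {g : A → B} (hf : IsLEmb f) (hg : IsLEmb g) :
    IsLEmb (f ∘ g) := by
  refine ⟨?_, ?_, ?_, hf.inj.comp hg.inj⟩
  · intro x y; simp [hf.mul, hg.mul]
  · intro x y; simp [hf.sup, hg.sup]
  · intro x y; simp [hf.inf, hg.inf]

theorem IsLEmb.eval {f : A → B} (hf : IsLEmb f) (v : ℕ → A) (t : LTerm) :
    f (t.eval v) = t.eval (f ∘ v) := by
  induction t with
  | var n => rfl
  | one => exact hf.one
  | mul s t hs ht => simp only [LTerm.eval, hf.mul, hs, ht]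
  | inv s hs => simp only [LTerm.eval, hf.inv, hs]
  | sup s t hs ht => simp only [LTerm.eval, hf.sup, hs, ht]
  | inf s t hs ht => simp only [LTerm.eval, hf.inf, hs, ht]

theorem Phi.map {f : A → B} (hf : IsLEmb f) {N : ℕ} {c t : A} (h : Phi N c t) :
    Phi N (f c) (f t) := by
  refine ⟨hf.one_lt h.pos, ?_, ?_⟩
  · rw [← hf.one]; exact hf.mono h.nonneg
  · intro i h1 h2
    rw [← hf.pow, ← hf.cn, ← hf.inf, h.disj i h1 h2, hf.one]

end Emb

section Amalg

variable {E : Set (LTerm × LTerm)}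

/-- Two positive elements of members of the variety can be identified. -/
theorem amalg_pos (hZ : IsAmalgBase E (Multiplicative ℤ)) {B C : Type} [Group B] [Lattice B]
    [Group C] [Lattice C] (hB : InVar E B) (hC : InVar E C) {b : B} (hb : 1 < b) {c : C}
    (hc : 1 < c) :
    ∃ (D : Type) (_ : Group D) (_ : Lattice D), InVar E D ∧
        ∃ (h : B → D) (k : C → D), IsLEmb h ∧ IsLEmb k ∧ h b = k c := by
  haveI := hB.lgroup.mulLeftMono
  haveI := hB.lgroup.mulRightMono
  haveI := hC.lgroup.mulLeftMono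
  haveI := hC.lgroup.mulRightMono
  obtain ⟨D, i1, i2, hD, h, k, hh, hk, hhk⟩ := hZ.2 B C hB hC _ _ (zpow_lemb hb) (zpow_lemb hc)
  refine ⟨D, i1, i2, hD, h, k, hh, hk, ?_⟩
  have := hhk (Multiplicative.ofAdd 1)
  simpa using this

/-- The inductive step. -/
theorem phi_step (hZ : IsAmalgBase E (Multiplicative ℤ)) {N : ℕ} (hN : 1 ≤ N)
    (h : ∃ (G : Type) (_ : Group G) (_ : Lattice G), InVar E G ∧ ∃ c t : G, Phi N c t) :
    ∃ (G : Type) (_ : Group G) (_ : Lattice G), InVar E G ∧ ∃ c t : G, Phi (N + 1) c t := by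
  by_contra hcon
  have hno : ∀ (G : Type) [Group G] [Lattice G], InVar E G → ∀ c t : G, ¬ Phi (N + 1) c t :=
    fun G i1 i2 hG c t hp => hcon ⟨G, i1, i2, hG, c, t, hp⟩
  obtain ⟨G, i1, i2, hG, c0, t0, hp0⟩ := h
  haveI := hG.lgroup.mulLeftMono
  haveI := hG.lgroup.mulRightMono
  have ht0 : 1 < t0 := by
    refine lt_of_le_of_ne hp0.nonneg ?_
    intro h1
    have := hp0.disj 1 le_rfl hN
    rw [← h1, one_pow, one_cn, inf_idem] at this
    exact hp0.pos.ne' this
  obtain ⟨D, _, _, hD, h, k, hh, hk, hhk⟩ := amalg_pos hZ hG hG ht0 hp0.pos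
  haveI := hD.lgroup.mulLeftMono
  haveI := hD.lgroup.mulRightMono
  obtain ⟨c, t, s, hct, hts⟩ : ∃ c t s : D, Phi N c t ∧ Phi N t s :=
    ⟨h c0, h t0, k t0, hp0.map hh, by rw [hhk]; exact hp0.map hk⟩
  -- the key property of `s`
  have key : ∀ d : D, 1 ≤ d → d ≤ t → ∀ x : D, 1 ≤ x → x ⊓ d = 1 →
      x ⊓ cn (s ^ (N + 1)) d = 1 := by
    intro d hd1 hdt x hx hxd
    by_contra hne
    set y := x ⊓ cn (s ^ (N + 1)) d with hy
    have hy1 : 1 < y := lt_of_le_of_ne (le_inf hx (one_le_cn hd1)) (Ne.symm hne)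
    set z := cn (s ^ (N + 1))⁻¹ y with hz
    have hzy : cn (s ^ (N + 1)) z = y := cn_cn_inv _ _
    have hzd : z ≤ d := by
      calc z ≤ cn (s ^ (N + 1))⁻¹ (cn (s ^ (N + 1)) d) := cn_mono _ inf_le_right
        _ = d := cn_inv_cn _ _
    have hz1 : 1 < z := by
      refine lt_of_le_of_ne (one_le_cn hy1.le) ?_
      intro h1
      rw [← h1, cn_one] at hzy
      exact hy1.ne hzy
    refine hno D hD z s ⟨hz1, hts.nonneg, ?_⟩
    intro i h1 h2
    rcases Nat.lt_succ_iff_lt_or_eq.mp (Nat.lt_succ_of_le h2) with h3 | h3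
    · exact disj_mono (hts.disj i h1 (by omega)) hz1.le (one_le_cn hz1.le) (hzd.trans hdt)
        (cn_mono _ (hzd.trans hdt))
    · rw [h3, hzy]
      refine disj_mono (a := d) (b := x) (by rw [inf_comm]; exact hxd) hz1.le hy1.le hzd
        inf_le_left
  have hc1 := hct.pos.le
  have ht1 := hct.nonneg
  have hd := hct.disj 1 le_rfl hN
  rw [pow_one] at hd
  have hct' : c ≤ t := le_of_disj_conj ht1 hd
  set d := cn t c with hdd
  have hd1 : 1 ≤ d := one_le_cn hc1
  have hdt : d ≤ t := by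
    calc d ≤ cn t t := cn_mono t hct'
      _ = t := cn_of_comm rfl
  -- powers of `t s`
  have hpow : ∀ i, 1 ≤ i → i ≤ N + 1 → cn ((t * s) ^ i) c = cn (s ^ i) d := by
    intro i hi
    induction i with
    | zero => omega
    | succ i ih =>
      intro hi2
      rcases Nat.eq_zero_or_pos i with h0 | h0
      · subst h0
        rw [pow_one, pow_one, cn_mul]
      · rw [pow_succ, cn_mul, ih h0 (by omega), cn_mul, pow_succ, cn_mul]
        congr 1
        apply cn_of_comm
        apply comm_of_disj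
        rw [inf_comm]
        exact disj_mono (hts.disj i h0 (by omega)) ht1 (one_le_cn hd1) le_rfl (cn_mono _ hdt)
  refine hno D hD c (t * s) ⟨hct.pos, one_le_mul ht1 hts.nonneg, ?_⟩
  intro i h1 h2
  rw [hpow i h1 h2]
  rcases Nat.lt_succ_iff_lt_or_eq.mp (Nat.lt_succ_of_le h2) with h3 | h3
  · exact disj_mono (hts.disj i h1 (by omega)) hc1 (one_le_cn hd1) hct' (cn_mono _ hdt)
  · rw [h3]
    exact key d hd1 hdt c hc1 hd

/-- All the `Phi N` can be realised. -/
theorem phi_all (hZ : IsAmalgBase E (Multiplicative ℤ)) {G : Type} [Group G] [Lattice G]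
    (hG : InVar E G) (hrep : ¬ IsRepresentable G) (N : ℕ) :
    ∃ (G : Type) (_ : Group G) (_ : Lattice G), InVar E G ∧ ∃ c t : G, Phi (N + 1) c t := by
  induction N with
  | zero =>
    haveI := hG.lgroup.mulLeftMono
    haveI := hG.lgroup.mulRightMono
    exact ⟨G, inferInstance, inferInstance, hG, exists_phi_one hrep⟩
  | succ N ih => exact phi_step hZ (by omega) ih

/-- Every positive element gets many disjoint conjugates in an extension. -/
theorem spread (hZ : IsAmalgBase E (Multiplicative ℤ)) {G : Type} [Group G] [Lattice G]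
    (hG : InVar E G) (hrep : ¬ IsRepresentable G) (N : ℕ) {B : Type} [Group B] [Lattice B]
    (hB : InVar E B) {b : B} (hb : 1 < b) :
    ∃ (D : Type) (_ : Group D) (_ : Lattice D), InVar E D ∧
        ∃ (h : B → D) (t : D), IsLEmb h ∧ Phi (N + 1) (h b) t := by
  obtain ⟨C, _, _, hC, c, t, hp⟩ := phi_all hZ hG hrep N
  obtain ⟨D, i1, i2, hD, h, k, hh, hk, hhk⟩ := amalg_pos hZ hB hC hb hp.pos
  refine ⟨D, i1, i2, hD, h, k t, hh, ?_⟩
  rw [hhk]; exact hp.map hk

/-- Varieties satisfying a law `[s(x̄), t(ȳ)] = 1` in disjoint variables. -/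
theorem comm_law (hZ : IsAmalgBase E (Multiplicative ℤ)) (s t : LTerm)
    (hlaw : ∀ (G : Type) [Group G] [Lattice G], InVar E G → ∀ v w : ℕ → G,
      s.eval v * t.eval w = t.eval w * s.eval v)
    (hs : ∃ (G : Type) (_ : Group G) (_ : Lattice G), InVar E G ∧ ∃ v : ℕ → G, s.eval v ≠ 1)
    (ht : ∃ (G : Type) (_ : Group G) (_ : Lattice G), InVar E G ∧ ∃ v : ℕ → G, t.eval v ≠ 1)
    (G : Type) [Group G] [Lattice G] (hG : InVar E G) (a b : G) : a * b = b * a := by
  haveI := hG.lgroup.mulLeftMono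
  haveI := hG.lgroup.mulRightMono
  have habs : ∀ (H : Type) [Group H] [Lattice H] [MulLeftMono H] [MulRightMono H] (x : H),
      x ≠ 1 → 1 < x ⊔ x⁻¹ := by
    intro H _ _ _ _ x hx
    refine lt_of_le_of_ne (one_le_mabs x) ?_
    intro h
    apply hx
    apply le_antisymm
    · rw [h]; exact le_sup_left
    · rw [← inv_le_one', h]; exact le_sup_right
  have hcs : ∀ (H : Type) [Group H] [Lattice H] [MulLeftMono H] [MulRightMono H] (x y : H),
      x * y = y * x → (x ⊔ x⁻¹) * y = y * (x ⊔ x⁻¹) := by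
    intro H _ _ _ _ x y h
    rw [sup_mul, mul_sup, h]
    congr 1
    rw [inv_mul_eq_iff_eq_mul, ← mul_assoc, h, mul_inv_cancel_right]
  -- positive elements commute
  have hpos : ∀ x y : G, 1 < x → 1 < y → x * y = y * x := by
    intro x y hx hy
    obtain ⟨C, _, _, hC, v, hv⟩ := hs
    haveI := hC.lgroup.mulLeftMono
    haveI := hC.lgroup.mulRightMono
    obtain ⟨D, _, _, hD, h, k, hh, hk, hhk⟩ := amalg_pos hZ hG hC hx (habs C _ hv)
    obtain ⟨C', _, _, hC', w, hw⟩ := ht
    haveI := hC'.lgroup.mulLeftMono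
    haveI := hC'.lgroup.mulRightMono
    obtain ⟨D', _, _, hD', h', k', hh', hk', hhk'⟩ :=
      amalg_pos hZ hD hC' (hh.one_lt hy) (habs C' _ hw)
    haveI := hD'.lgroup.mulLeftMono
    haveI := hD'.lgroup.mulRightMono
    have e1 : h' (h x) = s.eval (h' ∘ k ∘ v) ⊔ (s.eval (h' ∘ k ∘ v))⁻¹ := by
      rw [hhk, hk.sup, hk.inv, hh'.sup, hh'.inv, hk.eval, hh'.eval]
    have e2 : h' (h y) = t.eval (k' ∘ w) ⊔ (t.eval (k' ∘ w))⁻¹ := by
      rw [hhk', hk'.sup, hk'.inv, hk'.eval]
    have e3 : h' (h x) * h' (h y) = h' (h y) * h' (h x) := by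
      rw [e1, e2]
      exact hcs _ _ _ ((hcs _ _ _ (hlaw D' hD' _ _).symm).symm)
    rw [← hh'.mul, ← hh'.mul, ← hh.mul, ← hh.mul] at e3
    exact hh.inj (hh'.inj e3)
  have hpos' : ∀ x y : G, 1 ≤ x → 1 ≤ y → x * y = y * x := by
    intro x y hx hy
    rcases hx.eq_or_lt with h | h
    · rw [← h]; simp
    · rcases hy.eq_or_lt with h' | h'
      · rw [← h']; simp
      · exact hpos x y h h'
  have hdec : ∀ x : G, x = (x ⊔ 1) * (x⁻¹ ⊔ 1)⁻¹ := by
    intro x
    have : x ⊔ 1 = x * (x⁻¹ ⊔ 1) := by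
      rw [mul_sup, mul_inv_cancel, mul_one, sup_comm]
    rw [this]; group
  have c1 : ∀ x y : G, 1 ≤ x → Commute x y := by
    intro x y hx
    rw [hdec y]
    exact Commute.mul_right (hpos' _ _ hx le_sup_right) (Commute.inv_right (hpos' _ _ hx le_sup_right))
  have c2 : Commute a b := by
    rw [hdec a]
    exact Commute.mul_left (c1 _ _ le_sup_right) (Commute.inv_left (c1 _ _ le_sup_right))
  exact c2

end Amalg

end Pool.Agent.Helper6.ZA
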