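import Pool.Agent.Helper6.ZA.LG
import Pool.Agent.Helper6.ZA.Holder
import Pool.Agent.Helper6.ZA.Spread

/-!
Polars and the local analysis of products of conjugates.
-/

set_option autoImplicit false
set_option linter.unusedSectionVars false
set_option linter.style.haveILetI false

namespace Pool.Agent.Helper6.ZA

section Polar

variable {G : Type} [Group G] [Lattice G] [MulLeftMono G] [MulRightMono G]

theorem disj_mul {a b c : G} (hb : 1 ≤ b) (hc : 1 ≤ c) (h1 : a ⊓ b = 1)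
    (h2 : a ⊓ c = 1) : a ⊓ (b * c) = 1 := by
  have ha : 1 ≤ a := by rw [← h1]; exact inf_le_left
  apply le_antisymm
  · -- a ∧ bc ≤ (a ∧ b)(a ∧ c)
    have h3 : a ⊓ (b * c) ≤ (a ⊓ b) * (a ⊓ c) := by
      rw [inf_mul, mul_inf, mul_inf]
      refine le_inf (le_inf ?_ ?_) (le_inf ?_ inf_le_right)
      · exact inf_le_left.trans (le_mul_of_one_le_right' ha)
      · exact inf_le_left.trans (le_mul_of_one_le_right' hc)
      · exact inf_le_left.trans (le_mul_of_one_le_left' hb)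
    rw [h1, h2, one_mul] at h3
    exact h3
  · exact le_inf ha (one_le_mul hb hc)

theorem disj_pow {a b : G} (hb : 1 ≤ b) (h1 : a ⊓ b = 1) (n : ℕ) : a ⊓ b ^ n = 1 := by
  have ha : 1 ≤ a := by rw [← h1]; exact inf_le_left
  induction n with
  | zero => rw [pow_zero]; exact inf_eq_right.mpr ha
  | succ n ih => rw [pow_succ]; exact disj_mul (one_le_npow hb n) hb ih h1

theorem abs_mul_le (x y : G) : (x * y) ⊔ (x * y)⁻¹ ≤
    (x ⊔ x⁻¹) * (y ⊔ y⁻¹) * (x ⊔ x⁻¹) := by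
  have hx' : 1 ≤ x ⊔ x⁻¹ := one_le_mabs x
  refine sup_le ?_ ?_
  · calc x * y ≤ (x ⊔ x⁻¹) * (y ⊔ y⁻¹) := mul_le_mul' le_sup_left le_sup_left
      _ ≤ _ := le_mul_of_one_le_right' hx'
  · rw [mul_inv_rev]
    calc y⁻¹ * x⁻¹ ≤ (y ⊔ y⁻¹) * (x ⊔ x⁻¹) := mul_le_mul' le_sup_right le_sup_right
      _ ≤ (x ⊔ x⁻¹) * ((y ⊔ y⁻¹) * (x ⊔ x⁻¹)) := le_mul_of_one_le_left' hx'
      _ = _ := by rw [mul_assoc]

theorem abs_cn (g x : G) : cn g x ⊔ (cn g x)⁻¹ = cn g (x ⊔ x⁻¹) := by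
  rw [cn_sup, cn_inv]

/-- The polar of a positive element. -/
def polar (u : G) (hu : 1 ≤ u) : Subgroup G where
  carrier := {z | u ⊓ (z ⊔ z⁻¹) = 1}
  one_mem' := by
    change u ⊓ (1 ⊔ 1⁻¹) = 1
    rw [inv_one, sup_idem]; exact inf_eq_right.mpr hu
  mul_mem' := by
    intro x y hx hy
    have hx1 : 1 ≤ x ⊔ x⁻¹ := one_le_mabs x
    have hy1 : 1 ≤ y ⊔ y⁻¹ := one_le_mabs y
    have h1 : u ⊓ ((x ⊔ x⁻¹) * (y ⊔ y⁻¹) * (x ⊔ x⁻¹)) = 1 :=
      disj_mul (one_le_mul hx1 hy1) hx1 (disj_mul hx1 hy1 hx hy) hx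
    apply le_antisymm
    · rw [← h1]; exact inf_le_inf_left _ (abs_mul_le x y)
    · exact le_inf hu (one_le_mabs _)
  inv_mem' := by
    intro x hx
    change u ⊓ (x⁻¹ ⊔ x⁻¹⁻¹) = 1
    rw [inv_inv, sup_comm]
    exact hx

theorem mem_polar {u : G} {hu : 1 ≤ u} {z : G} : z ∈ polar u hu ↔ u ⊓ (z ⊔ z⁻¹) = 1 := Iff.rfl

theorem polar_of_le {u : G} {hu : 1 ≤ u} {z : G} {w : G} (h1 : u ⊓ w = 1)
    (h2 : z ⊔ z⁻¹ ≤ w) : z ∈ polar u hu := by
  rw [mem_polar]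
  apply le_antisymm
  · rw [← h1]; exact inf_le_inf_left _ h2
  · exact le_inf hu (one_le_mabs z)

theorem abs_of_one_le {x : G} (h : 1 ≤ x) : x ⊔ x⁻¹ = x :=
  sup_eq_left.mpr ((inv_le_one'.mpr h).trans h)

theorem polar_cvx {u : G} (hu : 1 ≤ u) : IsCvx (polar u hu) := by
  constructor
  · intro a ha
    refine polar_of_le ha ?_
    rw [abs_of_one_le le_sup_right]
    exact sup_le le_sup_left (one_le_mabs a)
  · intro a ha b hb1 hba
    refine polar_of_le ha ?_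
    rw [abs_of_one_le hb1]
    exact hba.trans le_sup_left

/-- Cosets of a convex subgroup form a join semilattice. -/
theorem sup_coset {Q : Subgroup G} (hQ : IsCvx Q) {a b : G} (w : G) (h : a⁻¹ * b ∈ Q) :
    (a ⊔ w)⁻¹ * (b ⊔ w) ∈ Q := by
  have key : ∀ a b : G, leQ Q a b → leQ Q (a ⊔ w) (b ⊔ w) := by
    intro a b h
    obtain ⟨q, hq, hle⟩ := (leQ_iff hQ).mp h
    refine (leQ_iff hQ).mpr ⟨q ⊔ 1, hQ.sup_one _ hq, sup_le ?_ ?_⟩
    · exact hle.trans (mul_le_mul' le_sup_left le_sup_left)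
    · exact le_sup_right.trans (le_mul_of_one_le_right' le_sup_right)
  exact leQ_antisymm hQ (key _ _ (leQ_of_mem hQ h)) (key _ _ (leQ_of_mem' hQ h))

end Polar

section Local

variable {G D : Type} [Group G] [Lattice G] [MulLeftMono G] [MulRightMono G]
  [Group D] [Lattice D] [MulLeftMono D] [MulRightMono D]
  {i : G → D} (hi : IsLEmb i) {u : G} (hu : 1 ≤ u) (hunit : ∀ g : G, ∃ k : ℕ, g ≤ u ^ k)
  {t : D} {K : ℕ} (hP : Phi (K + 1) (i u) t)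

include hi hunit hP

theorem loc_bd (g : G) : ∃ k : ℕ, i g ≤ (i u) ^ k ∧ ((i u) ^ k)⁻¹ ≤ i g := by
  obtain ⟨k, hk⟩ := hunit g
  obtain ⟨l, hl⟩ := hunit g⁻¹
  have hu1 : 1 ≤ i u := hP.pos.le
  refine ⟨k + l, ?_, ?_⟩
  · refine le_trans ?_ (npow_mono hu1 (Nat.le_add_right k l))
    rw [← hi.pow]; exact hi.mono hk
  · rw [inv_le', ← hi.inv]
    refine le_trans ?_ (npow_mono hu1 (Nat.le_add_left l k))
    rw [← hi.pow]; exact hi.mono hl

theorem loc_norm (g : G) {z : D} (hz : z ∈ polar (i u) hP.pos.le) :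
    (i g)⁻¹ * z * i g ∈ polar (i u) hP.pos.le := by
  have hu1 : 1 ≤ i u := hP.pos.le
  obtain ⟨k, hk, -⟩ := loc_bd hi hunit hP (cn g⁻¹ u)
  change cn (i g) z ∈ _
  rw [mem_polar] at hz ⊢
  rw [abs_cn]
  have h1 : i u = cn (i g) (i (cn g⁻¹ u)) := by
    rw [← hi.cn, cn_cn_inv]
  have h2 : (z ⊔ z⁻¹) ⊓ i (cn g⁻¹ u) = 1 := by
    refine disj_mono (disj_pow hu1 (by rw [inf_comm]; exact hz) k) (one_le_mabs z) ?_ le_rfl hk
    rw [hi.cn]; exact one_le_cn hu1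
  calc i u ⊓ cn (i g) (z ⊔ z⁻¹) = cn (i g) (i (cn g⁻¹ u)) ⊓ cn (i g) (z ⊔ z⁻¹) := by rw [← h1]
    _ = 1 := by rw [← cn_inf, inf_comm, h2, cn_one]

/-- The conjugates of the copy of `G` by nonzero powers of `t` are in the polar. -/
theorem loc_conj (g : G) {m : ℕ} (h1 : 1 ≤ m) (h2 : m ≤ K + 1) :
    cn (t ^ m) (i g) ∈ polar (i u) hP.pos.le ∧ cn (t ^ m)⁻¹ (i g) ∈ polar (i u) hP.pos.le := by
  have hu1 : 1 ≤ i u := hP.pos.le
  obtain ⟨k, hk, hk'⟩ := loc_bd hi hunit hP g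
  have habs : i g ⊔ (i g)⁻¹ ≤ (i u) ^ k := sup_le hk (inv_le'.mp hk')
  have d1 : i u ⊓ cn (t ^ m) ((i u) ^ k) = 1 := by
    rw [cn_pow]
    exact disj_pow (one_le_cn hu1) (hP.disj m h1 h2) k
  have d2 : i u ⊓ cn (t ^ m)⁻¹ ((i u) ^ k) = 1 := by
    rw [cn_pow]
    refine disj_pow (one_le_cn hu1) ?_ k
    apply cn_inj (t := t ^ m)
    rw [cn_inf, cn_cn_inv, cn_one, inf_comm]
    exact hP.disj m h1 h2
  constructor
  · refine polar_of_le d1 ?_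
    rw [abs_cn]; exact cn_mono _ habs
  · refine polar_of_le d2 ?_
    rw [abs_cn]; exact cn_mono _ habs

/-- The powers of `t` dominate the copy of `G`. -/
theorem loc_dom (k : ℕ) {m : ℕ} (h1 : 1 ≤ m) (h2 : m ≤ K + 1) : (i u) ^ k ≤ t ^ m := by
  have hu1 : 1 ≤ i u := hP.pos.le
  apply le_of_disj_conj (one_le_npow hP.nonneg m)
  rw [cn_pow]
  refine disj_pow (one_le_cn hu1) ?_ k
  rw [inf_comm]
  refine disj_pow hu1 ?_ k
  rw [inf_comm]
  exact hP.disj m h1 h2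

theorem loc_dom' (g : G) {m : ℕ} (h1 : 1 ≤ m) (h2 : m ≤ K + 1) :
    i g ≤ t ^ m ∧ (t ^ m)⁻¹ ≤ i g := by
  obtain ⟨k, hk, hk'⟩ := loc_bd hi hunit hP g
  have h := loc_dom hi hunit hP k h1 h2
  exact ⟨hk.trans h, (inv_le_inv_iff.mpr h).trans hk'⟩

/-- A power of `t` times an element of `G` is not in the polar. -/
theorem loc_not (g : G) {m : ℕ} (h1 : 1 ≤ m) (h2 : m ≤ K + 1) :
    t ^ m * i g ∉ polar (i u) hP.pos.le ∧ i g * t ^ m ∉ polar (i u) hP.pos.le := by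
  have hu1 : 1 ≤ i u := hP.pos.le
  obtain ⟨k, hk, hk'⟩ := loc_bd hi hunit hP g
  have h := loc_dom hi hunit hP (k + 1) h1 h2
  have key : ∀ z : D, i u ≤ z → z ∉ polar (i u) hP.pos.le := by
    intro z hz h3
    rw [mem_polar, abs_of_one_le (hu1.trans hz), inf_eq_left.mpr hz] at h3
    exact hP.pos.ne' h3
  constructor
  · apply key
    calc i u = (i u) ^ (k + 1) * ((i u) ^ k)⁻¹ := by rw [pow_succ']; group
      _ ≤ t ^ m * i g := mul_le_mul' h hk'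
  · apply key
    calc i u = ((i u) ^ k)⁻¹ * (i u) ^ (k + 1) := by rw [pow_succ]; group
      _ ≤ i g * t ^ m := mul_le_mul' hk' h

theorem loc_inj {g : G} (h : i g ∈ polar (i u) hP.pos.le) : g = 1 := by
  have hu1 : 1 ≤ i u := hP.pos.le
  obtain ⟨k, hk, hk'⟩ := loc_bd hi hunit hP g
  have habs : i g ⊔ (i g)⁻¹ ≤ (i u) ^ k := sup_le hk (inv_le'.mp hk')
  have h1 : (i g ⊔ (i g)⁻¹) ⊓ (i u) ^ k = 1 := disj_pow hu1 (by rw [inf_comm]; exact h) k
  rw [inf_eq_left.mpr habs] at h1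
  have h2 : i g = 1 := by
    apply le_antisymm
    · rw [← h1]; exact le_sup_left
    · rw [← inv_le_one', ← h1]; exact le_sup_right
  exact hi.inj (h2.trans hi.one.symm)

end Local

end Pool.Agent.Helper6.ZA
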