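import Pool.Agent.Helper6.ZA.LG
import Pool.Agent.Helper6.ZA.Holder

/-!
Existence of primes, Hölder maps on covers of values.
-/

set_option autoImplicit false
set_option linter.unusedSectionVars false

namespace Pool.Agent.Helper6.ZA

universe u

variable {G : Type u} [Group G] [Lattice G] [MulLeftMono G] [MulRightMono G]

/-- For a strictly positive element there is a prime avoiding it. -/
theorem exists_prime_pos {g : G} (hg : 1 ≤ g) (hg1 : g ≠ 1) : ∃ Q : Subgroup G, IsPrm Q ∧ g ∉ Q := by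
  classical
  let S : Set (Set G) := {F | (∀ x ∈ F, 1 ≤ x) ∧ (1 : G) ∉ F ∧ (∀ x ∈ F, ∀ y ∈ F, x ⊓ y ∈ F)}
  have h0 : ({g} : Set G) ∈ S := by
    refine ⟨?_, ?_, ?_⟩
    · rintro x rfl; exact hg
    · intro h; exact hg1 (Set.mem_singleton_iff.mp h).symm
    · rintro x rfl y rfl; simp
  obtain ⟨F, hgF, hF⟩ := zorn_subset_nonempty S (by
    intro c hc hchain hne
    refine ⟨⋃₀ c, ⟨?_, ?_, ?_⟩, fun s hs => Set.subset_sUnion_of_mem hs⟩
    · rintro x ⟨s, hs, hx⟩; exact (hc hs).1 x hx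
    · rintro ⟨s, hs, hx⟩; exact (hc hs).2.1 hx
    · rintro x ⟨s, hs, hx⟩ y ⟨t, ht, hy⟩
      rcases hchain.total hs ht with h | h
      · exact ⟨t, ht, (hc ht).2.2 x (h hx) y hy⟩
      · exact ⟨s, hs, (hc hs).2.2 x hx y (h hy)⟩) {g} h0
  have hgF' : g ∈ F := hgF rfl
  obtain ⟨hF1, hF2, hF3⟩ := hF.prop
  have hmax : ∀ a : G, 1 ≤ a → a ∈ F ∨ ∃ f ∈ F, a ⊓ f = 1 := by
    intro a ha
    by_contra hcon
    push Not at hcon
    obtain ⟨haF, hcon⟩ := hcon
    let F' : Set G := F ∪ {x | x = a ∨ ∃ f ∈ F, x = a ⊓ f}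
    have hF' : F' ∈ S := by
      refine ⟨?_, ?_, ?_⟩
      · rintro x (hx | rfl | ⟨f, hf, rfl⟩)
        · exact hF1 x hx
        · exact ha
        · exact le_inf ha (hF1 f hf)
      · rintro (hx | h | ⟨f, hf, h⟩)
        · exact hF2 hx
        · apply hcon g hgF'
          rw [← h]; exact inf_eq_left.mpr hg
        · exact hcon f hf h.symm
      · rintro x hx y hy
        rcases hx with hx | rfl | ⟨f, hf, rfl⟩ <;> rcases hy with hy | rfl | ⟨f', hf', rfl⟩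
        · exact Or.inl (hF3 x hx y hy)
        · exact Or.inr (Or.inr ⟨x, hx, inf_comm _ _⟩)
        · refine Or.inr (Or.inr ⟨x ⊓ f', hF3 x hx f' hf', ?_⟩)
          rw [inf_left_comm]
        · exact Or.inr (Or.inr ⟨y, hy, rfl⟩)
        · exact Or.inr (Or.inl (inf_idem _))
        · refine Or.inr (Or.inr ⟨f', hf', ?_⟩)
          rw [← inf_assoc, inf_idem]
        · refine Or.inr (Or.inr ⟨f ⊓ y, hF3 f hf y hy, ?_⟩)
          rw [inf_assoc]
        · refine Or.inr (Or.inr ⟨f, hf, ?_⟩)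
          rw [inf_comm, ← inf_assoc, inf_idem]
        · refine Or.inr (Or.inr ⟨f ⊓ f', hF3 f hf f' hf', ?_⟩)
          rw [inf_inf_inf_comm, inf_idem]
    have hsub : F ⊆ F' := Set.subset_union_left
    have := hF.eq_of_subset hF' hsub
    apply haF
    rw [this]
    exact Or.inr (Or.inl rfl)
  have hmeet : ∀ {a b f f' : G}, 1 ≤ a → 1 ≤ b → 1 ≤ f → 1 ≤ f' → a ⊓ f = 1 → b ⊓ f' = 1 →
      (a * b) ⊓ (f ⊓ f') = 1 := by
    intro a b f f' ha hb hf hf' h1 h2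
    apply le_antisymm
    · calc (a * b) ⊓ (f ⊓ f') ≤ (a ⊓ (f ⊓ f')) * (b ⊓ (f ⊓ f')) :=
            mul_inf_le_aux ha hb (le_inf hf hf')
        _ ≤ (a ⊓ f) * (b ⊓ f') :=
            mul_le_mul' (inf_le_inf_left _ inf_le_left) (inf_le_inf_left _ inf_le_right)
        _ = 1 := by rw [h1, h2, one_mul]
    · refine le_inf ?_ (le_inf hf hf')
      calc (1:G) = 1 * 1 := (one_mul 1).symm
        _ ≤ a * b := mul_le_mul' ha hb
  have hdown : ∀ {a b f : G}, 1 ≤ a → a ≤ b → 1 ≤ f → b ⊓ f = 1 → a ⊓ f = 1 := by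
    intro a b f ha hab hf h
    exact le_antisymm ((inf_le_inf_right f hab).trans h.le) (le_inf ha hf)
  let Q : Subgroup G :=
    { carrier := {x | ∃ f ∈ F, (x ⊔ 1) ⊓ f = 1 ∧ (x⁻¹ ⊔ 1) ⊓ f = 1}
      mul_mem' := by
        rintro x y ⟨f, hf, h1, h2⟩ ⟨f', hf', h3, h4⟩
        have hff := le_inf (hF1 f hf) (hF1 f' hf')
        refine ⟨f ⊓ f', hF3 f hf f' hf', ?_, ?_⟩
        · refine hdown le_sup_right ?_ hff
            (hmeet le_sup_right le_sup_right (hF1 f hf) (hF1 f' hf') h1 h3)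
          apply sup_le
          · exact mul_le_mul' le_sup_left le_sup_left
          · calc (1:G) = 1 * 1 := (one_mul 1).symm
              _ ≤ _ := mul_le_mul' le_sup_right le_sup_right
        · rw [inf_comm f f'] at hff ⊢
          refine hdown le_sup_right ?_ hff
            (hmeet le_sup_right le_sup_right (hF1 f' hf') (hF1 f hf) h4 h2)
          apply sup_le
          · rw [mul_inv_rev]
            exact mul_le_mul' le_sup_left le_sup_left
          · calc (1:G) = 1 * 1 := (one_mul 1).symm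
              _ ≤ _ := mul_le_mul' le_sup_right le_sup_right
      one_mem' := ⟨g, hgF', by simp [hg], by simp [hg]⟩
      inv_mem' := by
        rintro x ⟨f, hf, h1, h2⟩
        exact ⟨f, hf, h2, by rw [inv_inv]; exact h1⟩ }
  have hposQ : ∀ {y : G}, 1 ≤ y → ∀ {f : G}, f ∈ F → y ⊓ f = 1 → y ∈ Q := by
    intro y hy f hf h
    refine ⟨f, hf, ?_, ?_⟩
    · rw [sup_eq_left.mpr hy]; exact h
    · rw [sup_eq_right.mpr (inv_le_one'.mpr hy)]
      exact inf_eq_left.mpr (hF1 f hf)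
  refine ⟨Q, ⟨⟨?_, ?_⟩, ?_⟩, ?_⟩
  · rintro x ⟨f, hf, h1, h2⟩
    exact hposQ le_sup_right hf h1
  · rintro x ⟨f, hf, h1, h2⟩ y hy hyx
    exact hposQ hy hf (hdown hy (hyx.trans le_sup_left) (hF1 f hf) h1)
  · intro x
    rcases hmax (x ⊔ 1) le_sup_right with h | ⟨f, hf, h⟩
    · right
      exact hposQ le_sup_right h (by rw [inf_comm]; exact inf_pos_neg x)
    · left
      exact hposQ le_sup_right hf h
  · rintro ⟨f, hf, h1, h2⟩
    apply hF2
    rw [sup_eq_left.mpr hg] at h1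
    rw [← h1]
    exact hF3 g hgF' f hf

/-- if `a ≰ b` then some prime witnesses it -/
theorem exists_prime_not_leQ {a b : G} (h : ¬ a ≤ b) : ∃ Q : Subgroup G, IsPrm Q ∧ ¬ leQ Q a b := by
  have h1 : b⁻¹ * a ⊔ 1 ≠ 1 := by
    intro h2
    apply h
    have : b⁻¹ * a ≤ 1 := sup_eq_right.mp h2
    simpa using inv_mul_le_iff_le_mul.mp this
  obtain ⟨Q, hQ, hn⟩ := exists_prime_pos le_sup_right h1
  exact ⟨Q, hQ, hn⟩

theorem exists_prime_ne {a b : G} (h : a ≠ b) : ∃ Q : Subgroup G, IsPrm Q ∧ a⁻¹ * b ∉ Q := by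
  by_cases h1 : a ≤ b
  · have h2 : ¬ b ≤ a := fun h2 => h (le_antisymm h1 h2)
    obtain ⟨Q, hQ, hn⟩ := exists_prime_not_leQ h2
    exact ⟨Q, hQ, fun hm => hn (leQ_of_mem' hQ.toIsCvx hm)⟩
  · obtain ⟨Q, hQ, hn⟩ := exists_prime_not_leQ h1
    exact ⟨Q, hQ, fun hm => hn (leQ_of_mem hQ.toIsCvx hm)⟩

/-- Hölder map on the cover of a value in a normal-valued group. -/
theorem exists_holder (law : NV G) {Q : Subgroup G} (hQ : IsPrm Q) {c : G} (hc : c ∉ Q) :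
    ∃ φ : G → ℝ, (∀ x ∈ cv Q c, ∀ y ∈ cv Q c, φ (x * y) = φ x + φ y) ∧
      ∀ x ∈ cv Q c, (0 ≤ φ x ↔ x⁻¹ ⊔ 1 ∈ vl Q c) := by
  classical
  have hM : IsPrm (vl Q c) := vl_prm hQ hc
  have hMN : vl Q c ≤ cv Q c := vl_le_cv hQ hc
  let C : Set (cv Q c) := {x | (x : G)⁻¹ ⊔ 1 ∈ vl Q c}
  have hC : ∀ x : cv Q c, x ∈ C ↔ leQ (vl Q c) 1 (x : G) := by
    intro x
    simp [C, leQ]
  obtain ⟨φ, h1, h2⟩ := holder_cone C (by
      intro x hx y hy
      rw [hC] at hx hy ⊢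
      have : leQ (vl Q c) ((x:G) * 1) ((x:G) * y) := (leQ_mul_left _ _ _).mpr hy
      rw [mul_one] at this
      exact leQ_trans hM.toIsCvx hx this) (by
      intro x
      rcases hM.prime (x : G) with h | h
      · right
        simpa [C] using h
      · left; exact h) (by
      intro x hx g
      rw [hC] at hx ⊢
      obtain ⟨q, hq, h⟩ := (leQ_iff hM.toIsCvx).mp hx
      refine (leQ_iff hM.toIsCvx).mpr ⟨(g:G) * q * (g:G)⁻¹, nv_normal law hQ hc g.2 hq, ?_⟩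
      have : (g:G) * 1 * (g:G)⁻¹ ≤ (g:G) * ((x:G) * q) * (g:G)⁻¹ := by gcongr
      have e : (g:G) * ((x:G) * q) * (g:G)⁻¹ =
        ((g * x * g⁻¹ : cv Q c) : G) * ((g:G) * q * (g:G)⁻¹) := by
          push_cast
          group
      rw [e, mul_one, mul_inv_cancel] at this
      exact this) (by
      intro x hx hx' y
      -- x⁻¹ ∉ C : positive part of x not in M
      have hx1 : (x : G) ⊔ 1 ∉ vl Q c := by
        intro h
        apply hx'
        simpa [C] using h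
      have hxM : (x:G)⁻¹ ⊔ 1 ∈ vl Q c := hx
      obtain ⟨k, m, hm, h⟩ := nv_arch law hQ hc (y := (x:G) ⊔ 1) le_sup_right hx1 y.2
      refine ⟨k, ?_⟩
      rw [hC]
      -- y ≤ (x ⊔ 1)^k m, (x⊔1) = x * (x⁻¹ ⊔ 1)
      -- work with leQ : (x ⊔ 1)^k M = x^k M by normality
      have hpow : ∀ k : ℕ, ((x:G) ^ k)⁻¹ * ((x:G) ⊔ 1) ^ k ∈ vl Q c := by
        intro k
        induction k with
        | zero => simp
        | succ k ih =>
          have e1 : (x:G) ⊔ 1 = (x:G) * ((x:G)⁻¹ ⊔ 1) := by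
            rw [mul_sup, mul_inv_cancel, mul_one, sup_comm]
          have e : ((x:G) ^ (k+1))⁻¹ * ((x:G) ⊔ 1) ^ (k+1) =
            (x:G)⁻¹ * ((((x:G) ^ k)⁻¹ * ((x:G) ⊔ 1) ^ k)) * ((x:G)⁻¹)⁻¹ * ((x:G)⁻¹ * ((x:G) ⊔ 1)) := by
              rw [pow_succ, pow_succ]
              group
          rw [e]
          refine (vl Q c).mul_mem (nv_normal law hQ hc ((cv Q c).inv_mem x.2) ih) ?_
          rw [e1, inv_mul_cancel_left]
          exact hxM
      have h1 : leQ (vl Q c) (y:G) (((x:G) ⊔ 1) ^ k) := (leQ_iff hM.toIsCvx).mpr ⟨m, hm, h⟩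
      have h2 : leQ (vl Q c) (((x:G) ⊔ 1) ^ k) ((x:G) ^ k) := leQ_of_mem' hM.toIsCvx (hpow k)
      have h3 := leQ_trans hM.toIsCvx h1 h2
      -- now 1 ≤ x^k y⁻¹ mod M
      obtain ⟨q, hq, h4⟩ := (leQ_iff hM.toIsCvx).mp h3
      refine (leQ_iff hM.toIsCvx).mpr ⟨(y:G) * q * (y:G)⁻¹, nv_normal law hQ hc y.2 hq, ?_⟩
      have : (y:G) * (y:G)⁻¹ ≤ ((x:G) ^ k * q) * (y:G)⁻¹ := by gcongr
      rw [mul_inv_cancel] at this
      push_cast
      calc (1:G) ≤ ((x:G) ^ k * q) * (y:G)⁻¹ := this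
        _ = _ := by group)
  refine ⟨fun x => if h : x ∈ cv Q c then φ ⟨x, h⟩ else 0, ?_, ?_⟩
  · intro x hx y hy
    have hxy : x * y ∈ cv Q c := (cv Q c).mul_mem hx hy
    simp only [hx, hy, hxy, dif_pos]
    exact h1 ⟨x, hx⟩ ⟨y, hy⟩
  · intro x hx
    simp only [hx, dif_pos]
    exact h2 ⟨x, hx⟩

end Pool.Agent.Helper6.ZA
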