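import Pool.Agent.Helper6.ZA.Spread

/-!
Solvable varieties.
-/

set_option autoImplicit false
set_option linter.unusedSectionVars false

open scoped commutatorElement

namespace Pool.Agent.Helper6.ZA

/-- Renaming of variables. -/
def LTerm.ren (ρ : ℕ → ℕ) : LTerm → LTerm
  | .var n => .var (ρ n)
  | .one => .one
  | .mul s t => .mul (s.ren ρ) (t.ren ρ)
  | .inv s => .inv (s.ren ρ)
  | .sup s t => .sup (s.ren ρ) (t.ren ρ)
  | .inf s t => .inf (s.ren ρ) (t.ren ρ)

theorem LTerm.eval_ren {G : Type} [Group G] [Lattice G] (v : ℕ → G) (ρ : ℕ → ℕ) (t : LTerm) :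
    (t.ren ρ).eval v = t.eval (v ∘ ρ) := by
  induction t with
  | var n => rfl
  | one => rfl
  | mul s t hs ht => simp only [LTerm.ren, LTerm.eval, hs, ht]
  | inv s hs => simp only [LTerm.ren, LTerm.eval, hs]
  | sup s t hs ht => simp only [LTerm.ren, LTerm.eval, hs, ht]
  | inf s t hs ht => simp only [LTerm.ren, LTerm.eval, hs, ht]

/-- The words defining the derived series. -/
def dl : ℕ → LTerm
  | 0 => .var 0
  | n + 1 => .mul (.mul ((dl n).ren (fun k => 2 * k)) ((dl n).ren (fun k => 2 * k + 1)))
      (.mul (.inv ((dl n).ren (fun k => 2 * k))) (.inv ((dl n).ren (fun k => 2 * k + 1))))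

theorem dl_succ {G : Type} [Group G] [Lattice G] (n : ℕ) (v w : ℕ → G) :
    (dl (n + 1)).eval (fun k => if k % 2 = 0 then v (k / 2) else w (k / 2)) =
      ⁅(dl n).eval v, (dl n).eval w⁆ := by
  have e1 : ((fun k => if k % 2 = 0 then v (k / 2) else w (k / 2)) ∘ fun k => 2 * k) = v := by
    funext k
    simp
  have e2 : ((fun k => if k % 2 = 0 then v (k / 2) else w (k / 2)) ∘ fun k => 2 * k + 1) = w := by
    funext k
    have h1 : (2 * k + 1) % 2 = 1 := by omega
    have h2 : (2 * k + 1) / 2 = k := by omega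
    simp [h1, h2]
  simp only [dl, LTerm.eval, LTerm.eval_ren, e1, e2]
  rw [commutatorElement_def]
  group

theorem dl_mem {G : Type} [Group G] [Lattice G] (n : ℕ) : ∀ v : ℕ → G,
    (dl n).eval v ∈ derivedSeries G n := by
  induction n with
  | zero => intro v; exact Subgroup.mem_top _
  | succ n ih =>
    intro v
    have e : (fun k => if k % 2 = 0 then (fun j => v (2 * j)) (k / 2)
        else (fun j => v (2 * j + 1)) (k / 2)) = v := by
      funext k
      by_cases h : k % 2 = 0
      · have h2 : 2 * (k / 2) = k := by omega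
        simp [h, h2]
      · have h2 : 2 * (k / 2) + 1 = k := by omega
        simp [h, h2]
    have h3 := dl_succ (G := G) n (fun j => v (2 * j)) (fun j => v (2 * j + 1))
    rw [e] at h3
    rw [h3]
    exact Subgroup.commutator_mem_commutator (ih _) (ih _)

variable {E : Set (LTerm × LTerm)}

/-- Solvable varieties over which the integers can be amalgamated are abelian. -/
theorem solv_law (hZ : IsAmalgBase E (Multiplicative ℤ))
    (hs : ∃ n : ℕ, ∀ (G : Type) [Group G] [Lattice G], InVar E G → derivedSeries G n = ⊥)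
    (G : Type) [Group G] [Lattice G] (hG : InVar E G) (a b : G) : a * b = b * a := by
  classical
  have hex : ∃ n : ℕ, ∀ (G : Type) [Group G] [Lattice G], InVar E G → ∀ v : ℕ → G,
      (dl n).eval v = 1 := by
    obtain ⟨n, hn⟩ := hs
    refine ⟨n, fun G _ _ hG v => ?_⟩
    have := dl_mem n v
    rw [hn G hG] at this
    exact Subgroup.mem_bot.mp this
  have hmin := Nat.find_spec hex
  have hmin' := fun m (h : m < Nat.find hex) => Nat.find_min hex h
  generalize Nat.find hex = m at hmin hmin'
  cases m with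
  | zero =>
    have h1 := hmin G hG (fun _ => a)
    have h2 := hmin G hG (fun _ => b)
    simp only [dl, LTerm.eval] at h1 h2
    rw [h1, h2]
  | succ m =>
    have h1 := hmin' m (Nat.lt_succ_self m)
    push Not at h1
    obtain ⟨H, i1, i2, hH, v, hv⟩ := h1
    refine comm_law hZ (dl m) (dl m) ?_ ⟨H, i1, i2, hH, v, hv⟩ ⟨H, i1, i2, hH, v, hv⟩ G hG a b
    intro K _ _ hK v w
    have h2 := hmin K hK (fun k => if k % 2 = 0 then v (k / 2) else w (k / 2))
    rw [dl_succ, commutatorElement_eq_one_iff_mul_comm] at h2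
    exact h2

end Pool.Agent.Helper6.ZA
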