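import Pool.Agent.Helper6.ZA.Chain
import Pool.Agent.Helper6.ZA.Spread

/-!
The wreath power `W (n + 1)` as a wreath product of `W n` by the reals.
-/

set_option autoImplicit false
set_option linter.unusedSectionVars false

namespace Pool.Agent.Helper6.ZA

variable {n : ℕ}

/-- Prepending a coordinate. -/
def cns (r : ℝ) (x : Lex (Fin n → ℝ)) : Lex (Fin (n + 1) → ℝ) :=
  toLex (Fin.cons r (ofLex x) : Fin (n + 1) → ℝ)

@[simp] theorem cns_zero (r : ℝ) (x : Lex (Fin n → ℝ)) : cns r x 0 = r := rfl
@[simp] theorem cns_succ (r : ℝ) (x : Lex (Fin n → ℝ)) (k : Fin n) : cns r x k.succ = x k := rfl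

theorem cns_inj {r r' : ℝ} {x x' : Lex (Fin n → ℝ)} (h : cns r x = cns r' x') :
    r = r' ∧ x = x' :=
  ⟨congrFun h 0, funext fun k => congrFun h k.succ⟩

theorem exists_cns (y : Lex (Fin (n + 1) → ℝ)) : ∃ x : Lex (Fin n → ℝ), y = cns (y 0) x := by
  refine ⟨toLex (fun k => y k.succ), ?_⟩
  funext k
  refine Fin.cases ?_ (fun k => ?_) k
  · rfl
  · rfl

theorem cns_lt_of {r r' : ℝ} (h : r < r') (x x' : Lex (Fin n → ℝ)) : cns r x < cns r' x' :=
  lex_lt_iff.mpr ⟨0, fun i hi => absurd hi (by simp), h⟩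

theorem agr_cns {r : ℝ} {x y : Lex (Fin n → ℝ)} {k : ℕ} (h : Agr k x y) :
    Agr (k + 1) (cns r x) (cns r y) := by
  intro i hi
  revert hi
  refine Fin.cases ?_ (fun j => ?_) i
  · intro _; rfl
  · intro hj
    rw [Fin.val_succ] at hj
    exact h j (by omega)

theorem cns_lt {r : ℝ} {x y : Lex (Fin n → ℝ)} (h : x < y) : cns r x < cns r y := by
  obtain ⟨k, h1, h2⟩ := lex_lt_iff.mp h
  refine lex_lt_iff.mpr ⟨k.succ, ?_, h2⟩
  rw [Fin.val_succ]
  exact agr_cns h1

theorem cns_le {r : ℝ} {x y : Lex (Fin n → ℝ)} (h : x ≤ y) : cns r x ≤ cns r y := by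
  rcases h.eq_or_lt with h | h
  · rw [h]
  · exact (cns_lt h).le

theorem cns_max (r : ℝ) (x y : Lex (Fin n → ℝ)) : cns r (max x y) = max (cns r x) (cns r y) := by
  rcases le_total x y with h | h
  · rw [max_eq_right h, max_eq_right (cns_le h)]
  · rw [max_eq_left h, max_eq_left (cns_le h)]

/-- The top translation. -/
noncomputable def top (f : W (n + 1)) : ℝ := f (toLex fun _ => 0) 0

theorem top_spec (f : W (n + 1)) (y : Lex (Fin (n + 1) → ℝ)) : f y 0 = y 0 + top f := by
  have := f.isW 0 y (toLex fun _ => 0) (fun i hi => absurd hi (by simp))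
  have e : ((toLex fun _ => (0 : ℝ)) : Lex (Fin (n + 1) → ℝ)) 0 = 0 := rfl
  rw [e] at this
  unfold top
  linarith

theorem exists_fib (f : W (n + 1)) (r : ℝ) : ∃ g : W n, ∀ x, f (cns r x) = cns (r + top f) (g x) := by
  obtain ⟨g, hg⟩ := exists_W (n := n) (fun k x => f (cns r x) k.succ - x k) (by
    intro k x y h
    have h1 := f.isW k.succ (cns r x) (cns r y) (by rw [Fin.val_succ]; exact agr_cns h)
    simpa using h1)
  refine ⟨g, fun x => ?_⟩
  funext k
  refine Fin.cases ?_ (fun k => ?_) k
  · rw [top_spec, cns_zero, cns_zero]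
  · rw [cns_succ, hg]; ring

/-- The fibre of `f` over `r`. -/
noncomputable def fib (f : W (n + 1)) (r : ℝ) : W n := (exists_fib f r).choose

theorem fib_spec (f : W (n + 1)) (r : ℝ) (x : Lex (Fin n → ℝ)) :
    f (cns r x) = cns (r + top f) (fib f r x) := (exists_fib f r).choose_spec x

theorem fib_unique {f : W (n + 1)} {r : ℝ} {a : ℝ} {g : W n}
    (h : ∀ x, f (cns r x) = cns (r + a) (g x)) : top f = a ∧ fib f r = g := by
  constructor
  · have h1 := (cns_inj ((fib_spec f r (toLex fun _ => 0)).symm.trans (h _))).1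
    linarith
  · apply CG.ext
    intro x
    exact (cns_inj ((fib_spec f r x).symm.trans (h x))).2

theorem w_ext {f g : W (n + 1)} (h1 : top f = top g) (h2 : ∀ r, fib f r = fib g r) : f = g := by
  apply CG.ext
  intro y
  obtain ⟨x, hx⟩ := exists_cns y
  rw [hx, fib_spec, fib_spec, h1, h2]

theorem mul_tf (f g : W (n + 1)) (r : ℝ) :
    top (f * g) = top f + top g ∧ fib (f * g) r = fib f (r + top g) * fib g r := by
  have := fib_unique (f := f * g) (r := r) (a := top f + top g)
    (g := fib f (r + top g) * fib g r) (by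
      intro x
      rw [CG.mul_apply, fib_spec, fib_spec, CG.mul_apply]
      congr 1
      ring)
  exact this

theorem top_mul (f g : W (n + 1)) : top (f * g) = top f + top g := (mul_tf f g 0).1
theorem fib_mul (f g : W (n + 1)) (r : ℝ) : fib (f * g) r = fib f (r + top g) * fib g r :=
  (mul_tf f g r).2

theorem one_tf (r : ℝ) : top (1 : W (n + 1)) = 0 ∧ fib (1 : W (n + 1)) r = 1 := by
  apply fib_unique
  intro x
  rw [CG.one_apply, CG.one_apply, add_zero]

theorem top_one : top (1 : W (n + 1)) = 0 := (one_tf 0).1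
theorem fib_one (r : ℝ) : fib (1 : W (n + 1)) r = 1 := (one_tf r).2

theorem top_inv (f : W (n + 1)) : top f⁻¹ = - top f := by
  have := top_mul f f⁻¹
  rw [mul_inv_cancel, top_one] at this
  linarith

theorem fib_inv (f : W (n + 1)) (r : ℝ) : fib f⁻¹ r = (fib f (r - top f))⁻¹ := by
  have := fib_mul f f⁻¹ r
  rw [mul_inv_cancel, fib_one, top_inv, ← sub_eq_add_neg] at this
  exact (inv_eq_of_mul_eq_one_right this.symm).symm

/-- The join with the identity. -/
theorem sup_one_pos {f : W (n + 1)} (h : 0 < top f) : f ⊔ 1 = f := by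
  apply sup_eq_left.mpr
  intro y
  obtain ⟨x, hx⟩ := exists_cns y
  rw [CG.one_apply, hx, fib_spec]
  exact (cns_lt_of (by linarith) _ _).le

theorem sup_one_neg {f : W (n + 1)} (h : top f < 0) : f ⊔ 1 = 1 := by
  apply sup_eq_right.mpr
  intro y
  obtain ⟨x, hx⟩ := exists_cns y
  rw [CG.one_apply, hx, fib_spec]
  exact (cns_lt_of (by linarith) _ _).le

theorem sup_one_zero {f : W (n + 1)} (h : top f = 0) (r : ℝ) :
    top (f ⊔ 1) = 0 ∧ fib (f ⊔ 1) r = fib f r ⊔ 1 := by
  apply fib_unique
  intro x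
  rw [CG.sup_apply, CG.sup_apply, CG.one_apply, CG.one_apply, fib_spec, h, add_zero, cns_max]

/-- A strong unit. -/
theorem exists_unit (n : ℕ) : ∃ u : W n, 1 ≤ u ∧ ∀ g : W n, ∃ k : ℕ, g ≤ u ^ k := by
  cases n with
  | zero =>
    refine ⟨1, le_rfl, fun g => ⟨0, ?_⟩⟩
    intro x
    apply le_of_eq
    funext i
    exact absurd i.2 (by simp)
  | succ n =>
    obtain ⟨u, hu⟩ := exists_W (n := n + 1) (fun k _ => if k = 0 then 1 else 0)
      (fun _ _ _ _ => rfl)
    have htop : top u = 1 := by
      have := hu (toLex fun _ => 0) 0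
      unfold top
      rw [this]
      simp
    have htopk : ∀ k : ℕ, top (u ^ k) = k := by
      intro k
      induction k with
      | zero => rw [pow_zero, top_one]; simp
      | succ k ih => rw [pow_succ, top_mul, ih, htop]; push_cast; ring
    have hle : ∀ f g : W (n + 1), top f < top g → f ≤ g := by
      intro f g h y
      obtain ⟨x, hx⟩ := exists_cns y
      rw [hx, fib_spec, fib_spec]
      exact (cns_lt_of (by linarith) _ _).le
    refine ⟨u, ?_, ?_⟩
    · apply hle
      rw [top_one, htop]; norm_num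
    · intro g
      obtain ⟨k, hk⟩ := exists_nat_gt (top g)
      exact ⟨k, hle _ _ (by rw [htopk]; exact hk)⟩

/-- Elements of `W (n + 1)` from a translation and fibres. -/
theorem exists_of_fib (a : ℝ) (g : ℝ → W n) : ∃ f : W (n + 1), top f = a ∧ ∀ r, fib f r = g r := by
  obtain ⟨f, hf⟩ := exists_W (n := n + 1)
    (fun k y => Fin.cases (motive := fun _ => ℝ) a
      (fun j => g (y 0) (toLex fun l => y l.succ) j - y j.succ) k) (by
      intro k
      refine Fin.cases ?_ (fun k => ?_) k
      · intro y z _; rfl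
      · intro y z h
        simp only [Fin.cases_succ]
        have h0 : y 0 = z 0 := h 0 (by simp)
        rw [h0]
        have h1 : Agr k (toLex fun l : Fin n => y l.succ) (toLex fun l : Fin n => z l.succ) := by
          intro i hi
          exact h i.succ (by simpa using hi)
        exact (g (z 0)).isW k _ _ h1)
  have key : ∀ r x, f (cns r x) = cns (r + a) (g r x) := by
    intro r x
    funext k
    rw [hf]
    refine Fin.cases ?_ (fun k => ?_) k
    · rfl
    · simp only [Fin.cases_succ, cns_succ, cns_zero]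
      change x k + (g r x k - x k) = g r x k
      ring
  exact ⟨f, (fib_unique (key 0)).1, fun r => (fib_unique (key r)).2⟩

end Pool.Agent.Helper6.ZA
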