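import Pool.Agent.Helper6.ZA.WStep
import Pool.Agent.Helper6.ZA.Forw
import Pool.Agent.Helper6.ZA.Hol3

/-!
Non-representable varieties of ℓ-groups over which the integers can be amalgamated.
-/

set_option autoImplicit false
set_option linter.unusedSectionVars false
set_option linter.style.haveILetI false

open Filter

namespace Pool.Agent.Helper6.ZA

variable {E : Set (LTerm × LTerm)}

theorem w_step (hZ : IsAmalgBase E (Multiplicative ℤ)) {G0 : Type} [Group G0] [Lattice G0]
    (hG0 : InVar E G0) (hrep : ¬ IsRepresentable G0) {n : ℕ} (hW : InVar E (W n)) :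
    InVar E (W (n + 1)) := by
  classical
  obtain ⟨u0, hu0, hunit0⟩ := exists_unit n
  have hG : InVar E (W n × Multiplicative ℤ) := hW.prod hZ.1
  haveI := hG.lgroup.mulLeftMono
  haveI := hG.lgroup.mulRightMono
  set u : W n × Multiplicative ℤ := (u0, Multiplicative.ofAdd 1) with hu
  have hz1 : (1 : Multiplicative ℤ) < Multiplicative.ofAdd 1 := by
    change (0 : ℤ) < 1
    norm_num
  have hu1 : 1 < u := by
    refine lt_of_le_of_ne ⟨hu0, hz1.le⟩ ?_
    intro h
    exact hz1.ne (congrArg Prod.snd h)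
  have hunit : ∀ g : W n × Multiplicative ℤ, ∃ k : ℕ, g ≤ u ^ k := by
    rintro ⟨g, m⟩
    obtain ⟨k, hk⟩ := hunit0 g
    refine ⟨k + (Multiplicative.toAdd m).natAbs, ?_, ?_⟩
    · change g ≤ u0 ^ (k + (Multiplicative.toAdd m).natAbs)
      exact hk.trans (npow_mono hu0 (by omega))
    · change m ≤ (Multiplicative.ofAdd 1) ^ (k + (Multiplicative.toAdd m).natAbs)
      rw [← ofAdd_nsmul]
      change Multiplicative.toAdd m ≤ (k + (Multiplicative.toAdd m).natAbs) • (1 : ℤ)
      rw [nsmul_eq_mul, mul_one]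
      push_cast
      have := le_abs_self (Multiplicative.toAdd m)
      have h2 : (0 : ℤ) ≤ k := Int.natCast_nonneg k
      omega
  choose χ hadd hmono using exists_chi
  let K : Finset ℝ → ℕ := fun S => ∑ a ∈ S, 2 * (χ S a).natAbs
  have hK : ∀ S : Finset ℝ, ∀ a ∈ S, ∀ b ∈ S, (χ S a - χ S b).natAbs ≤ K S := by
    intro S a ha b hb
    have h1 : 2 * (χ S a).natAbs ≤ K S :=
      Finset.single_le_sum (f := fun a => 2 * (χ S a).natAbs) (fun _ _ => Nat.zero_le _) ha
    have h2 : 2 * (χ S b).natAbs ≤ K S :=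
      Finset.single_le_sum (f := fun a => 2 * (χ S a).natAbs) (fun _ _ => Nat.zero_le _) hb
    omega
  have hmem : ∀ S : Finset ℝ, ∀ a ∈ S, a ∈ Submodule.span ℤ (S : Set ℝ) :=
    fun S a ha => Submodule.subset_span ha
  have hzero : ∀ S : Finset ℝ, χ S 0 = 0 := by
    intro S
    have := hadd S 0 (Submodule.zero_mem _) 0 (Submodule.zero_mem _)
    rw [add_zero] at this
    omega
  choose D i1 i2 hD ι t hι hP using fun S => spread hZ hG0 hrep (K S) hG hu1
  have hml : ∀ S, MulLeftMono (D S) := fun S => (hD S).lgroup.mulLeftMono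
  have hmr : ∀ S, MulRightMono (D S) := fun S => (hD S).lgroup.mulRightMono
  -- the fibres
  let fb : W (n + 1) → ℝ → W n × Multiplicative ℤ := fun f r => (fib f r, 1)
  have fb_mul : ∀ f g r, fb (f * g) r = fb f (r + top g) * fb g r := by
    intro f g r
    exact Prod.ext (fib_mul f g r) (by simp [fb])
  have fb_inv : ∀ f r, fb f⁻¹ r = (fb f (r - top f))⁻¹ := by
    intro f r
    exact Prod.ext (fib_inv f r) (by simp [fb])
  have fb_one : ∀ r, fb 1 r = 1 := fun r => Prod.ext (fib_one r) rfl
  let R : (∀ S, D S) → W (n + 1) → Prop := fun p f =>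
    ∀ r, ∀ᶠ S in atTop, Loc (hP S) (χ S r) (χ S (top f)) (p S) (fb f r)
  have R_one : R 1 1 := by
    intro r
    filter_upwards with S
    rw [top_one, hzero, fb_one]
    exact Loc.one (hι S)
  have R_mul : ∀ p q f g, R p f → R q g → R (p * q) (f * g) := by
    intro p q f g h1 h2 r
    filter_upwards [h1 (r + top g), h2 r, eventually_ge_atTop ({r, top g, top f} : Finset ℝ)]
      with S h3 h4 h5
    have m1 := hmem S r (h5 (by simp))
    have m2 := hmem S (top g) (h5 (by simp))
    have m3 := hmem S (top f) (h5 (by simp))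
    rw [hadd S _ m1 _ m2] at h3
    rw [top_mul, hadd S _ m3 _ m2, fb_mul]
    exact Loc.mul (hι S) hunit h3 h4
  have R_inv : ∀ p f, R p f → R p⁻¹ f⁻¹ := by
    intro p f h1 r
    filter_upwards [h1 (r - top f), eventually_ge_atTop ({r, top f} : Finset ℝ)] with S h3 h5
    have m1 := hmem S r (h5 (by simp))
    have m2 := hmem S (top f) (h5 (by simp))
    have e1 : χ S (r - top f) = χ S r - χ S (top f) := by
      have := hadd S (r - top f) (Submodule.sub_mem _ m1 m2) (top f) m2
      rw [sub_add_cancel] at this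
      omega
    have e2 : χ S (-top f) = - χ S (top f) := by
      have := hadd S (-top f) (Submodule.neg_mem _ m2) (top f) m2
      rw [neg_add_cancel, hzero] at this
      omega
    rw [e1] at h3
    rw [top_inv, e2, fb_inv]
    exact Loc.inv (hι S) hunit h3
  have R_sup1 : ∀ p f, R p f → R (p ⊔ 1) (f ⊔ 1) := by
    intro p f h1 r
    rcases lt_trichotomy (top f) 0 with h | h | h
    · filter_upwards [h1 r, eventually_ge_atTop ({r, top f, 0} : Finset ℝ)] with S h3 h5
      have h6 := hmono S (top f) (h5 (by simp)) 0 (h5 (by simp)) h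
      rw [hzero] at h6
      have h7 := hK S (top f) (h5 (by simp)) 0 (h5 (by simp))
      rw [hzero] at h7
      rw [sup_one_neg h, top_one, hzero, fb_one]
      exact Loc.sup_neg (hι S) hunit h3 (by omega) (by push_cast; omega)
    · filter_upwards [h1 r] with S h3
      have h8 := sup_one_zero h r
      have h9 : fb (f ⊔ 1) r = fb f r ⊔ 1 := Prod.ext h8.2 (by simp [fb])
      rw [h, hzero] at h3
      rw [h8.1, hzero, h9]
      exact Loc.sup_zero (hι S) h3
    · filter_upwards [h1 r, eventually_ge_atTop ({r, top f, 0} : Finset ℝ)] with S h3 h5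
      have h6 := hmono S 0 (h5 (by simp)) (top f) (h5 (by simp)) h
      rw [hzero] at h6
      have h7 := hK S (top f) (h5 (by simp)) 0 (h5 (by simp))
      rw [hzero] at h7
      rw [sup_one_pos h]
      exact Loc.sup_pos (hι S) hunit h3 (by omega) (by push_cast; omega)
  have R_sup : ∀ p q f g, R p f → R q g → R (p ⊔ q) (f ⊔ g) := by
    intro p q f g h1 h2
    have e1 : p ⊔ q = (p * q⁻¹ ⊔ 1) * q := by
      funext S
      change p S ⊔ q S = (p S * (q S)⁻¹ ⊔ 1) * q S
      rw [sup_mul, inv_mul_cancel_right, one_mul]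
    have e2 : f ⊔ g = (f * g⁻¹ ⊔ 1) * g := by
      rw [sup_mul, inv_mul_cancel_right, one_mul]
    rw [e1, e2]
    exact R_mul _ _ _ _ (R_sup1 _ _ (R_mul _ _ _ _ h1 (R_inv _ _ h2))) h2
  have R_inf : ∀ p q f g, R p f → R q g → R (p ⊓ q) (f ⊓ g) := by
    intro p q f g h1 h2
    have e1 : p ⊓ q = (p⁻¹ ⊔ q⁻¹)⁻¹ := by
      funext S
      change p S ⊓ q S = ((p S)⁻¹ ⊔ (q S)⁻¹)⁻¹
      rw [inv_sup, inv_inv, inv_inv]
    have e2 : f ⊓ g = (f⁻¹ ⊔ g⁻¹)⁻¹ := by rw [inv_sup, inv_inv, inv_inv]
    rw [e1, e2]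
    exact R_inv _ _ (R_sup _ _ _ _ (R_inv _ _ h1) (R_inv _ _ h2))
  refine relHSP (ι := Finset ℝ) D hD (W (n + 1)) isLGroup_of R R_one R_mul R_inv R_sup R_inf ?_ ?_
  · -- totality
    intro f
    refine ⟨fun S => (t S) ^ (χ S (top f)) *
      (S.toList.map (fun r => (t S) ^ (χ S r) * ι S (fb f r) * (t S) ^ (-(χ S r)))).prod, ?_⟩
    intro r
    filter_upwards [eventually_ge_atTop ({r, top f, 0} : Finset ℝ)] with S h5
    unfold Loc
    have e1 : (t S) ^ (-(χ S r + χ S (top f))) * ((t S) ^ (χ S (top f)) *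
        (S.toList.map (fun r => (t S) ^ (χ S r) * ι S (fb f r) * (t S) ^ (-(χ S r)))).prod) *
        (t S) ^ (χ S r) = cn ((t S) ^ (χ S r))
        (S.toList.map (fun r => (t S) ^ (χ S r) * ι S (fb f r) * (t S) ^ (-(χ S r)))).prod := by
      unfold cn
      have : -(χ S r + χ S (top f)) = -(χ S r) + -(χ S (top f)) := by ring
      rw [this]
      group
    rw [e1, cn_prod]
    refine loc_prod (hP := hP S) (hι S) hunit _ r _ _ (Finset.nodup_toList S)
      (Finset.mem_toList.mpr (h5 (by simp))) ?_ ?_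
    · unfold cn; group
    · intro r' hr' hne
      rw [Finset.mem_toList] at hr'
      have hrS : r ∈ S := h5 (by simp)
      have hb := hK S r hrS r' hr'
      have e2 : cn ((t S) ^ (χ S r)) ((t S) ^ (χ S r') * ι S (fb f r') * (t S) ^ (-(χ S r'))) =
          cn ((t S) ^ (χ S r - χ S r')) (ι S (fb f r')) := by
        unfold cn
        rw [zpow_sub]
        group
      rw [e2]
      rcases lt_or_gt_of_ne hne with h | h
      · have h6 := hmono S r' hr' r hrS h
        obtain ⟨m, hm⟩ := Int.eq_ofNat_of_zero_le (show 0 ≤ χ S r - χ S r' by omega)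
        rw [hm, zpow_natCast]
        exact (loc_conj (hι S) hunit (hP S) (fb f r') (by omega) (by omega)).1
      · have h6 := hmono S r hrS r' hr' h
        obtain ⟨m, hm⟩ := Int.eq_ofNat_of_zero_le (show 0 ≤ -(χ S r - χ S r') by omega)
        have hm' : χ S r - χ S r' = -(m : ℤ) := by omega
        rw [hm', zpow_neg, zpow_natCast]
        exact (loc_conj (hι S) hunit (hP S) (fb f r') (by omega) (by omega)).2
  · -- uniqueness
    intro p f g h1 h2
    have hkey : ∀ r, top f = top g ∧ fb f r = fb g r := by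
      intro r
      obtain ⟨S, h3, h4, h5⟩ := ((h1 r).and ((h2 r).and
        (eventually_ge_atTop ({r, top f, top g} : Finset ℝ)))).exists
      have hf : top f ∈ S := h5 (by simp)
      have hg : top g ∈ S := h5 (by simp)
      have hb := hK S _ hf _ hg
      obtain ⟨h6, h7⟩ := Loc.unique (hι S) hunit h3 h4 (by omega)
      refine ⟨?_, h7⟩
      rcases lt_trichotomy (top f) (top g) with h | h | h
      · have := hmono S _ hf _ hg h; omega
      · exact h
      · have := hmono S _ hg _ hf h; omega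
    exact w_ext (hkey 0).1 (fun r => congrArg Prod.fst (hkey r).2)

/-- The variety contains all the wreath powers. -/
theorem w_all (hZ : IsAmalgBase E (Multiplicative ℤ)) {G0 : Type} [Group G0] [Lattice G0]
    (hG0 : InVar E G0) (hrep : ¬ IsRepresentable G0) (n : ℕ) : InVar E (W n) := by
  induction n with
  | zero =>
    refine ⟨isLGroup_of, ?_⟩
    intro e _ v
    apply CG.ext
    intro x
    funext k
    exact absurd k.2 (by simp)
  | succ n ih => exact w_step hZ hG0 hrep ih

theorem nv_iff {G : Type} [Group G] [Lattice G] : IsNormalValued G ↔ NV G := by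
  unfold IsNormalValued NV
  simp only [pow_two]

/-- **Main theorem.** -/
theorem nonrep_main (hZ : IsAmalgBase E (Multiplicative ℤ)) {G0 : Type} [Group G0] [Lattice G0]
    (hG0 : InVar E G0) (hrep : ¬ IsRepresentable G0) :
    (∀ (G : Type) [Group G] [Lattice G], IsLGroup G → (InVar E G ↔ IsNormalValued G)) ∨
    (∀ (G : Type) [Group G] [Lattice G], IsLGroup G → InVar E G) := by
  by_cases h : ∃ (G : Type) (_ : Group G) (_ : Lattice G), InVar E G ∧ ¬ IsNormalValued G
  · right
    obtain ⟨G, i1, i2, hG, hnv⟩ := h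
    intro K _ _ hK
    exact holland hG (by rwa [nv_iff] at hnv) K hK
  · left
    intro G _ _ hL
    constructor
    · intro hG
      by_contra hnv
      exact h ⟨G, inferInstance, inferInstance, hG, hnv⟩
    · intro hnv
      haveI := hL.mulLeftMono
      haveI := hL.mulRightMono
      exact nv_mem_of_W (w_all hZ hG0 hrep) (nv_iff.mp hnv)

end Pool.Agent.Helper6.ZA
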