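import Pool.Agent.Helper6.ZA.Local
import Pool.Agent.Helper6.ZA.Chi
import Pool.Agent.Helper6.ZA.WFib

/-!
The variety contains all the wreath powers `W n`.
-/

set_option autoImplicit false
set_option linter.unusedSectionVars false
set_option linter.style.haveILetI false

open Filter

namespace Pool.Agent.Helper6.ZA

section Loc

variable {G D : Type} [Group G] [Lattice G] [MulLeftMono G] [MulRightMono G]
  [Group D] [Lattice D] [MulLeftMono D] [MulRightMono D]
  {i : G → D} {u : G} {t : D} {K : ℕ}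

/-- `d` looks locally, at the position `c`, like `t ^ a` times the element `g`. -/
def Loc (hP : Phi (K + 1) (i u) t) (c a : ℤ) (d : D) (g : G) : Prop :=
  (i g)⁻¹ * (t ^ (-(c + a)) * d * t ^ c) ∈ polar (i u) hP.pos.le

variable (hi : IsLEmb i) (hunit : ∀ g : G, ∃ k : ℕ, g ≤ u ^ k)
  {hP : Phi (K + 1) (i u) t}

include hi hunit

theorem Loc.mul {a b c : ℤ} {d d' : D} {g g' : G} (h : Loc hP (c + b) a d g)
    (h' : Loc hP c b d' g') : Loc hP c (a + b) (d * d') (g * g') := by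
  unfold Loc at h h' ⊢
  have h1 := loc_norm hi hunit hP g' h
  have h2 := (polar (i u) hP.pos.le).mul_mem h1 h'
  have e : (i (g * g'))⁻¹ * (t ^ (-(c + (a + b))) * (d * d') * t ^ c) =
      (i g')⁻¹ * ((i g)⁻¹ * (t ^ (-(c + b + a)) * d * t ^ (c + b))) * i g' *
        ((i g')⁻¹ * (t ^ (-(c + b)) * d' * t ^ c)) := by
    rw [hi.mul]
    have e1 : -(c + (a + b)) = -(c + b + a) := by ring
    rw [e1]
    group
  rw [e]; exact h2

theorem Loc.inv {a c : ℤ} {d : D} {g : G} (h : Loc hP (c - a) a d g) :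
    Loc hP c (-a) d⁻¹ g⁻¹ := by
  unfold Loc at h ⊢
  have h1 := (polar (i u) hP.pos.le).inv_mem (loc_norm hi hunit hP g⁻¹ h)
  have e : (i g⁻¹)⁻¹ * (t ^ (-(c + -a)) * d⁻¹ * t ^ c) =
      ((i g⁻¹)⁻¹ * ((i g)⁻¹ * (t ^ (-(c - a + a)) * d * t ^ (c - a))) * i g⁻¹)⁻¹ := by
    rw [hi.inv]
    have e1 : -(c - a + a) = -c := by ring
    rw [e1]
    group
  rw [e]; exact h1

omit hunit in
theorem Loc.one {c : ℤ} : Loc hP c 0 1 1 := by
  unfold Loc
  have e : (i 1)⁻¹ * (t ^ (-(c + 0)) * 1 * t ^ c) = 1 := by rw [hi.one]; group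
  rw [e]; exact Subgroup.one_mem _

theorem Loc.sup_pos {a c : ℤ} {d : D} {g : G} (h : Loc hP c a d g) (h1 : 1 ≤ a)
    (h2 : a ≤ (K + 1 : ℕ)) : Loc hP c a (d ⊔ 1) g := by
  unfold Loc at h ⊢
  obtain ⟨m, rfl⟩ := Int.eq_ofNat_of_zero_le (show 0 ≤ a by omega)
  have h3 := (loc_dom' hi hunit hP g (m := m) (by omega) (by omega)).2
  have h4 := sup_coset (polar_cvx hP.pos.le) (t ^ m)⁻¹ h
  rw [sup_eq_left.mpr h3] at h4
  have e : t ^ (-(c + (m : ℤ))) * (d ⊔ 1) * t ^ c =
      (t ^ (-(c + (m : ℤ))) * d * t ^ c) ⊔ (t ^ m)⁻¹ := by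
    rw [mul_sup, sup_mul]
    congr 1
    rw [mul_one, ← zpow_add, ← zpow_natCast, ← zpow_neg]
    congr 1
    ring
  rw [e]; exact h4

theorem Loc.sup_neg {a c : ℤ} {d : D} {g : G} (h : Loc hP c a d g) (h1 : 1 ≤ -a)
    (h2 : -a ≤ (K + 1 : ℕ)) : Loc hP c 0 (d ⊔ 1) 1 := by
  unfold Loc at h ⊢
  obtain ⟨m, hm⟩ := Int.eq_ofNat_of_zero_le (show 0 ≤ -a by omega)
  have ha : a = -(m : ℤ) := by omega
  subst ha
  have h3 := (loc_dom' hi hunit hP g (m := m) (by omega) (by omega)).1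
  have h5 : ((t ^ m)⁻¹ * i g)⁻¹ * (t ^ (-c) * d * t ^ c) ∈ polar (i u) hP.pos.le := by
    have e : ((t ^ m)⁻¹ * i g)⁻¹ * (t ^ (-c) * d * t ^ c) =
        (i g)⁻¹ * (t ^ (-(c + -(m : ℤ))) * d * t ^ c) := by
      have e1 : -(c + -(m : ℤ)) = (m : ℤ) + -c := by ring
      rw [e1, zpow_add, zpow_natCast]
      group
    rw [e]; exact h
  have h4 := sup_coset (polar_cvx hP.pos.le) 1 h5
  have h6 : (t ^ m)⁻¹ * i g ≤ 1 := by rw [inv_mul_le_iff_le_mul, mul_one]; exact h3
  rw [sup_eq_right.mpr h6] at h4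
  have e : t ^ (-(c + 0)) * (d ⊔ 1) * t ^ c = (t ^ (-c) * d * t ^ c) ⊔ 1 := by
    rw [mul_sup, sup_mul, add_zero]
    congr 1
    group
  rw [e, hi.one]; exact h4

omit hunit in
theorem Loc.sup_zero {c : ℤ} {d : D} {g : G} (h : Loc hP c 0 d g) :
    Loc hP c 0 (d ⊔ 1) (g ⊔ 1) := by
  unfold Loc at h ⊢
  have h4 := sup_coset (polar_cvx hP.pos.le) 1 h
  have e : t ^ (-(c + 0)) * (d ⊔ 1) * t ^ c = (t ^ (-(c + 0)) * d * t ^ c) ⊔ 1 := by
    rw [mul_sup, sup_mul, add_zero]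
    congr 1
    group
  rw [e, hi.sup, hi.one]; exact h4

theorem Loc.unique {a a' c : ℤ} {d : D} {g g' : G} (h : Loc hP c a d g) (h' : Loc hP c a' d g')
    (hb : (a - a').natAbs ≤ K + 1) : a = a' ∧ g = g' := by
  unfold Loc at h h'
  have h1 := (polar (i u) hP.pos.le).mul_mem h ((polar (i u) hP.pos.le).inv_mem h')
  have e : (i g)⁻¹ * (t ^ (-(c + a)) * d * t ^ c) * ((i g')⁻¹ * (t ^ (-(c + a')) * d * t ^ c))⁻¹ =
      (i g)⁻¹ * t ^ (a' - a) * i g' := by
    have e1 : t ^ (a' - a) = t ^ (-(c + a)) * t ^ (c + a') := by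
      rw [← zpow_add]; congr 1; ring
    rw [e1]
    group
  rw [e] at h1
  have key : ∀ (a a' : ℤ) (g g' : G), (i g)⁻¹ * t ^ (a' - a) * i g' ∈ polar (i u) hP.pos.le →
      (a - a').natAbs ≤ K + 1 → ¬ a < a' := by
    intro a a' g g' h1 hb hlt
    obtain ⟨m, hm⟩ := Int.eq_ofNat_of_zero_le (show 0 ≤ a' - a by omega)
    have h2 := loc_norm hi hunit hP g⁻¹ h1
    rw [hm, zpow_natCast] at h2
    have e2 : (i g⁻¹)⁻¹ * ((i g)⁻¹ * t ^ m * i g') * i g⁻¹ = t ^ m * i (g' * g⁻¹) := by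
      rw [hi.mul, hi.inv]; group
    rw [e2] at h2
    exact (loc_not hi hunit hP (g' * g⁻¹) (m := m) (by omega) (by omega)).1 h2
  have haa : a = a' := by
    rcases lt_trichotomy a a' with h2 | h2 | h2
    · exact absurd h2 (key a a' g g' h1 hb)
    · exact h2
    · refine absurd h2 (key a' a g' g ?_ (by omega))
      have h3 := (polar (i u) hP.pos.le).inv_mem h1
      have e3 : ((i g)⁻¹ * t ^ (a' - a) * i g')⁻¹ = (i g')⁻¹ * t ^ (a - a') * i g := by
        have e4 : t ^ (a - a') = (t ^ (a' - a))⁻¹ := by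
          rw [← zpow_neg]; congr 1; ring
        rw [e4]; group
      rwa [e3] at h3
  refine ⟨haa, ?_⟩
  subst haa
  have h2 : i (g⁻¹ * g') ∈ polar (i u) hP.pos.le := by
    have e5 : i (g⁻¹ * g') = (i g)⁻¹ * t ^ (a - a) * i g' := by
      rw [hi.mul, hi.inv, sub_self]; group
    rw [e5]; exact h1
  have h3 := loc_inj hi hunit hP h2
  exact inv_mul_eq_one.mp h3

omit hi hunit in
theorem cn_prod (s : D) (φ : ℝ → D) (l : List ℝ) :
    cn s (l.map φ).prod = (l.map (fun r => cn s (φ r))).prod := by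
  induction l with
  | nil => simp
  | cons a l ih => simp only [List.map_cons, List.prod_cons, cn_mul', ih]

theorem loc_prod (φ : ℝ → D) (r : ℝ) (g : G) (l : List ℝ) (hnd : l.Nodup) (hr : r ∈ l)
    (h1 : φ r = i g) (h2 : ∀ r' ∈ l, r' ≠ r → φ r' ∈ polar (i u) hP.pos.le) :
    (i g)⁻¹ * (l.map φ).prod ∈ polar (i u) hP.pos.le := by
  induction l with
  | nil => simp at hr
  | cons a l ih =>
    rw [List.map_cons, List.prod_cons]
    rw [List.nodup_cons] at hnd
    by_cases har : a = r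
    · subst har
      rw [h1, inv_mul_cancel_left]
      have : ∀ l' : List ℝ, (∀ r' ∈ l', φ r' ∈ polar (i u) hP.pos.le) →
          (l'.map φ).prod ∈ polar (i u) hP.pos.le := by
        intro l' hl'
        apply Subgroup.list_prod_mem
        intro x hx
        obtain ⟨r', hr', rfl⟩ := List.mem_map.mp hx
        exact hl' r' hr'
      apply this
      intro r' hr'
      refine h2 r' (List.mem_cons_of_mem _ hr') ?_
      rintro rfl
      exact hnd.1 hr'
    · have hr' : r ∈ l := by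
        rcases List.mem_cons.mp hr with h | h
        · exact absurd h.symm har
        · exact h
      have h3 := ih hnd.2 hr' (fun r' h4 h5 => h2 r' (List.mem_cons_of_mem _ h4) h5)
      have h4 := loc_norm hi hunit hP g (h2 a List.mem_cons_self har)
      have h5 := (polar (i u) hP.pos.le).mul_mem h4 h3
      have e : (i g)⁻¹ * φ a * i g * ((i g)⁻¹ * (l.map φ).prod) =
          (i g)⁻¹ * (φ a * (l.map φ).prod) := by group
      rwa [e] at h5

end Loc

section Closure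

variable {E : Set (LTerm × LTerm)}

theorem eval_prod {A B : Type} [Group A] [Lattice A] [Group B] [Lattice B] (v : ℕ → A × B)
    (s : LTerm) : s.eval v = (s.eval (fun n => (v n).1), s.eval (fun n => (v n).2)) := by
  induction s with
  | var n => rfl
  | one => rfl
  | mul s t hs ht => simp only [LTerm.eval, hs, ht]; rfl
  | inv s hs => simp only [LTerm.eval, hs]; rfl
  | sup s t hs ht => simp only [LTerm.eval, hs, ht]; rfl
  | inf s t hs ht => simp only [LTerm.eval, hs, ht]; rfl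

theorem InVar.prod {A B : Type} [Group A] [Lattice A] [Group B] [Lattice B] (hA : InVar E A)
    (hB : InVar E B) : InVar E (A × B) := by
  refine ⟨⟨?_, ?_⟩, ?_⟩
  · intro a b c h
    exact ⟨hA.lgroup.left _ _ _ h.1, hB.lgroup.left _ _ _ h.2⟩
  · intro a b c h
    exact ⟨hA.lgroup.right _ _ _ h.1, hB.lgroup.right _ _ _ h.2⟩
  · intro e he v
    rw [eval_prod, eval_prod, hA.ids e he, hB.ids e he]

end Closure

end Pool.Agent.Helper6.ZA
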